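import Mathlib

namespace Pool.Agent.Helper983.WC

open Filter Topology

variable {X : Type*} [NormedAddCommGroup X] [NormedSpace ℝ X]

/-- A dictionary: norm one elements whose linear span is dense. -/
def IsDictionary (D : Set X) : Prop :=
  (∀ g ∈ D, ‖g‖ = 1) ∧ Dense (Submodule.span ℝ D : Set X)

/-- `F` is a norming functional of `h`. -/
def IsNorming (F : X →L[ℝ] ℝ) (h : X) : Prop := ‖F‖ = 1 ∧ F h = ‖h‖

/-- `G` is a best approximation of `f` from the subspace `V`. -/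
def IsBestApprox (V : Submodule ℝ X) (f G : X) : Prop :=
  G ∈ V ∧ ∀ G' ∈ V, ‖f - G‖ ≤ ‖f - G'‖

/-- Realizations of the weak Chebyshev greedy algorithm. -/
structure IsRun (t : ℝ) (D : Set X) (f : X) (r : ℕ → X) (F : ℕ → X →L[ℝ] ℝ) (φ : ℕ → X) :
    Prop where
  start : r 0 = f
  stop : ∀ m, r m = 0 → r (m + 1) = 0
  norming : ∀ m, r m ≠ 0 → IsNorming (F m) (r m)
  mem : ∀ m, r m ≠ 0 → φ m ∈ D
  greedy : ∀ m, r m ≠ 0 → ∀ g ∈ D, t * |F m g| ≤ |F m (φ m)|
  cheb : ∀ m, r m ≠ 0 →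
    ∃ G, IsBestApprox (Submodule.span ℝ (φ '' Set.Iic m)) f G ∧ r (m + 1) = f - G

/-- Smoothness: norming functionals are unique. -/
def Smooth (X : Type*) [NormedAddCommGroup X] [NormedSpace ℝ X] : Prop :=
  ∀ x : X, x ≠ 0 → ∀ F G : X →L[ℝ] ℝ, IsNorming F x → IsNorming G x → F = G

/-- Sequential weak-star Kadec-Klee property of the dual norm. -/
def DualKK (X : Type*) [NormedAddCommGroup X] [NormedSpace ℝ X] : Prop :=
  ∀ (F : X →L[ℝ] ℝ) (G : ℕ → X →L[ℝ] ℝ), ‖F‖ = 1 → (∀ k, ‖G k‖ = 1) →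
    (∀ x, Tendsto (fun k => G k x) atTop (𝓝 (F x))) →
    Tendsto (fun k => ‖G k - F‖) atTop (𝓝 0)

/-! ### functionals -/

theorem abs_le_norm {F : X →L[ℝ] ℝ} (hF : ‖F‖ ≤ 1) (x : X) : |F x| ≤ ‖x‖ := by
  have := F.le_of_opNorm_le hF x
  simpa using this

theorem apply_le_norm {F : X →L[ℝ] ℝ} (hF : ‖F‖ ≤ 1) (x : X) : F x ≤ ‖x‖ :=
  (le_abs_self _).trans (abs_le_norm hF x)

theorem isNorming_of_le {F : X →L[ℝ] ℝ} {x : X} (hx : x ≠ 0) (hF : ‖F‖ ≤ 1)
    (h : F x = ‖x‖) : IsNorming F x := by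
  refine ⟨le_antisymm hF ?_, h⟩
  have hx' : 0 < ‖x‖ := norm_pos_iff.2 hx
  have h1 : ‖F x‖ ≤ ‖F‖ * ‖x‖ := F.le_opNorm x
  rw [h, norm_norm] at h1
  exact (le_mul_iff_one_le_left hx').1 h1

/-- If `x` has minimal norm in `x + V`, some norming functional vanishes on `V`. -/
theorem exists_functional (V : Submodule ℝ X) (x : X) (hx : ∀ e ∈ V, ‖x‖ ≤ ‖x + e‖) :
    ∃ F : X →L[ℝ] ℝ, ‖F‖ ≤ 1 ∧ (∀ e ∈ V, F e = 0) ∧ F x = ‖x‖ := by
  by_cases h0 : x = 0
  · exact ⟨0, by simp, by simp, by simp [h0]⟩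
  have hpos : 0 < ‖x‖ := norm_pos_iff.2 h0
  have hdisj : Disjoint (Metric.ball (0 : X) ‖x‖) ((fun e => x + e) '' (V : Set X)) := by
    rw [Set.disjoint_left]
    rintro y hy ⟨e, he, rfl⟩
    have h1 := hx e he
    rw [mem_ball_zero_iff] at hy
    exact absurd h1 (not_le.2 hy)
  have hconv : Convex ℝ ((fun e => x + e) '' (V : Set X)) := by
    have := V.convex.translate x
    simpa [Set.image_add_left] using this
  obtain ⟨G, s, hG1, hG2⟩ := geometric_hahn_banach_open (convex_ball (0 : X) ‖x‖)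
    Metric.isOpen_ball hconv hdisj
  have hGV : ∀ e ∈ V, G e = 0 := by
    intro e he
    by_contra hne
    have h1 : ∀ a : ℝ, s ≤ G x + a * G e := by
      intro a
      have := hG2 (x + a • e) ⟨a • e, V.smul_mem a he, rfl⟩
      simpa using this
    have h2 := h1 ((s - 1 - G x) / G e)
    rw [div_mul_cancel₀ _ hne] at h2
    linarith
  have hGx : s ≤ G x := by
    have := hG2 (x + 0) ⟨0, V.zero_mem, rfl⟩
    simpa using this
  have hs0 : 0 < s := by
    have := hG1 0 (by simp [hpos])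
    simpa using this
  have hGnorm : ‖G‖ * ‖x‖ ≤ s := by
    have key : ∀ y : X, ‖y‖ < ‖x‖ → ‖G y‖ ≤ s := by
      intro y hy
      have h1 := hG1 y (by simpa using hy)
      have h2 := hG1 (-y) (by simpa using hy)
      rw [map_neg] at h2
      rw [Real.norm_eq_abs, abs_le]
      constructor <;> linarith
    have : ‖G‖ ≤ s / ‖x‖ := by
      refine G.opNorm_le_of_ball hpos (by positivity) ?_
      intro y hy
      rw [mem_ball_zero_iff] at hy
      by_cases hy0 : y = 0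
      · simp [hy0]
      have hyp : 0 < ‖y‖ := norm_pos_iff.2 hy0
      by_contra hcon
      push Not at hcon
      have hGy : 0 < ‖G y‖ := lt_of_le_of_lt (by positivity) hcon
      have h3 : s / ‖x‖ * ‖y‖ < ‖G y‖ := hcon
      have h4 : s * ‖y‖ < ‖G y‖ * ‖x‖ := by
        have := mul_lt_mul_of_pos_right h3 hpos
        have e1 : s / ‖x‖ * ‖y‖ * ‖x‖ = s * ‖y‖ := by
          field_simp
        linarith
      obtain ⟨a, ha1, ha2⟩ := exists_between (show s / ‖G y‖ < ‖x‖ / ‖y‖ by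
        rw [div_lt_div_iff₀ hGy hyp]; linarith)
      have ha0 : 0 < a := lt_trans (by positivity) ha1
      have h5 := key (a • y) (by
        rw [norm_smul, Real.norm_of_nonneg ha0.le]
        rwa [lt_div_iff₀ hyp] at ha2)
      rw [map_smul, norm_smul, Real.norm_of_nonneg ha0.le] at h5
      rw [div_lt_iff₀ hGy] at ha1
      linarith
    calc ‖G‖ * ‖x‖ ≤ s / ‖x‖ * ‖x‖ := by gcongr
      _ = s := by field_simp
  have hGxle : G x ≤ ‖G‖ * ‖x‖ := by
    have := G.le_opNorm x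
    exact (le_abs_self _).trans this
  have hGpos : 0 < ‖G‖ := by
    by_contra hcon
    have : ‖G‖ = 0 := le_antisymm (not_lt.1 hcon) (norm_nonneg _)
    rw [this, zero_mul] at hGxle
    linarith
  refine ⟨‖G‖⁻¹ • G, ?_, ?_, ?_⟩
  · rw [norm_smul, norm_inv, norm_norm, inv_mul_cancel₀ hGpos.ne']
  · intro e he
    simp [hGV e he]
  · have : G x = ‖G‖ * ‖x‖ := le_antisymm hGxle (hGnorm.trans hGx)
    simp only [smul_apply, smul_eq_mul, this]
    field_simp

/-- Minimal norm element of a translate of a finite dimensional subspace. -/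
theorem exists_min (V : Submodule ℝ X) [FiniteDimensional ℝ V] (f : X) :
    ∃ e ∈ V, ∀ e' ∈ V, ‖f + e‖ ≤ ‖f + e'‖ := by
  have : ProperSpace V := FiniteDimensional.proper_real V
  have hc : Continuous (fun e : V => ‖f + (e : X)‖) := by fun_prop
  have hlim : Tendsto (fun e : V => ‖f + (e : X)‖) (cocompact V) atTop := by
    have h1 : Tendsto (fun e : V => ‖e‖ - ‖f‖) (cocompact V) atTop :=
      tendsto_atTop_add_const_right _ _ (tendsto_norm_cocompact_atTop (E := V))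
    refine tendsto_atTop_mono ?_ h1
    intro e
    have : ‖(e : X)‖ ≤ ‖f + (e : X)‖ + ‖f‖ := by
      calc ‖(e : X)‖ = ‖(f + (e : X)) - f‖ := by congr 1; abel
        _ ≤ _ := norm_sub_le _ _
    simp only [Submodule.coe_norm]
    linarith
  obtain ⟨e, he⟩ := hc.exists_forall_le hlim
  exact ⟨e, e.2, fun e' he' => he ⟨e', he'⟩⟩

/-- Ultrafilter limits of bounded nets of functionals. -/
theorem exists_ulim {ι : Type*} (W : Ultrafilter ι) (g : ι → X →L[ℝ] ℝ) {C : ℝ}
    (hg : ∀ i, ‖g i‖ ≤ C) :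
    ∃ G : X →L[ℝ] ℝ, ‖G‖ ≤ C ∧ ∀ x, Tendsto (fun i => g i x) W (𝓝 (G x)) := by
  have hex : ∀ x : X, ∃ a : ℝ, Tendsto (fun i => g i x) W (𝓝 a) ∧ ‖a‖ ≤ C * ‖x‖ := by
    intro x
    have hcomp : IsCompact (Metric.closedBall (0 : ℝ) (C * ‖x‖)) := isCompact_closedBall _ _
    have hmem : ∀ i, g i x ∈ Metric.closedBall (0 : ℝ) (C * ‖x‖) := by
      intro i
      rw [mem_closedBall_zero_iff]
      exact (g i).le_of_opNorm_le (hg i) x
    have : (W.map (fun i => g i x) : Filter ℝ) ≤ 𝓟 (Metric.closedBall (0 : ℝ) (C * ‖x‖)) := by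
      rw [Filter.le_principal_iff, Ultrafilter.coe_map]
      exact Filter.mem_map.2 (Filter.univ_mem' hmem)
    obtain ⟨a, ha, hle⟩ := hcomp.ultrafilter_le_nhds _ this
    exact ⟨a, hle, by simpa using ha⟩
  choose L hL hLb using hex
  have hadd : ∀ x y, L (x + y) = L x + L y := by
    intro x y
    refine tendsto_nhds_unique (hL (x + y)) ?_
    have := (hL x).add (hL y)
    simpa using this
  have hsmul : ∀ (a : ℝ) x, L (a • x) = a • L x := by
    intro a x
    refine tendsto_nhds_unique (hL (a • x)) ?_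
    have := (hL x).const_mul a
    simpa using this
  let L' : X →ₗ[ℝ] ℝ := { toFun := L, map_add' := hadd, map_smul' := hsmul }
  by_cases hι : Nonempty ι
  · obtain ⟨i⟩ := hι
    have hC : 0 ≤ C := (norm_nonneg _).trans (hg i)
    exact ⟨L'.mkContinuous C hLb, L'.mkContinuous_norm_le hC _, hL⟩
  · exfalso
    have hW := W.neBot
    have hemp : IsEmpty ι := not_nonempty_iff.1 hι
    exact hW.ne (Filter.filter_eq_bot_of_isEmpty _)

end Pool.Agent.Helper983.WC
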