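import Pool.Agent.Helper983.WC.Eng

namespace Pool.Agent.Helper983.WC

open Filter Topology

variable {X : Type*} [NormedAddCommGroup X] [NormedSpace ℝ X]

namespace Eng

variable {c ε ζ : ℝ} {P u : ℕ → X} {μ : ℕ → ℝ} {G Φ : ℕ → X →L[ℝ] ℝ} {h r : ℕ → X}

theorem eta_le (he : Eng c ε ζ P u μ G Φ h r) {j n : ℕ} (hjn : j < n) :
    ε * (1 / 4) ^ n ≤ ε * (sc j / 4) := by
  have h1 := quarter_le_sc hjn
  have h2 := he.εpos
  gcongr

theorem x_mul (he : Eng c ε ζ P u μ G Φ h r) (n : ℕ) :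
    sc n * Φ n (h n) = ‖r n‖ - Φ n (pp P u n) := by
  have h1 := he.Φv n n le_rfl
  unfold vv at h1
  rw [map_add, map_smul, smul_eq_mul] at h1
  linarith

theorem x_ge (he : Eng c ε ζ P u μ G Φ h r) (n : ℕ) :
    c / 8192 * sc n ≤ ‖r n‖ - Φ n (pp P u n) := by
  have h1 := he.r_lower n
  have h2 := (apply_le_norm (he.Φn n) (pp P u n)).trans (he.pp_le n)
  have h3 := he.ζle
  have h4 := sc_pos n
  have h5 := he.cpos
  have h6 : ζ * sc n ≤ c / 65536 * sc n := by gcongr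
  nlinarith

theorem mod_le (n : ℕ) : ((n % 1024 : ℕ) : ℝ) ≤ 1024 := by
  have : n % 1024 ≤ 1024 := by omega
  exact_mod_cast this

theorem u_le (he : Eng c ε ζ P u μ G Φ h r) (n : ℕ) :
    64 * |Φ n (u (n / 1024))| ≤ ‖r n‖ - Φ n (pp P u n) := by
  have h1 := he.r_lower n
  have h3 := he.ζle
  have h4 := sc_pos n
  have h5 := he.cpos
  have h6 : ζ * sc n ≤ c / 65536 * sc n := by gcongr
  have key : ∀ s : ℝ, |s| ≤ 64 → Φ n (pp P u n) + s * Φ n (u (n / 1024)) ≤ 1 + ζ * sc n := by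
    intro s hs
    have h2 := (apply_le_norm (he.Φn n) _).trans (he.room (n / 1024) ((n % 1024 : ℕ) : ℝ) s
      (by positivity) (mod_le n) hs)
    rw [map_add, map_smul, smul_eq_mul] at h2
    exact h2
  have k1 := key 64 (by norm_num)
  have k2 := key (-64) (by norm_num)
  rcases abs_cases (Φ n (u (n / 1024))) with ⟨h7, _⟩ | ⟨h7, _⟩ <;> rw [h7] <;> nlinarith

theorem u_le' (he : Eng c ε ζ P u μ G Φ h r) (n : ℕ) :
    64 * |Φ n (u (n / 1024 + 1))| ≤ ‖r n‖ - Φ n (pp P u n) := by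
  have h1 := he.r_lower n
  have h3 := he.ζle
  have h4 := sc_pos n
  have h5 := he.cpos
  have h6 : ζ * sc n ≤ c / 65536 * sc n := by gcongr
  have key : ∀ s : ℝ, |s| ≤ 64 → Φ n (pp P u n) + s * Φ n (u (n / 1024 + 1)) ≤ 1 + ζ * sc n := by
    intro s hs
    have h2 := (apply_le_norm (he.Φn n) _).trans (he.room' (n / 1024) ((n % 1024 : ℕ) : ℝ) s
      (by positivity) (mod_le n) hs)
    rw [map_add, map_smul, smul_eq_mul] at h2
    exact h2
  have k1 := key 64 (by norm_num)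
  have k2 := key (-64) (by norm_num)
  rcases abs_cases (Φ n (u (n / 1024 + 1))) with ⟨h7, _⟩ | ⟨h7, _⟩ <;> rw [h7] <;> nlinarith

theorem vv_sub (he : Eng c ε ζ P u μ G Φ h r) (n : ℕ) :
    vv P u h n - vv P u h (n + 1) = u (n / 1024) + sc n • h n - sc (n + 1) • h (n + 1) := by
  unfold vv
  rw [pp_succ he.step]
  abel

/-- difference over a round -/
theorem vv_round (he : Eng c ε ζ P u μ G Φ h r) (q : ℕ) :
    vv P u h (q * 1024) - vv P u h ((q + 1) * 1024) = (1024 : ℝ) • u q +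
      (1 / 2 : ℝ) ^ q • h (q * 1024) - (1 / 2 : ℝ) ^ (q + 1) • h ((q + 1) * 1024) := by
  have key : ∀ a b : ℕ, a / 1024 = q → a % 1024 = 0 → b / 1024 = q + 1 → b % 1024 = 0 →
      vv P u h a - vv P u h b = (1024 : ℝ) • u q +
      (1 / 2 : ℝ) ^ q • h a - (1 / 2 : ℝ) ^ (q + 1) • h b := by
    intro a b h1 h2 h3 h4
    unfold vv sc pp
    rw [h1, h2, h3, h4, he.step, Nat.cast_zero]
    module
  exact key _ _ (Nat.mul_div_cancel q (by norm_num)) (Nat.mul_mod_left q 1024)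
    (Nat.mul_div_cancel (q + 1) (by norm_num)) (Nat.mul_mod_left (q + 1) 1024)

theorem u_sub_mm (he : Eng c ε ζ P u μ G Φ h r) (q : ℕ) : u (q + 1) - mm P u h μ (q + 1) =
    (u (q + 1) - μ q • u q) - (μ q / 1024) • ((1 / 2 : ℝ) ^ q • h (q * 1024) -
      (1 / 2 : ℝ) ^ (q + 1) • h ((q + 1) * 1024)) := by
  have key : ∀ A B : X, u (q + 1) - (μ q / 1024) • ((1024 : ℝ) • u q + (1 / 2 : ℝ) ^ q • A -
      (1 / 2 : ℝ) ^ (q + 1) • B) = (u (q + 1) - μ q • u q) - (μ q / 1024) • ((1 / 2 : ℝ) ^ q • A -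
      (1 / 2 : ℝ) ^ (q + 1) • B) := by
    intro A B
    module
  rw [mm_succ, he.vv_round]
  exact key _ _

theorem u_sub_mm_le (he : Eng c ε ζ P u μ G Φ h r) (q : ℕ) :
    ‖u q - mm P u h μ q‖ ≤ 1 / 2 * (1 / 2) ^ q := by
  have hζ := he.ζle
  have hζ0 := he.ζpos
  have hc := he.cle
  cases q with
  | zero =>
    rw [mm_zero, sub_zero, pow_zero]
    linarith [he.u0]
  | succ q =>
    rw [he.u_sub_mm]
    have h1 := he.prop q
    have h2 := he.μ0 q
    have h3 := he.μ4 q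
    have h4 := he.hn (q * 1024)
    have h5 := he.hn ((q + 1) * 1024)
    have hp : (0 : ℝ) < (1 / 2) ^ (q + 1) := by positivity
    have hpq : (1 / 2 : ℝ) ^ q = 2 * (1 / 2) ^ (q + 1) := by rw [pow_succ]; ring
    refine (norm_sub_le _ _).trans ?_
    have h6 : ‖(1 / 2 : ℝ) ^ q • h (q * 1024) - (1 / 2 : ℝ) ^ (q + 1) • h ((q + 1) * 1024)‖ ≤
        3 * (1 / 2) ^ (q + 1) := by
      refine (norm_sub_le _ _).trans ?_
      rw [norm_smul, norm_smul, Real.norm_of_nonneg (by positivity),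
        Real.norm_of_nonneg (by positivity), hpq]
      nlinarith
    have h7 : ‖(μ q / 1024) • ((1 / 2 : ℝ) ^ q • h (q * 1024) -
        (1 / 2 : ℝ) ^ (q + 1) • h ((q + 1) * 1024))‖ ≤ 4 / 1024 * (3 * (1 / 2) ^ (q + 1)) := by
      rw [norm_smul, Real.norm_of_nonneg (by positivity)]
      exact mul_le_mul (by linarith) h6 (norm_nonneg _) (by norm_num)
    nlinarith

theorem smul_gg' (he : Eng c ε ζ P u μ G Φ h r) (n : ℕ) : sc n • gg P u h μ n =
    (u (n / 1024) - mm P u h μ (n / 1024)) + sc n • h n - sc (n + 1) • h (n + 1) := by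
  rw [smul_gg, he.vv_sub]
  abel

theorem gg_le (he : Eng c ε ζ P u μ G Φ h r) (n : ℕ) : ‖gg P u h μ n‖ ≤ 3 := by
  have h1 := he.smul_gg' n
  have h2 := he.u_sub_mm_le (n / 1024)
  have h3 := sc_pos n
  have h4 := sc_pos (n + 1)
  have h5 := sc_anti (Nat.le_succ n)
  have h6 := he.hn n
  have h7 := he.hn (n + 1)
  have h8 : ‖sc n • gg P u h μ n‖ ≤ 3 * sc n := by
    rw [h1]
    refine (norm_sub_le _ _).trans ?_
    refine (add_le_add_left (norm_add_le _ _) _).trans ?_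
    rw [norm_smul, norm_smul, Real.norm_of_nonneg h3.le, Real.norm_of_nonneg h4.le]
    have h9 : (1 / 2 : ℝ) * (1 / 2) ^ (n / 1024) = 1 / 2 * sc n := rfl
    rw [h9] at h2
    have h10 : sc (n + 1) * ‖h (n + 1)‖ ≤ sc n * 1 := by
      refine mul_le_mul h5 h7 (norm_nonneg _) h3.le
    have h11 : sc n * ‖h n‖ ≤ sc n * 1 := by gcongr
    linarith
  rw [norm_smul, Real.norm_of_nonneg h3.le, mul_comm] at h8
  exact le_of_mul_le_mul_right h8 h3

theorem Φ_mm (he : Eng c ε ζ P u μ G Φ h r) {n q : ℕ} (hq : q * 1024 ≤ n) :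
    Φ n (mm P u h μ q) = 0 := by
  have h1 := mm_mem P u h μ (LinearMap.ker (Φ n : X →ₗ[ℝ] ℝ)) (i := n) (q := q) (by
    intro j hj
    rw [LinearMap.mem_ker]
    have h1 := he.Φv n j hj
    have h2 := he.Φv n 0 (Nat.zero_le n)
    simp only [ContinuousLinearMap.coe_coe, map_sub]
    rw [h1, h2, sub_self]) hq
  rw [LinearMap.mem_ker] at h1
  exact h1

theorem Φ_kill (he : Eng c ε ζ P u μ G Φ h r) {n i : ℕ} (hi : i < n) :
    Φ n (gg P u h μ i) = 0 := by
  have h1 := congrArg (Φ n) (smul_gg P u h μ i)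
  rw [map_smul, map_sub, map_sub, he.Φv n i hi.le, he.Φv n (i + 1) hi, he.Φ_mm (by omega),
    sub_self, sub_zero, smul_eq_mul] at h1
  rcases mul_eq_zero.1 h1 with h2 | h2
  · exact absurd h2 (sc_pos i).ne'
  · exact h2

theorem diag (he : Eng c ε ζ P u μ G Φ h r) (n : ℕ) :
    (‖r n‖ - Φ n (pp P u n)) * (63 / 64) - ε * (sc n / 4) ≤ sc n * Φ n (gg P u h μ n) := by
  have h1 := congrArg (Φ n) (smul_gg P u h μ n)
  rw [map_smul, map_sub, map_sub, he.Φv n n le_rfl, he.Φ_mm (by omega), sub_zero,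
    smul_eq_mul] at h1
  have h2 : Φ n (vv P u h (n + 1)) = Φ n (pp P u n) - Φ n (u (n / 1024)) +
      sc (n + 1) * Φ n (h (n + 1)) := by
    unfold vv
    rw [pp_succ he.step, map_add, map_sub, map_smul, smul_eq_mul]
  have h3 := (he.Φfut (n + 1) n (Nat.lt_succ_self n)).trans (he.eta_le (Nat.lt_succ_self n))
  have h4 := he.u_le n
  have h5 := sc_le_one (n + 1)
  have h6 := sc_pos (n + 1)
  have h7 := neg_abs_le (Φ n (u (n / 1024)))
  have h8 : sc (n + 1) * Φ n (h (n + 1)) ≤ ε * (sc n / 4) := by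
    calc sc (n + 1) * Φ n (h (n + 1)) ≤ sc (n + 1) * |Φ n (h (n + 1))| := by
          gcongr; exact le_abs_self _
      _ ≤ 1 * |Φ n (h (n + 1))| := by gcongr
      _ ≤ _ := by rw [one_mul]; exact h3
  rw [h1, h2]
  linarith

/-- bound for the two last terms -/
theorem tail_le (he : Eng c ε ζ P u μ G Φ h r) {j n : ℕ} (hjn : j < n) :
    |sc n * Φ j (h n) - sc (n + 1) * Φ j (h (n + 1))| ≤ 2 * (ε * (sc j / 4)) * sc n := by
  have h1 := (he.Φfut n j hjn).trans (he.eta_le hjn)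
  have h2 := (he.Φfut (n + 1) j (by omega)).trans (he.eta_le (show j < n + 1 by omega))
  have h3 := sc_pos n
  have h4 := sc_pos (n + 1)
  have h5 := sc_anti (Nat.le_succ n)
  refine (abs_sub _ _).trans ?_
  rw [abs_mul, abs_mul, abs_of_pos h3, abs_of_pos h4]
  have h6 : sc n * |Φ j (h n)| ≤ sc n * (ε * (sc j / 4)) := by gcongr
  have h7 : sc (n + 1) * |Φ j (h (n + 1))| ≤ sc n * (ε * (sc j / 4)) := by
    exact mul_le_mul h5 h2 (abs_nonneg _) h3.le
  linarith

theorem Φ_gg (he : Eng c ε ζ P u μ G Φ h r) (j n : ℕ) : sc n * Φ j (gg P u h μ n) =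
    Φ j (u (n / 1024)) - Φ j (mm P u h μ (n / 1024)) +
      (sc n * Φ j (h n) - sc (n + 1) * Φ j (h (n + 1))) := by
  have h1 := congrArg (Φ j) (he.smul_gg' n)
  rw [map_smul, map_sub, map_add, map_sub, map_smul, map_smul, smul_eq_mul, smul_eq_mul,
    smul_eq_mul] at h1
  rw [h1]; ring

theorem offA (he : Eng c ε ζ P u μ G Φ h r) {j n : ℕ} (hjn : j < n)
    (hq : n / 1024 = j / 1024) :
    sc j * |Φ j (gg P u h μ n)| ≤ (‖r j‖ - Φ j (pp P u j)) / 64 + 2 * (ε * (sc j / 4)) := by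
  have h0 : sc j = sc n := by unfold sc; rw [hq]
  have h1 := he.Φ_gg j n
  rw [he.Φ_mm (by rw [hq]; omega), sub_zero] at h1
  have h2 := he.tail_le hjn
  have h3 := he.u_le j
  rw [← hq] at h3
  have h4 : sc j * |Φ j (gg P u h μ n)| = |sc n * Φ j (gg P u h μ n)| := by
    rw [abs_mul, abs_of_pos (sc_pos n), h0]
  rw [h4, h1]
  refine (abs_add_le _ _).trans ?_
  have h5 := sc_le_one n
  have h6 : 0 ≤ ε * (sc j / 4) := by
    have := he.εpos
    have := sc_pos j
    positivity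
  nlinarith

theorem offB (he : Eng c ε ζ P u μ G Φ h r) {j n : ℕ} (hjn : j < n)
    (hq : n / 1024 = j / 1024 + 1) :
    sc j * |Φ j (gg P u h μ n)| ≤ (‖r j‖ - Φ j (pp P u j)) / 4 + 6 * (ε * (sc j / 4)) := by
  have h0 : sc j = 2 * sc n := by unfold sc; rw [hq, pow_succ]; ring
  have h1 := he.Φ_gg j n
  have h2 := he.tail_le hjn
  have h3 := he.u_le j
  have h3' := he.u_le' j
  rw [← hq] at h3'
  -- memory term
  have h4 : Φ j (mm P u h μ (n / 1024)) = μ (j / 1024) / 1024 * ((‖r j‖ - Φ j (pp P u j)) +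
      ((1024 : ℝ) - ((j % 1024 : ℕ) : ℝ)) * Φ j (u (j / 1024)) -
      sc ((j / 1024 + 1) * 1024) * Φ j (h ((j / 1024 + 1) * 1024))) := by
    rw [hq, mm_succ, map_smul, smul_eq_mul, map_sub, he.Φv j (j / 1024 * 1024) (by omega)]
    unfold vv
    rw [pp_round he.step, map_add, map_sub, map_smul, map_smul, smul_eq_mul, smul_eq_mul]
    ring
  have h5 := (he.Φfut ((j / 1024 + 1) * 1024) j (by omega)).trans
    (he.eta_le (show j < (j / 1024 + 1) * 1024 by omega))
  have h6 := sc_le_one ((j / 1024 + 1) * 1024)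
  have h7 := sc_pos ((j / 1024 + 1) * 1024)
  have h8 := he.μ0 (j / 1024)
  have h9 := he.μ4 (j / 1024)
  have h10 := he.x_ge j
  have h11 := sc_pos j
  have h12 := he.cpos
  have hx0 : 0 ≤ ‖r j‖ - Φ j (pp P u j) := le_trans (by positivity) h10
  have hm0 : (0 : ℝ) ≤ ((j % 1024 : ℕ) : ℝ) := by positivity
  have hm1 := mod_le j
  generalize hx : ‖r j‖ - Φ j (pp P u j) = x at *
  have h13 : |((1024 : ℝ) - ((j % 1024 : ℕ) : ℝ)) * Φ j (u (j / 1024))| ≤ 16 * x := by
    rw [abs_mul, abs_of_nonneg (by linarith)]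
    nlinarith [abs_nonneg (Φ j (u (j / 1024)))]
  have h14 : |sc ((j / 1024 + 1) * 1024) * Φ j (h ((j / 1024 + 1) * 1024))| ≤ ε * (sc j / 4) := by
    rw [abs_mul, abs_of_pos h7]
    nlinarith [abs_nonneg (Φ j (h ((j / 1024 + 1) * 1024)))]
  have h15 : |Φ j (mm P u h μ (n / 1024))| ≤ 4 / 1024 * (x + 16 * x + ε * (sc j / 4)) := by
    rw [h4, abs_mul, abs_of_nonneg (by positivity)]
    refine mul_le_mul (by linarith) ?_ (abs_nonneg _) (by norm_num)
    refine (abs_sub _ _).trans ?_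
    refine add_le_add ((abs_add_le _ _).trans ?_) h14
    rw [abs_of_nonneg hx0]
    linarith
  have h16 : sc j * |Φ j (gg P u h μ n)| = 2 * |sc n * Φ j (gg P u h μ n)| := by
    rw [abs_mul, abs_of_pos (sc_pos n), h0]; ring
  have h17 : |sc n * Φ j (gg P u h μ n)| ≤ x / 64 + 4 / 1024 * (x + 16 * x + ε * (sc j / 4)) +
      2 * (ε * (sc j / 4)) := by
    rw [h1]
    refine (abs_add_le _ _).trans ?_
    refine add_le_add ((abs_sub _ _).trans ?_) ?_
    · linarith
    · have h5 := sc_le_one n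
      have h6 : 0 ≤ ε * (sc j / 4) := by
        have := he.εpos
        positivity
      nlinarith
  rw [h16]
  have h18 : 0 ≤ ε * (sc j / 4) := by
    have := he.εpos
    positivity
  linarith

theorem offC (he : Eng c ε ζ P u μ G Φ h r) {j n : ℕ} (hjn : j < n)
    (hq : j / 1024 + 2 ≤ n / 1024) : |Φ j (gg P u h μ n)| ≤ ζ + 3 * ε := by
  obtain ⟨q, hq'⟩ : ∃ q, n / 1024 = q + 1 := ⟨n / 1024 - 1, by omega⟩
  have h1 := he.Φ_gg j n
  have h2 := he.tail_le hjn
  have h3 := sc_pos n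
  have h4 : Φ j (u (n / 1024)) - Φ j (mm P u h μ (n / 1024)) = Φ j (u (q + 1) - μ q • u q) -
      μ q / 1024 * ((1 / 2 : ℝ) ^ q * Φ j (h (q * 1024)) -
      (1 / 2 : ℝ) ^ (q + 1) * Φ j (h ((q + 1) * 1024))) := by
    rw [← map_sub, hq', he.u_sub_mm, map_sub]
    congr 1
    rw [map_smul, smul_eq_mul, map_sub, map_smul, map_smul, smul_eq_mul, smul_eq_mul]
  have hscn : sc n = (1 / 2) ^ (q + 1) := by unfold sc; rw [hq']
  have hpq : (1 / 2 : ℝ) ^ q = 2 * (1 / 2) ^ (q + 1) := by rw [pow_succ]; ring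
  have hεp := he.εpos
  have h5 : |Φ j (h (q * 1024))| ≤ ε := by
    refine (he.Φfut (q * 1024) j (by omega)).trans ?_
    have : (1 / 4 : ℝ) ^ (q * 1024) ≤ 1 := pow_le_one₀ (by norm_num) (by norm_num)
    generalize (1 / 4 : ℝ) ^ (q * 1024) = t at *
    nlinarith
  have h6 : |Φ j (h ((q + 1) * 1024))| ≤ ε := by
    refine (he.Φfut ((q + 1) * 1024) j (by omega)).trans ?_
    have : (1 / 4 : ℝ) ^ ((q + 1) * 1024) ≤ 1 := pow_le_one₀ (by norm_num) (by norm_num)
    generalize (1 / 4 : ℝ) ^ ((q + 1) * 1024) = t at *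
    nlinarith
  have h7 := (abs_le_norm (he.Φn j) _).trans (he.prop q)
  have h8 := he.μ0 q
  have h9 := he.μ4 q
  rw [hpq, ← hscn] at h4
  rw [← hscn] at h7
  have h10 : |2 * sc n * Φ j (h (q * 1024)) - sc n * Φ j (h ((q + 1) * 1024))| ≤
      3 * ε * sc n := by
    refine (abs_sub _ _).trans ?_
    rw [abs_mul (2 * sc n), abs_mul (sc n), abs_of_pos h3,
      abs_of_pos (by linarith : (0 : ℝ) < 2 * sc n)]
    nlinarith
  have h11 : |μ q / 1024 * (2 * sc n * Φ j (h (q * 1024)) - sc n * Φ j (h ((q + 1) * 1024)))| ≤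
      4 / 1024 * (3 * ε * sc n) := by
    rw [abs_mul, abs_of_nonneg (by positivity)]
    exact mul_le_mul (by linarith) h10 (abs_nonneg _) (by norm_num)
  have h12 : |sc n * Φ j (gg P u h μ n)| ≤ ζ * sc n + 4 / 1024 * (3 * ε * sc n) +
      2 * (ε * (sc j / 4)) * sc n := by
    rw [h1, h4]
    refine (abs_add_le _ _).trans (add_le_add ((abs_sub _ _).trans (add_le_add h7 h11)) h2)
  have h13 : |sc n * Φ j (gg P u h μ n)| ≤ (ζ + 3 * ε) * sc n := by
    have h14 := sc_le_one j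
    have h15 : 0 < ε * sc n := by positivity
    have h16 : 2 * (ε * (sc j / 4)) * sc n ≤ ε * sc n := by nlinarith
    nlinarith
  rw [abs_mul, abs_of_pos h3, mul_comm] at h13
  exact le_of_mul_le_mul_right h13 h3

theorem diag' (he : Eng c ε ζ P u μ G Φ h r) (n : ℕ) : c / 16384 ≤ Φ n (gg P u h μ n) := by
  have h1 := he.diag n
  have h2 := he.x_ge n
  have h3 := sc_pos n
  have h4 := he.εle
  have h5 : c / 16384 * sc n ≤ Φ n (gg P u h μ n) * sc n := by
    have : ε * sc n ≤ c / 409600 * sc n := by gcongr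
    have h6 : 0 < c * sc n := mul_pos he.cpos h3
    nlinarith
  exact le_of_mul_le_mul_right h5 h3

theorem off (he : Eng c ε ζ P u μ G Φ h r) {j n : ℕ} (hjn : j < n) :
    |Φ j (gg P u h μ n)| ≤ |Φ j (gg P u h μ j)| := by
  have hpos : 0 < Φ j (gg P u h μ j) := lt_of_lt_of_le (by have := he.cpos; positivity)
    (he.diag' j)
  rw [abs_of_pos hpos]
  have h1 := he.diag j
  have h2 := he.x_ge j
  have h3 := sc_pos j
  have h4 := he.εle
  have hc := he.cpos
  have h5 : ε * sc j ≤ c / 409600 * sc j := by gcongr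
  have h6 : 0 < c * sc j := mul_pos hc h3
  have hcases : n / 1024 = j / 1024 ∨ n / 1024 = j / 1024 + 1 ∨ j / 1024 + 2 ≤ n / 1024 := by
    omega
  rcases hcases with hq | hq | hq
  · have h7 := he.offA hjn hq
    have h8 : sc j * |Φ j (gg P u h μ n)| ≤ sc j * Φ j (gg P u h μ j) := by nlinarith
    exact le_of_mul_le_mul_left h8 h3
  · have h7 := he.offB hjn hq
    have h8 : sc j * |Φ j (gg P u h μ n)| ≤ sc j * Φ j (gg P u h μ j) := by nlinarith
    exact le_of_mul_le_mul_left h8 h3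
  · have h7 := he.offC hjn hq
    have h8 := he.diag' j
    have h9 := he.ζle
    linarith

theorem fails [CompleteSpace X] (hX : Smooth X) (he : Eng c ε ζ P u μ G Φ h r) : Fails X := by
  refine crit2 hX (f := vv P u h 0) (r := r) (F := Φ) (g := gg P u h μ) (M := 3) he.gg_le he.Φn
    (fun n i hi => he.Φ_kill hi) ?_ ?_ ?_ (β := c / 16384) (by have := he.cpos; positivity) ?_ ?_
  · intro n
    have h1 := he.rmem n
    have h2 : Submodule.span ℝ ((fun i => vv P u h i - vv P u h 0) ''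
        (Finset.range (n + 1) : Set ℕ)) ≤ LinearMap.ker (Φ n : X →ₗ[ℝ] ℝ) := by
      rw [Submodule.span_le]
      rintro _ ⟨i, hi, rfl⟩
      have hi' : i ≤ n := by
        have : i ∈ Finset.range (n + 1) := hi
        rw [Finset.mem_range] at this
        omega
      simp only [SetLike.mem_coe, LinearMap.mem_ker, ContinuousLinearMap.coe_coe, map_sub]
      rw [he.Φv n i hi', he.Φv n 0 (Nat.zero_le n), sub_self]
    have h3 := h2 h1
    simp only [LinearMap.mem_ker, ContinuousLinearMap.coe_coe, map_sub] at h3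
    rw [he.Φv n 0 (Nat.zero_le n)] at h3
    linarith
  · intro n
    have h1 := he.rmem n
    have h2 : Submodule.span ℝ ((fun i => vv P u h i - vv P u h 0) ''
        (Finset.range (n + 1) : Set ℕ)) ≤ Submodule.span ℝ (gg P u h μ '' Set.Iio n) := by
      rw [Submodule.span_le]
      rintro _ ⟨i, hi, rfl⟩
      have hi' : i ≤ n := by
        have : i ∈ Finset.range (n + 1) := hi
        rw [Finset.mem_range] at this
        omega
      exact vv_mem P u h μ n i hi'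
    have h3 := Submodule.neg_mem _ (h2 h1)
    rwa [neg_sub] at h3
  · intro n
    have h1 := he.r_lower n
    have h2 := he.cpos
    have h3 := sc_pos n
    have h4 : 0 < c / 4096 * sc n := by positivity
    linarith
  · intro n
    exact (he.diag' n).trans (le_abs_self _)
  · intro n i hi
    have h1 := he.off hi
    have h2 : (0 : ℝ) < (1 / 2) ^ (n + 2) := by positivity
    nlinarith [abs_nonneg (Φ n (gg P u h μ i))]

end Eng

end Pool.Agent.Helper983.WC
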