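import Pool.Agent.Helper983.WC.Sel
import Pool.Agent.Helper983.WC.Eng2

namespace Pool.Agent.Helper983.WC

open Filter Topology

variable {X : Type*} [NormedAddCommGroup X] [NormedSpace ℝ X]

/-- In the first case the selected functionals are uniformly close to one on all points. -/
theorem unif {F : X →L[ℝ] ℝ} {c : ℝ} {a : ℕ → ℝ} {G : ℕ → X →L[ℝ] ℝ} {h y : ℕ → X} {l : ℕ → ℝ}
    (hs : Sel F c 1 (fun n => (1 / 2) ^ n) a G h y l) {η : ℝ} (hη : 0 < η) :
    ∀ᶠ b in atTop, ∀ m, |G b (y m) - 1| ≤ η := by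
  have h1 : Tendsto (fun b : ℕ => 2 * (1 / 2 : ℝ) ^ b) atTop (𝓝 (2 * 0)) :=
    (tendsto_pow_atTop_nhds_zero_of_lt_one (by norm_num) (by norm_num)).const_mul 2
  rw [mul_zero] at h1
  filter_upwards [h1.eventually_le_const hη] with b hb m
  have hp : (0 : ℝ) < (1 / 2) ^ b := by positivity
  rcases le_or_gt m b with hmb | hmb
  · exact (hs.past b m hmb).trans (by linarith)
  · have h2 := hs.fut b m hmb
    have h3 := hs.lL b
    have h4 : (1 / 2 : ℝ) ^ m ≤ (1 / 2) ^ b :=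
      pow_le_pow_of_le_one (by norm_num) (by norm_num) hmb.le
    have h5 : |G b (y m) - 1| ≤ |G b (y m) - l b| + |l b - 1| := by
      have := abs_add_le (G b (y m) - l b) (l b - 1)
      rwa [sub_add_sub_cancel] at this
    refine h5.trans ?_
    linarith

/-- A supply of directions. -/
theorem dir {F : X →L[ℝ] ℝ} {c : ℝ} {a : ℕ → ℝ} {G : ℕ → X →L[ℝ] ℝ} {h y : ℕ → X} {l : ℕ → ℝ}
    (hs : Sel F c 1 (fun n => (1 / 2) ^ n) a G h y l) {S : Set X} (hS : S.Finite)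
    (hSF : ∀ x ∈ S, F x = 0) {T : Set (X →L[ℝ] ℝ)} (hT : T.Finite) {η : ℝ} (hη : 0 < η) :
    ∃ (G' : X →L[ℝ] ℝ) (h' : X), ‖G'‖ ≤ 1 ∧ ‖h'‖ ≤ 1 ∧ F h' = 0 ∧ c / 4 ≤ G' h' ∧
      (∀ m, |G' (y m) - 1| ≤ η) ∧ (∀ x ∈ S, |G' x| ≤ η) ∧ ∀ L ∈ T, |L h'| ≤ η := by
  have hb := hs.base
  have hc := hb.cpos
  set U : Ultrafilter ℕ := hyperfilter ℕ with hU
  have hUle : (U : Filter ℕ) ≤ atTop := hyper_le
  have hlim : ∀ L : X →L[ℝ] ℝ, ∃ s : ℝ, Tendsto (fun k => L (h k)) U (𝓝 s) := by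
    intro L
    have hmem : ∀ k, L (h k) ∈ Set.Icc (-‖L‖) ‖L‖ := by
      intro k
      have h1 := L.le_opNorm (h k)
      have h2 : ‖L‖ * ‖h k‖ ≤ ‖L‖ * 1 := by
        have := hb.hn k
        have := norm_nonneg L
        gcongr
      rw [Real.norm_eq_abs] at h1
      exact abs_le.1 (by linarith)
    have hle : (U.map (fun k => L (h k)) : Filter ℝ) ≤ 𝓟 (Set.Icc (-‖L‖) ‖L‖) := by
      rw [Filter.le_principal_iff, Ultrafilter.coe_map]
      exact Filter.mem_map.2 (Filter.univ_mem' hmem)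
    obtain ⟨s, -, hlim⟩ := isCompact_Icc.ultrafilter_le_nhds _ hle
    exact ⟨s, hlim⟩
  choose s hs' using hlim
  have e1 : ∀ᶠ k in (U : Filter ℕ), ∀ L ∈ T, |L (h k) - s L| ≤ η := by
    refine (eventually_all_finite hT).2 fun L _ => ?_
    filter_upwards [(hs' L) (Metric.ball_mem_nhds _ hη)] with k hk
    rw [Set.mem_preimage, Metric.mem_ball, Real.dist_eq] at hk
    exact hk.le
  obtain ⟨k, hk⟩ := e1.exists
  have e2 : ∀ᶠ k' in (U : Filter ℕ), ∀ x ∈ S, |G k' x| ≤ η := by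
    refine (eventually_all_finite hS).2 fun x hx => ?_
    have h1 := (hb.lim x).mono_left hUle
    rw [hSF x hx] at h1
    filter_upwards [h1 (Metric.ball_mem_nhds _ hη)] with k' hk'
    rw [Set.mem_preimage, Metric.mem_ball, Real.dist_eq, sub_zero] at hk'
    exact hk'.le
  have e3 : ∀ᶠ k' in (U : Filter ℕ), G k' (h k) ≤ c / 2 := by
    have h1 := (hb.lim (h k)).mono_left hUle
    rw [hb.Fh k] at h1
    exact h1.eventually_le_const (by positivity)
  have e4 : ∀ᶠ k' in (U : Filter ℕ), ∀ m, |G k' (y m) - 1| ≤ η := hUle (unif hs hη)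
  obtain ⟨k', h1, h2, h3, h4⟩ := (e1.and (e2.and (e3.and e4))).exists
  refine ⟨G k', (1 / 2 : ℝ) • (h k' - h k), hb.Gn k', ?_, ?_, ?_, h4, h2, ?_⟩
  · rw [norm_smul]
    have h5 := norm_sub_le (h k') (h k)
    have h6 := hb.hn k'
    have h7 := hb.hn k
    norm_num
    linarith
  · rw [map_smul, map_sub, hb.Fh, hb.Fh]; simp
  · rw [map_smul, map_sub, smul_eq_mul]
    have := hb.Gh k'
    linarith
  · intro L hL
    have h5 := h1 L hL
    have h6 := hk L hL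
    rw [map_smul, map_sub, smul_eq_mul]
    rw [abs_le] at h5 h6 ⊢
    constructor <;> linarith

theorem caseA [CompleteSpace X] (hX : Smooth X) {F : X →L[ℝ] ℝ} {c : ℝ} (hc : 0 < c)
    (hall : ∀ η a : ℕ → ℝ, (∀ n, 0 < η n) → (∀ n, 0 < a n) →
      ∃ (G' : ℕ → X →L[ℝ] ℝ) (h' y' : ℕ → X) (l : ℕ → ℝ), Sel F c 1 η a G' h' y' l) :
    Fails X := by
  have hc1 : c ≤ 1 := by
    obtain ⟨G, h, y, l, hs⟩ := hall (fun _ => 1) (fun _ => 1) (fun _ => one_pos) (fun _ => one_pos)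
    have h1 := hs.base.Gh 0
    have h2 := (apply_le_norm (hs.base.Gn 0) (h 0)).trans (hs.base.hn 0)
    linarith
  set c' := c / 4 with hc'
  have hc'0 : 0 < c' := by positivity
  set ζ := c' / 65536 with hζ
  have hζ0 : 0 < ζ := by positivity
  set ε := c' / 409600 with hε
  have hε0 : 0 < ε := by positivity
  obtain ⟨a, ha, hpath⟩ := exists_path (X := X) hζ0 (by rw [hζ, hc']; linarith)
  obtain ⟨G, h, y, l, hs⟩ := hall (fun n => (1 / 2) ^ n) a (fun n => by positivity) ha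
  obtain ⟨P, u, μ, hp⟩ := hpath y hs.near
  -- functionals attached to subspaces
  have hΨ : ∀ (V : Submodule ℝ X) (x : X), ∃ (Φ : X →L[ℝ] ℝ) (r : X), FiniteDimensional ℝ V →
      (‖Φ‖ ≤ 1 ∧ (∀ e ∈ V, Φ e = 0) ∧ Φ r = ‖r‖ ∧ r - x ∈ V) := by
    intro V x
    by_cases hV : FiniteDimensional ℝ V
    · obtain ⟨v, hv, hmin⟩ := exists_min V x
      obtain ⟨Φ, h1, h2, h3⟩ := exists_functional V (x + v) (by
        intro e he
        rw [add_assoc]
        exact hmin _ (V.add_mem hv he))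
      exact ⟨Φ, x + v, fun _ => ⟨h1, h2, h3, by simpa using hv⟩⟩
    · exact ⟨0, 0, fun hV' => absurd hV' hV⟩
  choose Ψ R hΨ' using hΨ
  -- the subspaces
  set V : ℕ → (ℕ → X) → Submodule ℝ X := fun j b => Submodule.span ℝ
    ((fun i => vv P u b i - vv P u b 0) '' (Finset.range (j + 1) : Set ℕ)) with hV
  have hVcongr : ∀ (j : ℕ) (b b' : ℕ → X), (∀ i ≤ j, b i = b' i) → V j b = V j b' := by
    intro j b b' hbb
    simp only [hV]
    congr 1
    refine Set.image_congr fun i hi => ?_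
    have hi' : i ≤ j := by
      have : i ∈ Finset.range (j + 1) := hi
      rw [Finset.mem_range] at this
      omega
    unfold vv
    rw [hbb i hi', hbb 0 (Nat.zero_le j)]
  have hvcongr : ∀ (b b' : ℕ → X), b 0 = b' 0 → vv P u b 0 = vv P u b' 0 := by
    intro b b' hbb
    unfold vv
    rw [hbb]
  obtain ⟨s, hs2⟩ := exists_seq (α := (X →L[ℝ] ℝ) × X) (fun n b x =>
      ‖x.1‖ ≤ 1 ∧ ‖x.2‖ ≤ 1 ∧ F x.2 = 0 ∧ c / 4 ≤ x.1 x.2 ∧
      (∀ m, |x.1 (y m) - 1| ≤ ε * (1 / 4) ^ n) ∧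
      (∀ j, j < n → F (b j).2 = 0 → |x.1 (b j).2| ≤ ε * (1 / 4) ^ n) ∧
      (∀ j, j < n → |(b j).1 x.2| ≤ ε * (1 / 4) ^ n) ∧
      (∀ j, j < n → |Ψ (V j (fun i => (b i).2)) (vv P u (fun i => (b i).2) 0) x.2| ≤
        ε * (1 / 4) ^ n)) ((0 : X →L[ℝ] ℝ), (0 : X)) (by
    intro n b
    obtain ⟨G', h', h1, h2, h3, h4, h5, h6, h7⟩ := dir hs
      (S := {x | F x = 0} ∩ ((fun j => (b j).2) '' Set.Iio n))
      (((Set.finite_Iio n).image _).inter_of_right _) (fun x hx => hx.1)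
      (T := ((fun j => (b j).1) '' Set.Iio n) ∪
        ((fun j => Ψ (V j (fun i => (b i).2)) (vv P u (fun i => (b i).2) 0)) '' Set.Iio n))
      (((Set.finite_Iio n).image _).union ((Set.finite_Iio n).image _))
      (η := ε * (1 / 4) ^ n) (by positivity)
    exact ⟨(G', h'), h1, h2, h3, h4, h5, fun j hj hF => h6 _ ⟨hF, j, hj, rfl⟩,
      fun j hj => h7 _ (Or.inl ⟨j, hj, rfl⟩), fun j hj => h7 _ (Or.inr ⟨j, hj, rfl⟩)⟩)
    (by
      rintro n b b' x hb ⟨h1, h2, h3, h4, h5, h6, h7, h8⟩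
      refine ⟨h1, h2, h3, h4, h5, ?_, ?_, ?_⟩
      · intro j hj; rw [← hb j hj]; exact h6 j hj
      · intro j hj; rw [← hb j hj]; exact h7 j hj
      · intro j hj
        rw [← hVcongr j (fun i => (b i).2) (fun i => (b' i).2)
          (fun i hi => by rw [hb i (by omega)]),
          ← hvcongr (fun i => (b i).2) (fun i => (b' i).2) (by rw [hb 0 (by omega)])]
        exact h8 j hj)
  set H : ℕ → X := fun n => (s n).2 with hH
  set Φ : ℕ → X →L[ℝ] ℝ := fun n => Ψ (V n H) (vv P u H 0) with hΦ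
  set r : ℕ → X := fun n => R (V n H) (vv P u H 0) with hr
  have hfin : ∀ n, FiniteDimensional ℝ (V n H) := fun n =>
    FiniteDimensional.span_of_finite ℝ ((Finset.range (n + 1)).finite_toSet.image _)
  have hspec : ∀ n, ‖Φ n‖ ≤ 1 ∧ (∀ e ∈ V n H, Φ n e = 0) ∧ Φ n (r n) = ‖r n‖ ∧
      r n - vv P u H 0 ∈ V n H := fun n => hΨ' (V n H) (vv P u H 0) (hfin n)
  have heng : Eng c' ε ζ P u μ (fun n => (s n).1) Φ H r := by
    refine ⟨hc'0, hε0, hζ0, by rw [hc']; linarith, le_rfl, le_rfl, hp.step, hp.μ0, hp.μ4, hp.u0,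
      hp.prop, hp.room, hp.room', fun n => (hs2 n).1, fun n => (hs2 n).2.1,
      fun n => (hs2 n).2.2.2.1, ?_, ?_, ?_, ?_, fun n => (hspec n).1, ?_, fun n => (hspec n).2.2.2⟩
    · intro n j hj
      exact (hs2 n).2.2.2.2.2.1 j hj (hs2 j).2.2.1
    · intro n j hj
      exact (hs2 n).2.2.2.2.2.2.1 j hj
    · intro n j hj
      exact (hs2 n).2.2.2.2.2.2.2 j hj
    · intro n j
      exact hp.conv _ _ (hs2 n).2.2.2.2.1 (j / 1024) ((j % 1024 : ℕ) : ℝ) (by positivity)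
        (Eng.mod_le j)
    · intro n j hj
      have h1 := (hspec n).2.1
      have h2 := (hspec n).2.2.1
      have h3 := h1 _ (hspec n).2.2.2
      have h4 : vv P u H j - vv P u H 0 ∈ V n H :=
        Submodule.subset_span ⟨j, by
          have : j ∈ Finset.range (n + 1) := Finset.mem_range.2 (by omega)
          exact this, rfl⟩
      have h5 := h1 _ h4
      rw [map_sub] at h3 h5
      linarith
  exact heng.fails hX

end Pool.Agent.Helper983.WC
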