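import Pool.Agent.Helper983.WC.Basic

namespace Pool.Agent.Helper983.WC

open Filter Topology

variable {X : Type*} [NormedAddCommGroup X] [NormedSpace ℝ X]

/-- Some realization of the algorithm with parameter one does not converge. -/
def Fails (X : Type*) [NormedAddCommGroup X] [NormedSpace ℝ X] : Prop :=
  ∃ (D : Set X) (f : X) (r : ℕ → X) (F : ℕ → X →L[ℝ] ℝ) (φ : ℕ → X),
    IsDictionary D ∧ IsRun 1 D f r F φ ∧ ¬ Tendsto (fun m => ‖r m‖) atTop (𝓝 0)

theorem IsRun.weaken {t : ℝ} (ht : t ≤ 1) {D : Set X} {f : X} {r : ℕ → X}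
    {F : ℕ → X →L[ℝ] ℝ} {φ : ℕ → X} (h : IsRun 1 D f r F φ) : IsRun t D f r F φ := by
  refine ⟨h.start, h.stop, h.norming, h.mem, ?_, h.cheb⟩
  intro m hm g hg
  refine le_trans ?_ (h.greedy m hm g hg)
  exact mul_le_mul_of_nonneg_right ht (abs_nonneg _)

theorem dict_of_gap {F : ℕ → X →L[ℝ] ℝ} {φ : ℕ → X}
    (hφ : ∀ n, ‖φ n‖ = 1) (hF : ∀ n, ‖F n‖ ≤ 1)
    {u : X} (hu : ‖u‖ = 1) {β : ℝ} (hβ : 0 < β) (hgap : ∀ n, |F n u| + β ≤ |F n (φ n)|) :
    IsDictionary {g : X | ‖g‖ = 1 ∧ ∀ n, |F n g| ≤ |F n (φ n)|} := by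
  have hFφ : ∀ n, |F n (φ n)| ≤ 1 := fun n => by
    have := abs_le_norm (hF n) (φ n)
    rwa [hφ] at this
  refine ⟨fun g hg => hg.1, ?_⟩
  have huD : u ∈ {g : X | ‖g‖ = 1 ∧ ∀ n, |F n g| ≤ |F n (φ n)|} :=
    ⟨hu, fun n => by linarith [hgap n]⟩
  have hall : ∀ x : X, x ∈ Submodule.span ℝ {g : X | ‖g‖ = 1 ∧ ∀ n, |F n g| ≤ |F n (φ n)|} := by
    intro x
    set η : ℝ := min (β / 2) (1 / 2) / (‖x‖ + 1) with hη
    have hx1 : 0 < ‖x‖ + 1 := by positivity
    have hm : 0 < min (β / 2) (1 / 2) := by positivity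
    have hη0 : 0 < η := by positivity
    have hηx : η * ‖x‖ ≤ min (β / 2) (1 / 2) := by
      rw [hη, div_mul_eq_mul_div, div_le_iff₀ hx1]
      nlinarith [norm_nonneg x]
    have hηβ : η * ‖x‖ ≤ β / 2 := hηx.trans (min_le_left _ _)
    have hηh : η * ‖x‖ ≤ 1 / 2 := hηx.trans (min_le_right _ _)
    have hnx : ‖η • x‖ = η * ‖x‖ := by rw [norm_smul, Real.norm_of_nonneg hη0.le]
    have hlow : 1 - η * ‖x‖ ≤ ‖u + η • x‖ := by
      have := norm_sub_norm_le u (-(η • x))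
      rw [norm_neg, sub_neg_eq_add, hu, hnx] at this
      exact this
    have hpos : 0 < ‖u + η • x‖ := by linarith
    set g : X := ‖u + η • x‖⁻¹ • (u + η • x) with hg
    have hgD : g ∈ {g : X | ‖g‖ = 1 ∧ ∀ n, |F n g| ≤ |F n (φ n)|} := by
      refine ⟨?_, fun n => ?_⟩
      · rw [hg, norm_smul, norm_inv, norm_norm, inv_mul_cancel₀ hpos.ne']
      · rw [hg, map_smul, smul_eq_mul, abs_mul, abs_inv, abs_of_pos hpos, inv_mul_le_iff₀ hpos]
        have h1 : |F n (u + η • x)| ≤ |F n u| + η * ‖x‖ := by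
          rw [map_add]
          refine (abs_add_le _ _).trans ?_
          have := abs_le_norm (hF n) (η • x)
          rw [hnx] at this
          linarith
        have h2 := hgap n
        have h3 := hFφ n
        have h4 : 0 ≤ |F n (φ n)| := abs_nonneg _
        nlinarith
    have hx : x = η⁻¹ • (‖u + η • x‖ • g - u) := by
      rw [hg, smul_smul, mul_inv_cancel₀ hpos.ne', one_smul, add_sub_cancel_left, smul_smul,
        inv_mul_cancel₀ hη0.ne', one_smul]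
    rw [hx]
    exact Submodule.smul_mem _ _ (Submodule.sub_mem _
      (Submodule.smul_mem _ _ (Submodule.subset_span hgD)) (Submodule.subset_span huD))
  have : (Submodule.span ℝ {g : X | ‖g‖ = 1 ∧ ∀ n, |F n g| ≤ |F n (φ n)|} : Set X)
      = Set.univ := Set.eq_univ_of_forall hall
  rw [this]
  exact dense_univ

theorem crit1 {f : X} {r : ℕ → X} {F : ℕ → X →L[ℝ] ℝ} {φ : ℕ → X}
    (hφ : ∀ n, ‖φ n‖ = 1) (hF : ∀ n, ‖F n‖ ≤ 1)
    (hkill : ∀ n i, i < n → F n (φ i) = 0)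
    (hr : ∀ n, F n (r n) = ‖r n‖) (hmem : ∀ n, f - r n ∈ Submodule.span ℝ (φ '' Set.Iio n))
    (hr1 : ∀ n, 1 ≤ ‖r n‖)
    (hmax : ∀ n i, |F n (φ i)| ≤ |F n (φ n)|)
    {u : X} (hu : ‖u‖ = 1) {β : ℝ} (hβ : 0 < β) (hgap : ∀ n, |F n u| + β ≤ |F n (φ n)|) :
    Fails X := by
  have hrne : ∀ n, r n ≠ 0 := by
    intro n h
    have := hr1 n
    rw [h, norm_zero] at this
    linarith
  have hkills : ∀ n, ∀ e ∈ Submodule.span ℝ (φ '' Set.Iio n), F n e = 0 := by
    intro n e he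
    have : Submodule.span ℝ (φ '' Set.Iio n) ≤ LinearMap.ker (F n : X →ₗ[ℝ] ℝ) := by
      rw [Submodule.span_le]
      rintro _ ⟨i, hi, rfl⟩
      exact hkill n i hi
    exact this he
  refine ⟨{g | ‖g‖ = 1 ∧ ∀ n, |F n g| ≤ |F n (φ n)|}, f, r, F, φ,
    dict_of_gap hφ hF hu hβ hgap, ?_, ?_⟩
  · refine ⟨?_, fun m hm => absurd hm (hrne m), ?_, ?_, ?_, ?_⟩
    · have h0 := hmem 0
      have : Set.Iio (0 : ℕ) = ∅ := by ext x; simp
      rw [this, Set.image_empty, Submodule.span_empty, Submodule.mem_bot, sub_eq_zero] at h0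
      exact h0.symm
    · intro m hm
      exact isNorming_of_le hm (hF m) (hr m)
    · intro m hm
      refine ⟨hφ m, fun n => hmax n m⟩
    · intro m hm g hg
      rw [one_mul]
      exact hg.2 m
    · intro m hm
      refine ⟨f - r (m + 1), ⟨?_, ?_⟩, by abel⟩
      · have := hmem (m + 1)
        have e : Set.Iio (m + 1) = Set.Iic m := by ext x; simp
        rwa [e] at this
      · intro G' hG'
        have e : Set.Iio (m + 1) = Set.Iic m := by ext x; simp
        have h1 := hkills (m + 1) (f - r (m + 1) - G') (by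
          rw [e]
          refine Submodule.sub_mem _ ?_ hG'
          have := hmem (m + 1)
          rwa [e] at this)
        have h2 := apply_le_norm (hF (m + 1)) (f - G')
        have h3 : F (m + 1) (f - G') = ‖r (m + 1)‖ := by
          rw [← hr (m + 1)]
          have : f - G' = r (m + 1) + (f - r (m + 1) - G') := by abel
          rw [this, map_add, h1, add_zero]
        rw [h3] at h2
        rw [sub_sub_cancel]
        exact h2
  · intro hcon
    have : (1 : ℝ) ≤ 0 := ge_of_tendsto' hcon hr1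
    linarith

theorem fails_of_not_smooth (h : ¬ Smooth X) : Fails X := by
  unfold Smooth at h
  push Not at h
  obtain ⟨x, hx, P, Q, hP, hQ, hne⟩ := h
  have hx0 : 0 < ‖x‖ := norm_pos_iff.2 hx
  have aux : ∀ P Q : X →L[ℝ] ℝ, IsNorming P x → IsNorming Q x → P ≠ Q →
      ∃ y, P y = 0 ∧ Q y ≠ 0 := by
    intro P Q hP hQ hne
    by_contra hcon
    push Not at hcon
    apply hne
    ext y
    have h1 := hcon (y - (P y / ‖x‖) • x) (by
      rw [map_sub, map_smul, hP.2, smul_eq_mul, div_mul_cancel₀ _ hx0.ne', sub_self])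
    rw [map_sub, map_smul, hQ.2, smul_eq_mul, div_mul_cancel₀ _ hx0.ne', sub_eq_zero] at h1
    exact h1.symm
  obtain ⟨y, hPy, hQy⟩ := aux P Q hP hQ hne
  obtain ⟨k, hQk, hPk⟩ := aux Q P hQ hP (Ne.symm hne)
  have hy : y ≠ 0 := fun h => hQy (by rw [h, map_zero])
  have hk : k ≠ 0 := fun h => hPk (by rw [h, map_zero])
  have hy0 : 0 < ‖y‖ := norm_pos_iff.2 hy
  have hk0 : 0 < ‖k‖ := norm_pos_iff.2 hk
  set φ : X := ‖y‖⁻¹ • y with hφ
  have hφn : ‖φ‖ = 1 := by rw [hφ, norm_smul, norm_inv, norm_norm, inv_mul_cancel₀ hy0.ne']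
  have hPφ : P φ = 0 := by rw [hφ, map_smul, hPy, smul_zero]
  have hQφ : Q φ ≠ 0 := by
    rw [hφ, map_smul, smul_eq_mul]
    exact mul_ne_zero (inv_ne_zero hy0.ne') hQy
  have hdict := dict_of_gap (F := fun _ => Q) (φ := fun _ => φ) (fun _ => hφn)
    (fun _ => hQ.1.le) (u := ‖k‖⁻¹ • k) (by
      rw [norm_smul, norm_inv, norm_norm, inv_mul_cancel₀ hk0.ne'])
    (β := |Q φ|) (abs_pos.2 hQφ) (fun _ => by
      rw [map_smul, hQk, smul_zero, abs_zero, zero_add])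
  refine ⟨_, x, fun _ => x, fun _ => Q, fun _ => φ, hdict, ?_, ?_⟩
  · refine ⟨rfl, fun m hm => absurd hm hx, fun m hm => hQ, fun m hm => ⟨hφn, fun _ => le_rfl⟩,
      ?_, ?_⟩
    · intro m hm g hg
      rw [one_mul]
      exact hg.2 0
    · intro m hm
      refine ⟨0, ⟨Submodule.zero_mem _, ?_⟩, by rw [sub_zero]⟩
      intro G' hG'
      have h1 : P G' = 0 := by
        have : Submodule.span ℝ ((fun _ : ℕ => φ) '' Set.Iic m) ≤
            LinearMap.ker (P : X →ₗ[ℝ] ℝ) := by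
          rw [Submodule.span_le]
          rintro _ ⟨i, hi, rfl⟩
          exact hPφ
        exact this hG'
      have h2 := apply_le_norm hP.1.le (x - G')
      rw [map_sub, h1, sub_zero, hP.2] at h2
      rw [sub_zero]
      exact h2
  · intro hcon
    have h1 : ‖x‖ = 0 := tendsto_nhds_unique tendsto_const_nhds hcon
    exact hx0.ne' h1

theorem exists_u (hX : Smooth X) {φ0 φ1 : X} (h0 : ‖φ0‖ = 1) (h1 : ‖φ1‖ = 1) :
    ∃ s : ℝ, (s = 1 ∨ s = -1) ∧ 1 < ‖φ0 + s • φ1‖ := by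
  by_contra hcon
  push Not at hcon
  have hp := hcon 1 (Or.inl rfl)
  have hm := hcon (-1) (Or.inr rfl)
  rw [one_smul] at hp
  rw [neg_one_smul] at hm
  obtain ⟨H0, hH0, hH0'⟩ := exists_dual_vector'' ℝ φ0
  obtain ⟨H1, hH1, hH1'⟩ := exists_dual_vector'' ℝ φ1
  have e0 : H0 φ0 = 1 := by rw [← h0]; simpa using hH0'
  have e1 : H1 φ1 = 1 := by rw [← h1]; simpa using hH1'
  have a1 := apply_le_norm hH0 (φ0 + φ1)
  have a2 := apply_le_norm hH0 (φ0 + -φ1)
  rw [map_add] at a1 a2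
  rw [map_neg] at a2
  have b1 := apply_le_norm hH1 (φ0 + φ1)
  have b2 := apply_le_norm hH1 (-(φ0 + -φ1))
  rw [map_neg, map_add, map_neg, norm_neg] at b2
  rw [map_add] at b1
  have c0 : H0 φ1 = 0 := by linarith
  have c1 : H1 φ0 = 0 := by linarith
  have hn : ‖φ0 + φ1‖ = 1 := by linarith
  have hne : φ0 + φ1 ≠ 0 := by
    intro h; rw [h, norm_zero] at hn; linarith
  have := hX _ hne H0 H1 (isNorming_of_le hne hH0 (by rw [map_add, hn]; linarith))
    (isNorming_of_le hne hH1 (by rw [map_add, hn]; linarith))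
  rw [this, c1] at e0
  exact zero_ne_one e0

theorem crit2 (hX : Smooth X) {f : X} {r : ℕ → X} {F : ℕ → X →L[ℝ] ℝ} {g : ℕ → X} {M : ℝ}
    (hg : ∀ n, ‖g n‖ ≤ M) (hF : ∀ n, ‖F n‖ ≤ 1)
    (hkill : ∀ n i, i < n → F n (g i) = 0)
    (hr : ∀ n, F n (r n) = ‖r n‖) (hmem : ∀ n, f - r n ∈ Submodule.span ℝ (g '' Set.Iio n))
    (hr1 : ∀ n, 1 ≤ ‖r n‖) {β : ℝ} (hβ : 0 < β) (hlow : ∀ n, β ≤ |F n (g n)|)
    (hmax : ∀ n i, n < i → (1 - (1 / 2 : ℝ) ^ (n + 2)) * |F n (g i)| ≤ |F n (g n)|) :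
    Fails X := by
  have hgne : ∀ n, F n (g n) ≠ 0 := fun n h => by
    have := hlow n
    rw [h, abs_zero] at this
    linarith
  have hM : 0 < M := by
    have h1 := hlow 0
    have h2 := abs_le_norm (hF 0) (g 0)
    linarith [hg 0]
  set b : ℝ := F 0 (g 1) / F 0 (g 0) with hb
  set g1 : X := g 1 - b • g 0 with hg1
  have hF0g1 : F 0 g1 = 0 := by
    rw [hg1, map_sub, map_smul, smul_eq_mul, hb, div_mul_cancel₀ _ (hgne 0), sub_self]
  have hF1g1 : F 1 g1 = F 1 (g 1) := by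
    rw [hg1, map_sub, map_smul, hkill 1 0 one_pos, smul_zero, sub_zero]
  have hg0ne : g 0 ≠ 0 := fun h => hgne 0 (by rw [h, map_zero])
  have hg1ne : g1 ≠ 0 := fun h => hgne 1 (by rw [← hF1g1, h, map_zero])
  have ha0 : 0 < ‖g 0‖ := norm_pos_iff.2 hg0ne
  have ha1 : 0 < ‖g1‖ := norm_pos_iff.2 hg1ne
  set φ0 : X := ‖g 0‖⁻¹ • g 0 with hφ0
  set φ1 : X := ‖g1‖⁻¹ • g1 with hφ1
  have hn0 : ‖φ0‖ = 1 := by rw [hφ0, norm_smul, norm_inv, norm_norm, inv_mul_cancel₀ ha0.ne']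
  have hn1 : ‖φ1‖ = 1 := by rw [hφ1, norm_smul, norm_inv, norm_norm, inv_mul_cancel₀ ha1.ne']
  have hF0φ1 : F 0 φ1 = 0 := by rw [hφ1, map_smul, hF0g1, smul_zero]
  have hF0φ0 : F 0 φ0 ≠ 0 := by
    rw [hφ0, map_smul, smul_eq_mul]
    exact mul_ne_zero (inv_ne_zero ha0.ne') (hgne 0)
  have hFφ0 : ∀ n, 1 ≤ n → F n φ0 = 0 := by
    intro n hn
    rw [hφ0, map_smul, hkill n 0 hn, smul_zero]
  have hF1φ1 : F 1 φ1 ≠ 0 := by
    rw [hφ1, map_smul, smul_eq_mul, hF1g1]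
    exact mul_ne_zero (inv_ne_zero ha1.ne') (hgne 1)
  have hFφ1 : ∀ n, 2 ≤ n → F n φ1 = 0 := by
    intro n hn
    rw [hφ1, map_smul, hg1, map_sub, map_smul, hkill n 0 (by omega), hkill n 1 (by omega)]
    simp
  clear_value φ0 φ1 b g1
  obtain ⟨s, hs, hv⟩ := exists_u hX hn0 hn1
  set v : X := φ0 + s • φ1 with hvdef
  have hv0 : 0 < ‖v‖ := lt_trans one_pos hv
  set u : X := ‖v‖⁻¹ • v with hu
  have hun : ‖u‖ = 1 := by rw [hu, norm_smul, norm_inv, norm_norm, inv_mul_cancel₀ hv0.ne']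
  have hs1 : |s| = 1 := by rcases hs with rfl | rfl <;> simp
  have hinv : ‖v‖⁻¹ < 1 := inv_lt_one_of_one_lt₀ hv
  have hF0u : |F 0 u| < |F 0 φ0| := by
    have : F 0 u = ‖v‖⁻¹ * F 0 φ0 := by
      rw [hu, hvdef, map_smul, map_add, map_smul, hF0φ1]; simp
    rw [this, abs_mul, abs_inv, abs_norm]
    have := abs_pos.2 hF0φ0
    nlinarith
  have hF1u : |F 1 u| < |F 1 φ1| := by
    have : F 1 u = ‖v‖⁻¹ * (s * F 1 φ1) := by
      rw [hu, hvdef, map_smul, map_add, map_smul, hFφ0 1 le_rfl]; simp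
    rw [this, abs_mul, abs_mul, abs_inv, abs_norm, hs1, one_mul]
    have := abs_pos.2 hF1φ1
    nlinarith
  have hFu : ∀ n, 2 ≤ n → F n u = 0 := by
    intro n hn
    rw [hu, hvdef, map_smul, map_add, map_smul, hFφ0 n (by omega), hFφ1 n hn]
    simp
  have huv : u = ‖v‖⁻¹ • (φ0 + s • φ1) := hu
  clear_value u
  clear_value v
  obtain ⟨w, hw0, hwM, hwa, hwb⟩ : ∃ w : ℝ, 0 < w ∧ w * M ≤ 1 / 2 ∧
      (1 + w * M) * |F 0 u| + w * M ≤ |F 0 φ0| ∧ (1 + w * M) * |F 1 u| + w * M ≤ |F 1 φ1| := by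
    set ρ := min (1 / 4) (min ((|F 0 φ0| - |F 0 u|) / 2) ((|F 1 φ1| - |F 1 u|) / 2)) with hρ
    have hρ0 : 0 < ρ := by
      refine lt_min (by norm_num) (lt_min ?_ ?_)
      · linarith
      · linarith
    have hF0u1 : |F 0 u| ≤ 1 := by have := abs_le_norm (hF 0) u; rwa [hun] at this
    have hF1u1 : |F 1 u| ≤ 1 := by have := abs_le_norm (hF 1) u; rwa [hun] at this
    have e1 : ρ ≤ 1 / 4 := min_le_left _ _
    have e2 : ρ ≤ (|F 0 φ0| - |F 0 u|) / 2 := (min_le_right _ _).trans (min_le_left _ _)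
    have e3 : ρ ≤ (|F 1 φ1| - |F 1 u|) / 2 := (min_le_right _ _).trans (min_le_right _ _)
    refine ⟨ρ / M, by positivity, ?_, ?_, ?_⟩
    · rw [div_mul_cancel₀ _ hM.ne']; linarith
    · rw [div_mul_cancel₀ _ hM.ne']
      nlinarith [abs_nonneg (F 0 u)]
    · rw [div_mul_cancel₀ _ hM.ne']
      nlinarith [abs_nonneg (F 1 u)]
  set wt : ℕ → ℝ := fun n => w * ((1 + (1 / 2 : ℝ) ^ n) / 2) with hwt
  have hwt0 : ∀ n, w / 2 ≤ wt n := by
    intro n
    have : (0 : ℝ) < (1 / 2) ^ n := by positivity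
    simp only [hwt]
    nlinarith
  have hwt1 : ∀ n, wt n ≤ w := by
    intro n
    have : (1 / 2 : ℝ) ^ n ≤ 1 := pow_le_one₀ (by norm_num) (by norm_num)
    simp only [hwt]
    nlinarith
  have hwtp : ∀ n, 0 < wt n := fun n => lt_of_lt_of_le (by positivity) (hwt0 n)
  have hwtdec : ∀ n i, n < i → wt i ≤ (1 - (1 / 2 : ℝ) ^ (n + 2)) * wt n := by
    intro n i hni
    have h1 : (1 / 2 : ℝ) ^ i ≤ (1 / 2) ^ (n + 1) :=
      pow_le_pow_of_le_one (by norm_num) (by norm_num) hni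
    have h2 : (1 / 2 : ℝ) ^ (n + 1) = (1 / 2) ^ n * (1 / 2) := pow_succ _ _
    have h3 : (1 / 2 : ℝ) ^ (n + 2) = (1 / 2) ^ n * (1 / 4) := by rw [pow_add]; norm_num
    have h4 : (0 : ℝ) < (1 / 2) ^ n := by positivity
    have h5 : (1 / 2 : ℝ) ^ n ≤ 1 := pow_le_one₀ (by norm_num) (by norm_num)
    simp only [hwt]
    rw [h3]
    rw [h2] at h1
    have h6 : (1 + (1 / 2 : ℝ) ^ i) / 2 ≤ (1 - (1 / 2) ^ n * (1 / 4)) * ((1 + (1 / 2) ^ n) / 2) := by
      nlinarith
    calc w * ((1 + (1 / 2 : ℝ) ^ i) / 2)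
        ≤ w * ((1 - (1 / 2) ^ n * (1 / 4)) * ((1 + (1 / 2) ^ n) / 2)) := by gcongr
      _ = _ := by ring
  clear_value wt
  have hwg : ∀ n, ‖wt n • g n‖ ≤ w * M := by
    intro n
    rw [norm_smul, Real.norm_of_nonneg (hwtp n).le]
    exact mul_le_mul (hwt1 n) (hg n) (norm_nonneg _) hw0.le
  -- choice of alpha
  have hα : ∀ n, ∃ a : ℝ, 0 ≤ a ∧ a ≤ 1 + w * M ∧ ‖a • u + wt n • g n‖ = 1 := by
    intro n
    have hc : ContinuousOn (fun a : ℝ => ‖a • u + wt n • g n‖) (Set.Icc 0 2) := by fun_prop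
    have hiv := intermediate_value_Icc (show (0 : ℝ) ≤ 2 by norm_num) hc
    have h1 : (1 : ℝ) ∈ Set.Icc (‖(0 : ℝ) • u + wt n • g n‖) (‖(2 : ℝ) • u + wt n • g n‖) := by
      constructor
      · rw [zero_smul, zero_add]
        linarith [hwg n]
      · have := norm_sub_norm_le ((2 : ℝ) • u) (-(wt n • g n))
        rw [norm_neg, sub_neg_eq_add, norm_smul, hun] at this
        have h2 := hwg n
        norm_num at this
        linarith
    obtain ⟨a, ⟨ha0, ha2⟩, ha⟩ := hiv h1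
    refine ⟨a, ha0, ?_, ha⟩
    have h3 : ‖a • u‖ ≤ ‖a • u + wt n • g n‖ + ‖wt n • g n‖ := by
      have := norm_sub_le (a • u + wt n • g n) (wt n • g n)
      rwa [add_sub_cancel_right] at this
    rw [norm_smul, hun, mul_one, Real.norm_of_nonneg ha0] at h3
    simp only at ha
    rw [ha] at h3
    linarith [hwg n]
  choose α hα0 hα1 hα2 using hα
  set φ : ℕ → X := fun n => if n = 0 then φ0 else if n = 1 then φ1 else α n • u + wt n • g n
    with hφ
  have hφz : φ 0 = φ0 := by simp [hφ]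
  have hφo : φ 1 = φ1 := by simp [hφ]
  have hφn : ∀ n, 2 ≤ n → φ n = α n • u + wt n • g n := by
    intro n hn
    have h1 : n ≠ 0 := by omega
    have h2 : n ≠ 1 := by omega
    simp [hφ, h1, h2]
  have cases3 : ∀ n : ℕ, n = 0 ∨ n = 1 ∨ 2 ≤ n := by intro n; omega
  have hφunit : ∀ n, ‖φ n‖ = 1 := by
    intro n
    rcases cases3 n with rfl | rfl | h
    · rw [hφz, hn0]
    · rw [hφo, hn1]
    · rw [hφn n h, hα2]
  have hφkill : ∀ n i, i < n → F n (φ i) = 0 := by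
    intro n i hi
    rcases cases3 i with rfl | rfl | h
    · rw [hφz]; exact hFφ0 n hi
    · rw [hφo]; exact hFφ1 n hi
    · rw [hφn i h, map_add, map_smul, map_smul, hFu n (by omega), hkill n i hi]
      simp
  have hbig : ∀ n i, 2 ≤ i → |F n (φ i)| ≤ (1 + w * M) * |F n u| + w * M := by
    intro n i hi
    rw [hφn i hi, map_add, map_smul, smul_eq_mul]
    refine (abs_add_le _ _).trans ?_
    rw [abs_mul, abs_of_nonneg (hα0 i)]
    have h1 := (abs_le_norm (hF n) (wt i • g i)).trans (hwg i)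
    have h2 : α i * |F n u| ≤ (1 + w * M) * |F n u| := by
      have := hα1 i
      gcongr
    linarith
  have hφmax : ∀ n i, |F n (φ i)| ≤ |F n (φ n)| := by
    intro n i
    rcases lt_trichotomy i n with h | h | h
    · rw [hφkill n i h, abs_zero]; positivity
    · rw [h]
    · rcases cases3 n with rfl | rfl | h2
      · rcases cases3 i with rfl | rfl | h3
        · exact le_rfl
        · rw [hφo, hF0φ1, abs_zero]; positivity
        · rw [hφz]
          exact (hbig 0 i h3).trans hwa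
      · rw [hφo]
        exact (hbig 1 i h).trans hwb
      · rw [hφn n h2, hφn i (by omega), map_add, map_smul, map_smul, map_add, map_smul, map_smul,
          hFu n h2, smul_zero, smul_zero, zero_add, zero_add, smul_eq_mul, smul_eq_mul, abs_mul,
          abs_mul, abs_of_pos (hwtp i), abs_of_pos (hwtp n)]
        have e1 := hmax n i h
        have e2 := hwtdec n i h
        have e3 : 0 ≤ |F n (g i)| := abs_nonneg _
        have e4 := hwtp n
        calc wt i * |F n (g i)| ≤ ((1 - (1 / 2 : ℝ) ^ (n + 2)) * wt n) * |F n (g i)| := by gcongr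
          _ = wt n * ((1 - (1 / 2 : ℝ) ^ (n + 2)) * |F n (g i)|) := by ring
          _ ≤ wt n * |F n (g n)| := by gcongr
  -- spans
  have hsp : ∀ i, g i ∈ Submodule.span ℝ (φ '' Set.Iio (i + 1)) := by
    have hm : ∀ i n, i < n → φ i ∈ Submodule.span ℝ (φ '' Set.Iio n) := fun i n h =>
      Submodule.subset_span ⟨i, h, rfl⟩
    have hg0 : g 0 = ‖g 0‖ • φ 0 := by
      rw [hφz, hφ0, smul_smul, mul_inv_cancel₀ ha0.ne', one_smul]
    have hg1' : g 1 = ‖g1‖ • φ 1 + b • g 0 := by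
      rw [hφo, hφ1, smul_smul, mul_inv_cancel₀ ha1.ne', one_smul, hg1, sub_add_cancel]
    intro i
    rcases cases3 i with rfl | rfl | h
    · rw [hg0]
      exact Submodule.smul_mem _ _ (hm 0 _ (by omega))
    · rw [hg1', hg0]
      exact Submodule.add_mem _ (Submodule.smul_mem _ _ (hm 1 _ (by omega)))
        (Submodule.smul_mem _ _ (Submodule.smul_mem _ _ (hm 0 _ (by omega))))
    · have hgi : g i = (wt i)⁻¹ • (φ i - α i • u) := by
        rw [hφn i h, add_sub_cancel_left, smul_smul, inv_mul_cancel₀ (hwtp i).ne', one_smul]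
      have huu : u = ‖v‖⁻¹ • (φ 0 + s • φ 1) := by rw [hφz, hφo]; exact huv
      rw [hgi, huu]
      exact Submodule.smul_mem _ _ (Submodule.sub_mem _ (hm i _ (by omega))
        (Submodule.smul_mem _ _ (Submodule.smul_mem _ _ (Submodule.add_mem _ (hm 0 _ (by omega))
          (Submodule.smul_mem _ _ (hm 1 _ (by omega)))))))
  have hmem' : ∀ n, f - r n ∈ Submodule.span ℝ (φ '' Set.Iio n) := by
    intro n
    have hle : Submodule.span ℝ (g '' Set.Iio n) ≤ Submodule.span ℝ (φ '' Set.Iio n) := by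
      rw [Submodule.span_le]
      rintro _ ⟨i, hi, rfl⟩
      exact Submodule.span_mono (Set.image_mono (Set.Iio_subset_Iio hi)) (hsp i)
    exact hle (hmem n)
  -- the gap
  set β' := min (|F 0 φ0| - |F 0 u|) (min (|F 1 φ1| - |F 1 u|) (w / 2 * β)) with hβ'
  have hβ'0 : 0 < β' := by
    refine lt_min (by linarith) (lt_min (by linarith) (by positivity))
  refine crit1 hφunit hF hφkill hr hmem' hr1 hφmax hun hβ'0 ?_
  intro n
  rcases cases3 n with rfl | rfl | h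
  · have := min_le_left (|F 0 φ0| - |F 0 u|) (min (|F 1 φ1| - |F 1 u|) (w / 2 * β))
    rw [hφz]
    linarith
  · have := (min_le_right (|F 0 φ0| - |F 0 u|) (min (|F 1 φ1| - |F 1 u|) (w / 2 * β))).trans
      (min_le_left _ _)
    rw [hφo]
    linarith
  · have h1 := (min_le_right (|F 0 φ0| - |F 0 u|) (min (|F 1 φ1| - |F 1 u|) (w / 2 * β))).trans
      (min_le_right _ _)
    rw [hFu n h, abs_zero, zero_add, hφn n h, map_add, map_smul, map_smul, hFu n h, smul_zero,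
      zero_add, smul_eq_mul, abs_mul, abs_of_pos (hwtp n)]
    have h2 : w / 2 * β ≤ wt n * |F n (g n)| :=
      mul_le_mul (hwt0 n) (hlow n) hβ.le (hwtp n).le
    linarith

end Pool.Agent.Helper983.WC
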