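import Pool.Agent.Helper983.WC.Sel
import Pool.Agent.Helper983.WC.Crit

namespace Pool.Agent.Helper983.WC

open Filter Topology

variable {X : Type*} [NormedAddCommGroup X] [NormedSpace ℝ X]

/-- Abstract data for the second case. -/
structure DataB (γ ε : ℝ) (G : ℕ → X →L[ℝ] ℝ) (y e : ℕ → X) : Prop where
  γpos : 0 < γ
  γle : γ ≤ 1
  εpos : 0 < ε
  εle : ε * (9 * γ + 128) ≤ γ ^ 2 / 4
  Gn : ∀ k, ‖G k‖ ≤ 1
  yn : ∀ n, ‖y n‖ ≤ 1 + γ / 16 * (1 / 2) ^ n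
  en : ∀ n, e n = y n - y (n + 1)
  diag : ∀ n, γ / 2 ≤ G n (e n)
  off : ∀ n m, m ≠ n → |G n (e m)| ≤ 2 * ε * (1 / 2) ^ m * (1 / 2) ^ n
  y0 : ∀ n, |G n (y 0) - 1| ≤ ε * (1 / 2) ^ n

theorem dataB_of_sel {F : X →L[ℝ] ℝ} {c L γ ε : ℝ} {G : ℕ → X →L[ℝ] ℝ} {h y : ℕ → X} {l : ℕ → ℝ}
    (hγ : 0 < γ) (hγ1 : γ ≤ 1) (hL : L ≤ 1 - γ) (hε : 0 < ε)
    (hε2 : ε * (9 * γ + 128) ≤ γ ^ 2 / 4)
    (hs : Sel F c L (fun n => ε * (1 / 4) ^ n) (fun n => γ / 16 * (1 / 2) ^ n) G h y l) :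
    DataB γ ε G y (fun n => y n - y (n + 1)) := by
  have hp4 : ∀ n : ℕ, (0 : ℝ) < (1 / 4) ^ n := fun n => by positivity
  have hp41 : ∀ n : ℕ, (1 / 4 : ℝ) ^ n ≤ 1 := fun n => pow_le_one₀ (by norm_num) (by norm_num)
  have hmono : ∀ n m : ℕ, n ≤ m → ε * (1 / 4 : ℝ) ^ m ≤ ε * (1 / 4) ^ n := by
    intro n m hnm
    have := pow_le_pow_of_le_one (show (0 : ℝ) ≤ 1 / 4 by norm_num) (by norm_num) hnm
    gcongr
  have hsplit : ∀ n m : ℕ, n ≤ m → (1 / 4 : ℝ) ^ m ≤ (1 / 2) ^ m * (1 / 2) ^ n := by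
    intro n m hnm
    have h1 : (1 / 4 : ℝ) ^ m = (1 / 2) ^ m * (1 / 2) ^ m := by
      rw [← mul_pow]; norm_num
    have h2 := pow_le_pow_of_le_one (show (0 : ℝ) ≤ 1 / 2 by norm_num) (by norm_num) hnm
    rw [h1]
    gcongr
  have hεγ : ε ≤ γ / 16 := by nlinarith
  refine ⟨hγ, hγ1, hε, hε2, hs.base.Gn, hs.near, fun n => rfl, ?_, ?_, ?_⟩
  · intro n
    have h1 := hs.past n n le_rfl
    have h2 := hs.fut n (n + 1) (Nat.lt_succ_self n)
    have h3 := hs.lL n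
    have h4 := hmono n (n + 1) (Nat.le_succ n)
    have h5 : ε * (1 / 4 : ℝ) ^ n ≤ ε * 1 := by
      have := hp41 n
      gcongr
    rw [abs_le] at h1 h2 h3
    rw [map_sub]
    linarith [h1.1, h2.2, h3.2]
  · intro n m hmn
    rcases lt_or_gt_of_ne hmn with h | h
    · have h1 := hs.past n m h.le
      have h2 := hs.past n (m + 1) h
      have h3 := hsplit m n h.le
      rw [abs_le] at h1 h2
      rw [map_sub, abs_le]
      have h4 : ε * (1 / 4 : ℝ) ^ n ≤ ε * ((1 / 2) ^ n * (1 / 2) ^ m) := by gcongr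
      constructor <;> nlinarith [h1.1, h1.2, h2.1, h2.2]
    · have h1 := hs.fut n m h
      have h2 := hs.fut n (m + 1) (by omega)
      have h3 := hsplit n m h.le
      have h5 := hmono m (m + 1) (Nat.le_succ m)
      rw [abs_le] at h1 h2
      rw [map_sub, abs_le]
      have h4 : ε * (1 / 4 : ℝ) ^ m ≤ ε * ((1 / 2) ^ m * (1 / 2) ^ n) := by gcongr
      constructor <;> nlinarith [h1.1, h1.2, h2.1, h2.2]
  · intro n
    have h1 := hs.past n 0 (Nat.zero_le _)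
    have h3 := hsplit 0 n (Nat.zero_le _)
    rw [pow_zero, mul_one] at h3
    refine h1.trans ?_
    gcongr

namespace DataB

variable {γ ε : ℝ} {G : ℕ → X →L[ℝ] ℝ} {y e : ℕ → X}

theorem y_le_two (hd : DataB γ ε G y e) (n : ℕ) : ‖y n‖ ≤ 2 := by
  have h1 := hd.yn n
  have h2 : (1 / 2 : ℝ) ^ n ≤ 1 := pow_le_one₀ (by norm_num) (by norm_num)
  have h3 : (0 : ℝ) < (1 / 2) ^ n := by positivity
  nlinarith [hd.γpos, hd.γle]

theorem e_le (hd : DataB γ ε G y e) (n : ℕ) : ‖e n‖ ≤ 4 := by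
  rw [hd.en]
  refine (norm_sub_le _ _).trans ?_
  linarith [hd.y_le_two n, hd.y_le_two (n + 1)]

theorem summable_e [CompleteSpace X] (hd : DataB γ ε G y e) :
    Summable (fun i => (1 / 2 : ℝ) ^ i • e i) := by
  refine Summable.of_norm_bounded (g := fun i => 4 * (1 / 2 : ℝ) ^ i)
    (summable_geometric_two.mul_left 4) ?_
  intro i
  rw [norm_smul, Real.norm_of_nonneg (by positivity)]
  have := hd.e_le i
  have h3 : (0 : ℝ) < (1 / 2) ^ i := by positivity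
  nlinarith

/-- value of `G j` on the tail sum -/
theorem G_tsum [CompleteSpace X] (hd : DataB γ ε G y e) (j : ℕ) :
    |G j (∑' i, (1 / 2 : ℝ) ^ i • e i) - (1 / 2) ^ j * G j (e j)| ≤ 4 * ε * (1 / 2) ^ j := by
  have hs := hd.summable_e
  rw [(G j).map_tsum hs]
  have hs' : Summable (fun i => G j ((1 / 2 : ℝ) ^ i • e i)) := (hs.hasSum.mapL (G j)).summable
  rw [hs'.tsum_eq_add_tsum_ite j, map_smul, smul_eq_mul, add_sub_cancel_left]
  have hsum : HasSum (fun i : ℕ => 2 * ε * (1 / 2 : ℝ) ^ j * (1 / 2) ^ i)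
      (2 * ε * (1 / 2 : ℝ) ^ j * 2) := hasSum_geometric_two.mul_left _
  have hb := tsum_of_norm_bounded (f := fun i => if i = j then (0 : ℝ) else
    G j ((1 / 2 : ℝ) ^ i • e i)) hsum ?_
  · rw [Real.norm_eq_abs] at hb
    linarith
  · intro i
    have hεp := hd.εpos
    split_ifs with hij
    · rw [norm_zero]; positivity
    · rw [map_smul, smul_eq_mul, Real.norm_eq_abs, abs_mul, abs_of_nonneg (by positivity)]
      have h1 := hd.off j i hij
      have h2 : (1 / 2 : ℝ) ^ i ≤ 1 := pow_le_one₀ (by norm_num) (by norm_num)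
      have h3 : (0 : ℝ) < (1 / 2) ^ i := by positivity
      have h4 : (0 : ℝ) < (1 / 2) ^ j := by positivity
      calc (1 / 2 : ℝ) ^ i * |G j (e i)| ≤ 1 * |G j (e i)| := by gcongr
        _ ≤ 2 * ε * (1 / 2) ^ i * (1 / 2) ^ j := by rw [one_mul]; exact h1
        _ = _ := by ring

/-- value of `G j` on finite combinations -/
theorem G_sum (hd : DataB γ ε G y e) (S : Finset ℕ) (cc : ℕ → ℝ) {B : ℝ}
    (hB : ∀ i ∈ S, |cc i| ≤ B) (hB0 : 0 ≤ B) (j : ℕ) (hj : j ∉ S) :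
    |G j (∑ i ∈ S, cc i • e i)| ≤ 4 * B * ε * (1 / 2) ^ j := by
  rw [map_sum]
  have hεp := hd.εpos
  have h1 : ∀ i ∈ S, |G j (cc i • e i)| ≤ B * (2 * ε) * (1 / 2) ^ j * (1 / 2) ^ i := by
    intro i hi
    have hij : i ≠ j := fun h => hj (h ▸ hi)
    rw [map_smul, smul_eq_mul, abs_mul]
    have h1 := hd.off j i hij
    calc |cc i| * |G j (e i)| ≤ B * (2 * ε * (1 / 2) ^ i * (1 / 2) ^ j) :=
          mul_le_mul (hB i hi) h1 (abs_nonneg _) hB0
      _ = _ := by ring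
  refine (Finset.abs_sum_le_sum_abs _ _).trans ((Finset.sum_le_sum h1).trans ?_)
  rw [← Finset.mul_sum]
  have h2 : ∑ i ∈ S, (1 / 2 : ℝ) ^ i ≤ 2 := by
    have := summable_geometric_two.sum_le_tsum S (fun i _ => by positivity)
    rwa [tsum_geometric_two] at this
  calc B * (2 * ε) * (1 / 2) ^ j * ∑ i ∈ S, (1 / 2 : ℝ) ^ i
      ≤ B * (2 * ε) * (1 / 2) ^ j * 2 := by gcongr
    _ = _ := by ring

theorem lower [CompleteSpace X] (hd : DataB γ ε G y e) (S : Finset ℕ) (cc : ℕ → ℝ) (j : ℕ)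
    (hj : j ∉ S) :
    1 + γ / 4 * (1 / 2) ^ j ≤ ‖y 0 + (∑' i, (1 / 2 : ℝ) ^ i • e i) + ∑ i ∈ S, cc i • e i‖ := by
  set w := y 0 + (∑' i, (1 / 2 : ℝ) ^ i • e i) + ∑ i ∈ S, cc i • e i with hw
  have hγ := hd.γpos
  have hγ1 := hd.γle
  have hε := hd.εpos
  have hε2 := hd.εle
  have hεγ : ε ≤ γ / 16 := by nlinarith
  have hpj : (0 : ℝ) < (1 / 2) ^ j := by positivity
  have hpj1 : (1 / 2 : ℝ) ^ j ≤ 1 := pow_le_one₀ (by norm_num) (by norm_num)
  by_cases hbig : 2 ≤ ‖w‖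
  · nlinarith
  push Not at hbig
  -- maximal coefficient
  obtain ⟨B, hB0, hB, hBle⟩ : ∃ B : ℝ, 0 ≤ B ∧ (∀ i ∈ S, |cc i| ≤ B) ∧ B * γ ≤ 32 + γ := by
    rcases S.eq_empty_or_nonempty with rfl | hne
    · exact ⟨0, le_rfl, by simp, by linarith⟩
    obtain ⟨m, hm, hmax⟩ := S.exists_max_image (fun i => |cc i|) hne
    refine ⟨|cc m|, abs_nonneg _, hmax, ?_⟩
    have hpm : (0 : ℝ) < (1 / 2) ^ m := by positivity
    have hpm1 : (1 / 2 : ℝ) ^ m ≤ 1 := pow_le_one₀ (by norm_num) (by norm_num)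
    have h1 := hd.G_tsum m
    have h2 := hd.G_sum (S.erase m) cc (B := |cc m|)
      (fun i hi => hmax i (Finset.mem_of_mem_erase hi)) (abs_nonneg _) m (Finset.notMem_erase _ _)
    have h3 : ∑ i ∈ S, cc i • e i = cc m • e m + ∑ i ∈ S.erase m, cc i • e i :=
      (Finset.add_sum_erase S (fun i => cc i • e i) hm).symm
    have h4 : G m w = G m (y 0) + G m (∑' i, (1 / 2 : ℝ) ^ i • e i) + (cc m * G m (e m) +
        G m (∑ i ∈ S.erase m, cc i • e i)) := by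
      rw [hw, h3, map_add, map_add, map_add, map_smul, smul_eq_mul]
    have h5 := abs_le_norm (hd.Gn m) w
    have h6 := (abs_le_norm (hd.Gn m) (y 0)).trans (hd.y_le_two 0)
    have h7 := (abs_le_norm (hd.Gn m) (e m)).trans (hd.e_le m)
    have h8 := hd.diag m
    have h9 : |cc m| * (γ / 2) ≤ |cc m * G m (e m)| := by
      rw [abs_mul, abs_of_nonneg (show 0 ≤ G m (e m) by linarith)]
      gcongr
    have h10 : |(1 / 2 : ℝ) ^ m * G m (e m)| ≤ 4 := by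
      rw [abs_mul, abs_of_pos hpm]
      nlinarith [abs_nonneg (G m (e m))]
    have h11 : 4 * ε * (1 / 2 : ℝ) ^ m ≤ γ / 4 := by nlinarith
    have h12 : 4 * |cc m| * ε * (1 / 2 : ℝ) ^ m ≤ |cc m| * (γ / 4) := by
      have : 4 * ε * (1 / 2 : ℝ) ^ m ≤ γ / 4 := h11
      nlinarith [abs_nonneg (cc m)]
    have h13 : |cc m * G m (e m)| ≤ 8 + γ / 4 + |cc m| * (γ / 4) := by
      have e1 : cc m * G m (e m) = G m w - G m (y 0) - (G m (∑' i, (1 / 2 : ℝ) ^ i • e i) -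
          (1 / 2) ^ m * G m (e m)) - (1 / 2) ^ m * G m (e m) - G m (∑ i ∈ S.erase m, cc i • e i) := by
        rw [h4]; ring
      rw [abs_le] at h1 h2 h5 h6 h10 ⊢
      constructor <;> linarith [h1.1, h1.2, h2.1, h2.2, h5.1, h5.2, h6.1, h6.2, h10.1, h10.2]
    nlinarith
  have h1 := hd.G_tsum j
  have h2 := hd.G_sum S cc hB hB0 j hj
  have h3 := hd.diag j
  have h4 := hd.y0 j
  have h5 : G j w = G j (y 0) + G j (∑' i, (1 / 2 : ℝ) ^ i • e i) +
      G j (∑ i ∈ S, cc i • e i) := by rw [hw, map_add, map_add]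
  have h6 := apply_le_norm (hd.Gn j) w
  rw [abs_le] at h1 h2 h4
  have h7 : (1 / 2 : ℝ) ^ j * (γ / 2) ≤ (1 / 2) ^ j * G j (e j) := by gcongr
  have h8 : 1 + (1 / 2 : ℝ) ^ j * (γ / 2 - ε - 4 * ε - 4 * B * ε) ≤ G j w := by
    rw [h5]
    nlinarith [h1.1, h2.1, h4.1]
  have h9 : γ / 4 ≤ γ / 2 - ε - 4 * ε - 4 * B * ε := by
    have e1 : (5 * ε + 4 * B * ε) * γ ≤ ε * (9 * γ + 128) := by
      have : 4 * ε * (B * γ) ≤ 4 * ε * (32 + γ) := by gcongr
      nlinarith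
    have e2 : (5 * ε + 4 * B * ε) * γ ≤ γ / 4 * γ := by nlinarith
    have e3 := le_of_mul_le_mul_right e2 hγ
    linarith
  nlinarith

theorem upper [CompleteSpace X] (hd : DataB γ ε G y e) (S : Finset ℕ) (j : ℕ)
    (hjS : ∀ i < j, i ∈ S) {Φ : X →L[ℝ] ℝ} (hΦ : ‖Φ‖ ≤ 1) (hkill : ∀ i ∈ S, Φ (e i) = 0)
    (hbig : 1 + γ / 4 * (1 / 2) ^ j ≤ Φ (y 0 + ∑' i, (1 / 2 : ℝ) ^ i • e i)) :
    ∃ i, γ / 16 < |Φ (e i)| := by
  by_contra hcon
  push Not at hcon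
  have hγ := hd.γpos
  have hs := hd.summable_e
  have hs' : Summable (fun i => Φ ((1 / 2 : ℝ) ^ i • e i)) := (hs.hasSum.mapL Φ).summable
  have h1 : Φ (y 0) = Φ (y j) := by
    have : ∀ m, m ≤ j → Φ (y 0) = Φ (y m) := by
      intro m
      induction m with
      | zero => intro _; rfl
      | succ m ih =>
        intro hm
        have h1 := ih (by omega)
        have h2 := hkill m (hjS m (by omega))
        rw [hd.en, map_sub, sub_eq_zero] at h2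
        rw [h1, h2]
    exact this j le_rfl
  have h2 : Φ (∑' i, (1 / 2 : ℝ) ^ i • e i) = ∑' i, Φ ((1 / 2 : ℝ) ^ (i + j) • e (i + j)) := by
    rw [Φ.map_tsum hs, ← hs'.sum_add_tsum_nat_add j]
    have : ∑ i ∈ Finset.range j, Φ ((1 / 2 : ℝ) ^ i • e i) = 0 := by
      refine Finset.sum_eq_zero ?_
      intro i hi
      rw [map_smul, hkill i (hjS i (Finset.mem_range.1 hi)), smul_zero]
    rw [this, zero_add]
  have hsum : HasSum (fun i : ℕ => γ / 16 * (1 / 2 : ℝ) ^ j * (1 / 2) ^ i)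
      (γ / 16 * (1 / 2 : ℝ) ^ j * 2) := hasSum_geometric_two.mul_left _
  have hb := tsum_of_norm_bounded (f := fun i => Φ ((1 / 2 : ℝ) ^ (i + j) • e (i + j))) hsum ?_
  · rw [← h2, Real.norm_eq_abs] at hb
    have h3 := (le_abs_self _).trans hb
    have h4 := (apply_le_norm hΦ (y j)).trans (hd.yn j)
    rw [map_add, h1] at hbig
    have hpj : (0 : ℝ) < (1 / 2) ^ j := by positivity
    nlinarith
  · intro i
    rw [map_smul, smul_eq_mul, Real.norm_eq_abs, abs_mul, abs_of_nonneg (by positivity), pow_add]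
    have := hcon (i + j)
    calc (1 / 2 : ℝ) ^ i * (1 / 2) ^ j * |Φ (e (i + j))|
        ≤ (1 / 2 : ℝ) ^ i * (1 / 2) ^ j * (γ / 16) := by gcongr
      _ = _ := by ring

theorem fails [CompleteSpace X] (hX : Smooth X) (hd : DataB γ ε G y e) : Fails X := by
  classical
  have hγ := hd.γpos
  obtain ⟨f, hf⟩ : ∃ f : X, f = y 0 + ∑' i, (1 / 2 : ℝ) ^ i • e i := ⟨_, rfl⟩
  have hSfun : ∀ S : Finset ℕ, ∃ (r : X) (Φ : X →L[ℝ] ℝ), ‖Φ‖ ≤ 1 ∧ (∀ i ∈ S, Φ (e i) = 0) ∧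
      Φ r = ‖r‖ ∧ f - r ∈ Submodule.span ℝ (e '' (S : Set ℕ)) ∧ Φ f = ‖r‖ ∧
      ∀ j, j ∉ S → 1 + γ / 4 * (1 / 2) ^ j ≤ ‖r‖ := by
    intro S
    have hfin : FiniteDimensional ℝ (Submodule.span ℝ (e '' (S : Set ℕ))) :=
      FiniteDimensional.span_of_finite ℝ (S.finite_toSet.image e)
    obtain ⟨v, hv, hmin⟩ := exists_min (Submodule.span ℝ (e '' (S : Set ℕ))) f
    obtain ⟨Φ, h1, h2, h3⟩ := exists_functional (Submodule.span ℝ (e '' (S : Set ℕ))) (f + v) (by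
      intro e' he'
      rw [add_assoc]
      exact hmin _ (Submodule.add_mem _ hv he'))
    refine ⟨f + v, Φ, h1, fun i hi => h2 _ (Submodule.subset_span ⟨i, hi, rfl⟩), h3, ?_, ?_, ?_⟩
    · rw [sub_add_cancel_left]; exact Submodule.neg_mem _ hv
    · rw [← h3, map_add, h2 v hv, add_zero]
    · intro j hj
      obtain ⟨cc, hcc⟩ := (Submodule.mem_span_image_finset_iff_exists_fun ℝ).1 hv
      have h4 := hd.lower S (fun i => if h : i ∈ S then cc ⟨i, h⟩ else 0) j hj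
      have h5 : ∑ i ∈ S, (if h : i ∈ S then cc ⟨i, h⟩ else 0) • e i = v := by
        rw [← hcc, ← Finset.sum_coe_sort S]
        refine Finset.sum_congr rfl fun i _ => ?_
        rw [dif_pos i.2]
      rw [h5, ← hf] at h4
      exact h4
  choose r Φ hΦ1 hΦk hΦr hmem hΦf hlow using hSfun
  have hpick : ∀ (n : ℕ) (S : Finset ℕ), ∃ i, γ / 32 ≤ |Φ S (e i)| ∧
      ∀ i', (1 - (1 / 2 : ℝ) ^ (n + 2)) * |Φ S (e i')| ≤ |Φ S (e i)| := by
    intro n S
    have hex : ∃ j, j ∉ S := Infinite.exists_notMem_finset S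
    obtain ⟨i0, hi0⟩ := hd.upper S (Nat.find hex)
      (fun i hi => by
        have := Nat.find_min hex hi
        push Not at this
        exact this) (hΦ1 S) (hΦk S) (by
        rw [← hf, hΦf]
        exact hlow S _ (Nat.find_spec hex))
    set T : Set ℝ := Set.range (fun i => |Φ S (e i)|) with hT
    have hTb : BddAbove T := ⟨4, by
      rintro _ ⟨i, rfl⟩
      exact (abs_le_norm (hΦ1 S) _).trans (hd.e_le i)⟩
    have hTne : T.Nonempty := ⟨_, 0, rfl⟩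
    have hσ : γ / 16 < sSup T := lt_of_lt_of_le hi0 (le_csSup hTb ⟨i0, rfl⟩)
    have hp : (0 : ℝ) < (1 / 2) ^ (n + 2) := by positivity
    have hp4 : (1 / 2 : ℝ) ^ (n + 2) ≤ 1 / 4 := by
      rw [pow_add]
      have : (1 / 2 : ℝ) ^ n ≤ 1 := pow_le_one₀ (by norm_num) (by norm_num)
      nlinarith
    have hlt : (1 - (1 / 2 : ℝ) ^ (n + 2)) * sSup T < sSup T := by nlinarith
    obtain ⟨_, ⟨i, rfl⟩, hi⟩ := exists_lt_of_lt_csSup hTne hlt
    simp only at hi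
    refine ⟨i, by nlinarith, fun i' => ?_⟩
    have h1 : |Φ S (e i')| ≤ sSup T := le_csSup hTb ⟨i', rfl⟩
    have h2 : 0 ≤ 1 - (1 / 2 : ℝ) ^ (n + 2) := by linarith
    calc (1 - (1 / 2 : ℝ) ^ (n + 2)) * |Φ S (e i')| ≤ (1 - (1 / 2 : ℝ) ^ (n + 2)) * sSup T := by
          gcongr
      _ ≤ _ := hi.le
  choose pick hpick1 hpick2 using hpick
  obtain ⟨S, hS0, hSs⟩ : ∃ S : ℕ → Finset ℕ, S 0 = ∅ ∧
      ∀ n, S (n + 1) = insert (pick n (S n)) (S n) :=
    ⟨fun n => Nat.rec ∅ (fun n T => insert (pick n T) T) n, rfl, fun n => rfl⟩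
  have hSimg : ∀ n, (S n : Set ℕ) = (fun m => pick m (S m)) '' Set.Iio n := by
    intro n
    induction n with
    | zero => rw [hS0]; ext x; simp
    | succ n ih =>
      rw [hSs, Finset.coe_insert, ih]
      ext x
      simp only [Set.mem_insert_iff, Set.mem_image, Set.mem_Iio]
      constructor
      · rintro (rfl | ⟨m, hm, rfl⟩)
        · exact ⟨n, Nat.lt_succ_self n, rfl⟩
        · exact ⟨m, hm.trans (Nat.lt_succ_self n), rfl⟩
      · rintro ⟨m, hm, rfl⟩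
        rcases Nat.lt_succ_iff_lt_or_eq.1 hm with h | h
        · exact Or.inr ⟨m, h, rfl⟩
        · left; rw [h]
  refine crit2 hX (f := f) (r := fun n => r (S n)) (F := fun n => Φ (S n))
    (g := fun n => e (pick n (S n))) (M := 4) (fun n => hd.e_le _) (fun n => hΦ1 _) ?_
    (fun n => hΦr _) ?_ ?_ (β := γ / 32) (by positivity) (fun n => hpick1 n _)
    (fun n i _ => hpick2 n _ _)
  · intro n i hi
    refine hΦk _ _ ?_
    have : pick i (S i) ∈ (S n : Set ℕ) := by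
      rw [hSimg]; exact ⟨i, hi, rfl⟩
    exact this
  · intro n
    have h1 := hmem (S n)
    rw [hSimg, Set.image_image] at h1
    exact h1
  · intro n
    obtain ⟨j, hj⟩ := Infinite.exists_notMem_finset (S n)
    have := hlow (S n) j hj
    have h3 : 0 ≤ γ / 4 * (1 / 2 : ℝ) ^ j := by positivity
    linarith

end DataB

end Pool.Agent.Helper983.WC
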