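import Pool.Agent.Helper983.WC.Basic

namespace Pool.Agent.Helper983.WC

open Filter Topology

variable {X : Type*} [NormedAddCommGroup X] [NormedSpace ℝ X]

omit [NormedSpace ℝ X] in
theorem ekeland [CompleteSpace X] (ψ : X → ℝ) (hc : Continuous ψ) (h0 : ∀ x, 0 ≤ ψ x)
    (x0 : X) {δ : ℝ} (hδ : 0 < δ) :
    ∃ x, δ * ‖x - x0‖ ≤ ψ x0 ∧ ∀ y, ψ x ≤ ψ y + δ * ‖y - x‖ := by
  have step : ∀ (n : ℕ) (x : X), ∃ z, ψ z + δ * ‖z - x‖ ≤ ψ x ∧
      ∀ y, ψ y + δ * ‖y - x‖ ≤ ψ x → ψ z ≤ ψ y + (1 / 2 : ℝ) ^ n := by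
    intro n x
    set S : Set ℝ := ψ '' {y | ψ y + δ * ‖y - x‖ ≤ ψ x} with hS
    have hne : S.Nonempty := ⟨ψ x, x, by simp, rfl⟩
    have hbdd : BddBelow S := ⟨0, by rintro _ ⟨y, -, rfl⟩; exact h0 y⟩
    obtain ⟨_, ⟨z, hz, rfl⟩, hz2⟩ := exists_lt_of_csInf_lt hne
      (show sInf S < sInf S + (1 / 2 : ℝ) ^ n by linarith [show (0 : ℝ) < (1 / 2) ^ n by positivity])
    refine ⟨z, hz, fun y hy => ?_⟩
    have := csInf_le hbdd ⟨y, hy, rfl⟩
    linarith
  choose T hT1 hT2 using step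
  let u : ℕ → X := fun n => Nat.rec x0 (fun n x => T n x) n
  have hu0 : u 0 = x0 := rfl
  have hus : ∀ n, u (n + 1) = T n (u n) := fun n => rfl
  have hmono : ∀ n m, n ≤ m → ψ (u m) + δ * ‖u m - u n‖ ≤ ψ (u n) := by
    intro n m hnm
    induction m, hnm using Nat.le_induction with
    | base => simp
    | succ m hnm ih =>
      have h1 := hT1 m (u m)
      rw [← hus] at h1
      have h2 : ‖u (m + 1) - u n‖ ≤ ‖u (m + 1) - u m‖ + ‖u m - u n‖ := norm_sub_le_norm_sub_add_norm_sub _ _ _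
      nlinarith
  have hanti : Antitone (fun n => ψ (u n)) := by
    refine antitone_nat_of_succ_le ?_
    intro n
    have := hmono n (n + 1) (Nat.le_succ n)
    have h3 : 0 ≤ δ * ‖u (n + 1) - u n‖ := by positivity
    linarith
  have hbdd : BddBelow (Set.range fun n => ψ (u n)) := ⟨0, by rintro _ ⟨n, rfl⟩; exact h0 _⟩
  have hlim := tendsto_atTop_ciInf hanti hbdd
  set α := ⨅ n, ψ (u n) with hα
  have hge : ∀ n, α ≤ ψ (u n) := fun n => ciInf_le hbdd n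
  have hcau : CauchySeq u := by
    rw [Metric.cauchySeq_iff']
    intro ε hε
    have h1 : ∀ᶠ n in atTop, ψ (u n) < α + δ * ε := hlim.eventually_lt_const (by
      have : 0 < δ * ε := by positivity
      linarith)
    obtain ⟨N, hN⟩ := h1.exists
    refine ⟨N, fun n hn => ?_⟩
    have h2 := hmono N n hn
    have h3 := hge n
    rw [dist_eq_norm]
    have h4 : δ * ‖u n - u N‖ < δ * ε := by linarith
    exact lt_of_mul_lt_mul_left h4 hδ.le
  obtain ⟨x, hx⟩ := cauchySeq_tendsto_of_complete hcau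
  have hψx : Tendsto (fun n => ψ (u n)) atTop (𝓝 (ψ x)) := (hc.tendsto x).comp hx
  have hS : ∀ n, ψ x + δ * ‖x - u n‖ ≤ ψ (u n) := by
    intro n
    have h1 : Tendsto (fun m => ψ (u m) + δ * ‖u m - u n‖) atTop (𝓝 (ψ x + δ * ‖x - u n‖)) :=
      hψx.add (((hx.sub_const _).norm).const_mul δ)
    refine le_of_tendsto h1 ?_
    filter_upwards [eventually_ge_atTop n] with m hm using hmono n m hm
  refine ⟨x, ?_, ?_⟩
  · have := hS 0
    rw [hu0] at this
    linarith [h0 x]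
  · intro y
    by_contra hcon
    push Not at hcon
    have hy : ∀ n, ψ (u (n + 1)) ≤ ψ y + (1 / 2 : ℝ) ^ n := by
      intro n
      rw [hus]
      refine hT2 n (u n) y ?_
      have h1 := hS n
      have h2 : ‖y - u n‖ ≤ ‖y - x‖ + ‖x - u n‖ := norm_sub_le_norm_sub_add_norm_sub _ _ _
      nlinarith
    have h1 : Tendsto (fun n : ℕ => ψ y + (1 / 2 : ℝ) ^ n) atTop (𝓝 (ψ y + 0)) :=
      (tendsto_pow_atTop_nhds_zero_of_lt_one (by norm_num) (by norm_num)).const_add _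
    have h2 : Tendsto (fun n => ψ (u (n + 1))) atTop (𝓝 (ψ x)) := hψx.comp (tendsto_add_atTop_nat 1)
    have h3 := le_of_tendsto_of_tendsto' h2 h1 hy
    have h4 : 0 ≤ δ * ‖y - x‖ := by positivity
    linarith

/-- Limit form of directional derivative estimates in a smooth space. -/
theorem dir_deriv (hX : Smooth X) {x : X} (hx : x ≠ 0) {F : X →L[ℝ] ℝ} (hF : IsNorming F x)
    (z : X) {A w B : ℝ} (hw : 0 ≤ w)
    (h : ∀ l : ℝ, 0 < l → l * A ≤ w * (‖x + l • z‖ - ‖x‖) + l * B) : A ≤ w * F z + B := by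
  have hex : ∀ n : ℕ, ∃ G : X →L[ℝ] ℝ, ‖G‖ ≤ 1 ∧
      G (x + (1 / ((n : ℝ) + 1)) • z) = ‖x + (1 / ((n : ℝ) + 1)) • z‖ := by
    intro n
    obtain ⟨G, h1, h2⟩ := exists_dual_vector'' ℝ (x + (1 / ((n : ℝ) + 1)) • z)
    exact ⟨G, h1, by simpa using h2⟩
  choose G hG1 hG2 using hex
  obtain ⟨G0, hG0, hlim⟩ := exists_ulim (hyperfilter ℕ) G hG1
  have hle : ((hyperfilter ℕ : Ultrafilter ℕ) : Filter ℕ) ≤ atTop := by
    rw [← Nat.cofinite_eq_atTop]; exact hyperfilter_le_cofinite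
  have ht : Tendsto (fun n : ℕ => (1 / ((n : ℝ) + 1))) (hyperfilter ℕ : Ultrafilter ℕ) (𝓝 0) :=
    tendsto_one_div_add_atTop_nhds_zero_nat.mono_left hle
  have hG0x : G0 x = ‖x‖ := by
    have h1 : Tendsto (fun n : ℕ => ‖x + (1 / ((n : ℝ) + 1)) • z‖)
        (hyperfilter ℕ : Ultrafilter ℕ) (𝓝 ‖x + (0 : ℝ) • z‖) :=
      ((ht.smul_const z).const_add x).norm
    rw [zero_smul, add_zero] at h1
    have h2 : Tendsto (fun n : ℕ => G n x + (1 / ((n : ℝ) + 1)) * G n z)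
        (hyperfilter ℕ : Ultrafilter ℕ) (𝓝 (G0 x + 0 * G0 z)) :=
      (hlim x).add (ht.mul (hlim z))
    rw [zero_mul, add_zero] at h2
    refine tendsto_nhds_unique h2 (h1.congr ?_)
    intro n
    rw [← hG2 n]
    simp
  have hG0F : G0 = F := hX x hx _ _ (isNorming_of_le hx hG0 hG0x) hF
  have hkey : ∀ n, A ≤ w * G n z + B := by
    intro n
    have hl : (0 : ℝ) < 1 / ((n : ℝ) + 1) := by positivity
    have h1 := h _ hl
    have h2 : ‖x + (1 / ((n : ℝ) + 1)) • z‖ - ‖x‖ ≤ (1 / ((n : ℝ) + 1)) * G n z := by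
      rw [← hG2 n]
      have := apply_le_norm (hG1 n) x
      simp only [map_add, map_smul, smul_eq_mul]
      linarith
    have h3 : (1 / ((n : ℝ) + 1)) * A ≤ (1 / ((n : ℝ) + 1)) * (w * G n z + B) := by
      calc (1 / ((n : ℝ) + 1)) * A ≤ w * (‖x + (1 / ((n : ℝ) + 1)) • z‖ - ‖x‖)
            + (1 / ((n : ℝ) + 1)) * B := h1
        _ ≤ w * ((1 / ((n : ℝ) + 1)) * G n z) + (1 / ((n : ℝ) + 1)) * B := by
            gcongr
        _ = _ := by ring
    exact le_of_mul_le_mul_left h3 hl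
  rw [← hG0F]
  refine ge_of_tendsto' (((hlim z).const_mul w).add_const B) hkey

end Pool.Agent.Helper983.WC
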