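import Pool.Agent.Helper983.WC.Path
import Pool.Agent.Helper983.WC.Crit

namespace Pool.Agent.Helper983.WC

open Filter Topology

variable {X : Type*} [NormedAddCommGroup X] [NormedSpace ℝ X]

/-- scales -/
noncomputable def sc (n : ℕ) : ℝ := (1 / 2) ^ (n / 1024)

/-- slow points -/
noncomputable def pp (P u : ℕ → X) (n : ℕ) : X :=
  P (n / 1024) - ((n % 1024 : ℕ) : ℝ) • u (n / 1024)

/-- perturbed slow points -/
noncomputable def vv (P u h : ℕ → X) (n : ℕ) : X := pp P u n + sc n • h n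

theorem sc_pos (n : ℕ) : 0 < sc n := by unfold sc; positivity

theorem sc_le_one (n : ℕ) : sc n ≤ 1 := pow_le_one₀ (by norm_num) (by norm_num)

theorem sc_anti {n m : ℕ} (h : n ≤ m) : sc m ≤ sc n :=
  pow_le_pow_of_le_one (by norm_num) (by norm_num) (Nat.div_le_div_right h)

theorem half_le_sc (n : ℕ) : (1 / 2 : ℝ) ^ n ≤ sc n :=
  pow_le_pow_of_le_one (by norm_num) (by norm_num) (Nat.div_le_self n 1024)

theorem quarter_le_sc {j n : ℕ} (h : j < n) : (1 / 4 : ℝ) ^ n ≤ sc j / 4 := by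
  have h1 : (1 / 4 : ℝ) ^ n ≤ (1 / 4) ^ (j + 1) :=
    pow_le_pow_of_le_one (by norm_num) (by norm_num) h
  have h2 : (1 / 4 : ℝ) ^ j ≤ (1 / 2) ^ j := by gcongr; norm_num
  have h3 := half_le_sc j
  rw [pow_succ] at h1
  linarith

theorem pp_succ {P u : ℕ → X} (hstep : ∀ q, P (q + 1) = P q - (1024 : ℝ) • u q) (n : ℕ) :
    pp P u (n + 1) = pp P u n - u (n / 1024) := by
  unfold pp
  by_cases h : n % 1024 = 1023
  · have h1 : (n + 1) / 1024 = n / 1024 + 1 := by omega
    have h2 : (n + 1) % 1024 = 0 := by omega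
    rw [h1, h2, h, hstep]
    push_cast
    module
  · have h1 : (n + 1) / 1024 = n / 1024 := by omega
    have h2 : (n + 1) % 1024 = n % 1024 + 1 := by omega
    rw [h1, h2]
    push_cast
    module

theorem pp_round {P u : ℕ → X} (hstep : ∀ q, P (q + 1) = P q - (1024 : ℝ) • u q) (n : ℕ) :
    pp P u ((n / 1024 + 1) * 1024) = pp P u n - ((1024 : ℝ) - ((n % 1024 : ℕ) : ℝ)) • u (n / 1024) := by
  unfold pp
  have h1 : (n / 1024 + 1) * 1024 / 1024 = n / 1024 + 1 := by omega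
  have h2 : (n / 1024 + 1) * 1024 % 1024 = 0 := by omega
  rw [h1, h2, hstep]
  push_cast
  module

theorem sum_inv_sc (n : ℕ) :
    ∑ i ∈ Finset.range (n + 1), (sc i)⁻¹ ≤ (1024 + ((n % 1024 : ℕ) : ℝ) + 1) * (sc n)⁻¹ := by
  induction n with
  | zero => simp [sc]
  | succ n ih =>
    rw [Finset.sum_range_succ]
    by_cases h : n % 1024 = 1023
    · have h1 : (n + 1) / 1024 = n / 1024 + 1 := by omega
      have h2 : (n + 1) % 1024 = 0 := by omega
      have h3 : (sc (n + 1))⁻¹ = 2 * (sc n)⁻¹ := by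
        unfold sc
        rw [h1, pow_succ]
        field_simp
      have h4 := inv_pos.2 (sc_pos n)
      rw [h2, h3]
      rw [h] at ih
      push_cast at ih ⊢
      linarith
    · have h1 : (n + 1) / 1024 = n / 1024 := by omega
      have h2 : (n + 1) % 1024 = n % 1024 + 1 := by omega
      have h3 : sc (n + 1) = sc n := by unfold sc; rw [h1]
      rw [h2, h3]
      push_cast
      linarith

theorem sum_inv_sc' (n : ℕ) :
    ∑ i ∈ Finset.range (n + 1), sc n / sc i ≤ 2048 := by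
  have h1 := sum_inv_sc n
  have h2 : ∑ i ∈ Finset.range (n + 1), sc n / sc i =
      sc n * ∑ i ∈ Finset.range (n + 1), (sc i)⁻¹ := by
    rw [Finset.mul_sum]
    rfl
  have h3 : ((n % 1024 : ℕ) : ℝ) ≤ 1023 := by
    have : n % 1024 ≤ 1023 := by omega
    exact_mod_cast this
  have h4 := sc_pos n
  rw [h2]
  calc sc n * ∑ i ∈ Finset.range (n + 1), (sc i)⁻¹
      ≤ sc n * ((1024 + ((n % 1024 : ℕ) : ℝ) + 1) * (sc n)⁻¹) := by gcongr
    _ = (1024 + ((n % 1024 : ℕ) : ℝ) + 1) * (sc n * (sc n)⁻¹) := by ring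
    _ = 1024 + ((n % 1024 : ℕ) : ℝ) + 1 := by rw [mul_inv_cancel₀ h4.ne', mul_one]
    _ ≤ 2048 := by linarith

theorem sum_eta_sc (n : ℕ) :
    ∑ i ∈ Finset.range (n + 1), (1 / 4 : ℝ) ^ i / sc i ≤ 2 := by
  have h1 : ∀ i ∈ Finset.range (n + 1), (1 / 4 : ℝ) ^ i / sc i ≤ (1 / 2) ^ i := by
    intro i _
    rw [div_le_iff₀ (sc_pos i)]
    have h2 : (1 / 4 : ℝ) ^ i = (1 / 2) ^ i * (1 / 2) ^ i := by rw [← mul_pow]; norm_num
    rw [h2]
    have := half_le_sc i
    gcongr
  refine (Finset.sum_le_sum h1).trans ?_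
  have := summable_geometric_two.sum_le_tsum (Finset.range (n + 1)) (fun i _ => by positivity)
  rwa [tsum_geometric_two] at this

/-- The data of the first case. -/
structure Eng (c ε ζ : ℝ) (P u : ℕ → X) (μ : ℕ → ℝ) (G Φ : ℕ → X →L[ℝ] ℝ) (h r : ℕ → X) :
    Prop where
  cpos : 0 < c
  εpos : 0 < ε
  ζpos : 0 < ζ
  cle : c ≤ 1
  εle : ε ≤ c / 409600
  ζle : ζ ≤ c / 65536
  step : ∀ q, P (q + 1) = P q - (1024 : ℝ) • u q
  μ0 : ∀ q, 0 ≤ μ q
  μ4 : ∀ q, μ q ≤ 4
  u0 : ‖u 0‖ ≤ ζ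
  prop : ∀ q, ‖u (q + 1) - μ q • u q‖ ≤ ζ * (1 / 2) ^ (q + 1)
  room : ∀ q (t s : ℝ), 0 ≤ t → t ≤ 1024 → |s| ≤ 64 →
    ‖P q - t • u q + s • u q‖ ≤ 1 + ζ * (1 / 2) ^ q
  room' : ∀ q (t s : ℝ), 0 ≤ t → t ≤ 1024 → |s| ≤ 64 →
    ‖P q - t • u q + s • u (q + 1)‖ ≤ 1 + ζ * (1 / 2) ^ q
  Gn : ∀ n, ‖G n‖ ≤ 1
  hn : ∀ n, ‖h n‖ ≤ 1
  Gh : ∀ n, c ≤ G n (h n)
  Gpast : ∀ n j, j < n → |G n (h j)| ≤ ε * (1 / 4) ^ n
  Gfut : ∀ n j, j < n → |G j (h n)| ≤ ε * (1 / 4) ^ n
  Φfut : ∀ n j, j < n → |Φ j (h n)| ≤ ε * (1 / 4) ^ n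
  Gp : ∀ n j, |G n (pp P u j) - 1| ≤ ε * (1 / 4) ^ n
  Φn : ∀ n, ‖Φ n‖ ≤ 1
  Φv : ∀ n j, j ≤ n → Φ n (vv P u h j) = ‖r n‖
  rmem : ∀ n, r n - vv P u h 0 ∈ Submodule.span ℝ
    ((fun i => vv P u h i - vv P u h 0) '' (Finset.range (n + 1) : Set ℕ))

/-- the correction terms -/
noncomputable def mm (P u h : ℕ → X) (μ : ℕ → ℝ) (q : ℕ) : X :=
  Nat.rec 0 (fun q _ => (μ q / 1024) • (vv P u h (q * 1024) - vv P u h ((q + 1) * 1024))) q

/-- the elements picked by the algorithm, up to normalization -/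
noncomputable def gg (P u h : ℕ → X) (μ : ℕ → ℝ) (n : ℕ) : X :=
  (sc n)⁻¹ • (vv P u h n - vv P u h (n + 1) - mm P u h μ (n / 1024))

theorem mm_zero (P u h : ℕ → X) (μ : ℕ → ℝ) : mm P u h μ 0 = 0 := rfl

theorem mm_succ (P u h : ℕ → X) (μ : ℕ → ℝ) (q : ℕ) : mm P u h μ (q + 1) =
    (μ q / 1024) • (vv P u h (q * 1024) - vv P u h ((q + 1) * 1024)) := rfl

theorem mm_mem (P u h : ℕ → X) (μ : ℕ → ℝ) (W : Submodule ℝ X) {i q : ℕ}
    (hW : ∀ j ≤ i, vv P u h j - vv P u h 0 ∈ W) (hq : q * 1024 ≤ i) : mm P u h μ q ∈ W := by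
  cases q with
  | zero => rw [mm_zero]; exact W.zero_mem
  | succ q =>
    rw [mm_succ]
    refine W.smul_mem _ ?_
    have hq' : q * 1024 ≤ i := le_trans (Nat.mul_le_mul_right 1024 (Nat.le_succ q)) hq
    have h1 := hW (q * 1024) hq'
    have h2 := hW ((q + 1) * 1024) hq
    have := W.sub_mem h1 h2
    rwa [sub_sub_sub_cancel_right] at this

theorem smul_gg (P u h : ℕ → X) (μ : ℕ → ℝ) (n : ℕ) :
    sc n • gg P u h μ n = vv P u h n - vv P u h (n + 1) - mm P u h μ (n / 1024) := by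
  unfold gg
  rw [smul_smul, mul_inv_cancel₀ (sc_pos n).ne', one_smul]

theorem vv_mem (P u h : ℕ → X) (μ : ℕ → ℝ) (n : ℕ) :
    ∀ j ≤ n, vv P u h j - vv P u h 0 ∈ Submodule.span ℝ (gg P u h μ '' Set.Iio n) := by
  induction n with
  | zero =>
    intro j hj
    have : j = 0 := by omega
    rw [this, sub_self]
    exact Submodule.zero_mem _
  | succ n ih =>
    have hmono : Submodule.span ℝ (gg P u h μ '' Set.Iio n) ≤
        Submodule.span ℝ (gg P u h μ '' Set.Iio (n + 1)) :=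
      Submodule.span_mono (Set.image_mono (Set.Iio_subset_Iio (Nat.le_succ n)))
    intro j hj
    rcases Nat.le_succ_iff.1 hj with h1 | h1
    · exact hmono (ih j h1)
    · rw [h1]
      have h2 := smul_gg P u h μ n
      have h3 : vv P u h (n + 1) - vv P u h 0 = (vv P u h n - vv P u h 0) -
          sc n • gg P u h μ n - mm P u h μ (n / 1024) := by
        rw [h2]; abel
      have h4 : gg P u h μ n ∈ Submodule.span ℝ (gg P u h μ '' Set.Iio (n + 1)) :=
        Submodule.subset_span ⟨n, Nat.lt_succ_self n, rfl⟩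
      have h5 : mm P u h μ (n / 1024) ∈ Submodule.span ℝ (gg P u h μ '' Set.Iio n) :=
        mm_mem P u h μ _ ih (by omega)
      have h6 := Submodule.sub_mem _ (Submodule.sub_mem _ (hmono (ih n le_rfl))
        (Submodule.smul_mem _ (sc n) h4)) (hmono h5)
      rw [Nat.succ_eq_add_one, h3]
      exact h6

namespace Eng

variable {c ε ζ : ℝ} {P u : ℕ → X} {μ : ℕ → ℝ} {G Φ : ℕ → X →L[ℝ] ℝ} {h r : ℕ → X}

theorem pp_le (he : Eng c ε ζ P u μ G Φ h r) (n : ℕ) : ‖pp P u n‖ ≤ 1 + ζ * sc n := by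
  have h1 := he.room (n / 1024) ((n % 1024 : ℕ) : ℝ) 0 (by positivity)
    (by have : n % 1024 ≤ 1024 := by omega
        exact_mod_cast this) (by norm_num)
  rw [zero_smul, add_zero] at h1
  exact h1

/-- lower bound for affine combinations -/
theorem lower (he : Eng c ε ζ P u μ G Φ h r) (n : ℕ) (l : ℕ → ℝ)
    (hl : ∑ i ∈ Finset.range (n + 1), l i = 1) :
    1 + c / 4096 * sc n ≤ ‖∑ i ∈ Finset.range (n + 1), l i • vv P u h i‖ := by
  by_contra hcon
  push Not at hcon
  set w := ∑ i ∈ Finset.range (n + 1), l i • vv P u h i with hw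
  have hc := he.cpos
  have hε := he.εpos
  have hεc : ε ≤ c / 64 := he.εle.trans (by linarith)
  set Λ := ∑ i ∈ Finset.range (n + 1), |l i| with hΛ
  have hΛ0 : 0 ≤ Λ := Finset.sum_nonneg fun i _ => abs_nonneg _
  have key : ∀ i ∈ Finset.range (n + 1), max (l i) 0 * (c * sc i) ≤
      c / 4096 * sc n + 2 * (ε * (1 / 4) ^ i) * Λ := by
    intro i hi
    have hrhs : 0 ≤ c / 4096 * sc n + 2 * (ε * (1 / 4) ^ i) * Λ := by
      have := sc_pos n
      positivity
    rcases le_or_gt (l i) 0 with hneg | hpos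
    · rw [max_eq_right hneg, zero_mul]; exact hrhs
    rw [max_eq_left hpos.le]
    have e1 : G i w - 1 - l i * (sc i * G i (h i)) = ∑ j ∈ Finset.range (n + 1),
        l j * (G i (pp P u j) - 1 + (if j = i then 0 else sc j * G i (h j))) := by
      have e2 : G i w = ∑ j ∈ Finset.range (n + 1), l j * (G i (pp P u j) + sc j * G i (h j)) := by
        rw [hw, map_sum]
        refine Finset.sum_congr rfl fun j _ => ?_
        rw [map_smul, smul_eq_mul]
        unfold vv
        rw [map_add, map_smul, smul_eq_mul]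
      have e3 : l i * (sc i * G i (h i)) = ∑ j ∈ Finset.range (n + 1),
          l j * (if j = i then sc j * G i (h j) else 0) := by
        rw [Finset.sum_eq_single i]
        · rw [if_pos rfl]
        · intro j _ hj; rw [if_neg hj, mul_zero]
        · intro h; exact absurd hi h
      rw [e2, e3]
      conv_lhs => rw [← hl]
      rw [← Finset.sum_sub_distrib, ← Finset.sum_sub_distrib]
      refine Finset.sum_congr rfl fun j _ => ?_
      split_ifs <;> ring
    have e4 : |G i w - 1 - l i * (sc i * G i (h i))| ≤ 2 * (ε * (1 / 4) ^ i) * Λ := by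
      rw [e1, hΛ, Finset.mul_sum]
      refine (Finset.abs_sum_le_sum_abs _ _).trans (Finset.sum_le_sum fun j _ => ?_)
      rw [abs_mul, mul_comm]
      refine mul_le_mul_of_nonneg_right ?_ (abs_nonneg _)
      refine (abs_add_le _ _).trans ?_
      have h1 := he.Gp i j
      have h2 : |if j = i then 0 else sc j * G i (h j)| ≤ ε * (1 / 4) ^ i := by
        split_ifs with hji
        · rw [abs_zero]; positivity
        · rw [abs_mul, abs_of_pos (sc_pos j)]
          have h3 : |G i (h j)| ≤ ε * (1 / 4) ^ i := by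
            rcases lt_or_gt_of_ne hji with h | h
            · exact he.Gpast i j h
            · refine (he.Gfut j i h).trans ?_
              have : (1 / 4 : ℝ) ^ j ≤ (1 / 4) ^ i :=
                pow_le_pow_of_le_one (by norm_num) (by norm_num) h.le
              gcongr
          have h4 := sc_le_one j
          have h5 := sc_pos j
          nlinarith [abs_nonneg (G i (h j))]
      linarith
    have e5 := apply_le_norm (he.Gn i) w
    have e6 : l i * (sc i * c) ≤ l i * (sc i * G i (h i)) := by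
      have h1 := he.Gh i
      have h2 := sc_pos i
      gcongr
    have e7 := (abs_le.1 e4).1
    nlinarith
  set A := ∑ i ∈ Finset.range (n + 1), max (l i) 0 with hA
  have hA1 : 1 ≤ A := by
    rw [← hl, hA]
    exact Finset.sum_le_sum fun i _ => le_max_left _ _
  have hΛA : Λ ≤ 2 * A := by
    have e1 : Λ = 2 * A - 1 := by
      rw [← hl, hA, hΛ, Finset.mul_sum, ← Finset.sum_sub_distrib]
      refine Finset.sum_congr rfl fun i _ => ?_
      rcases le_total (l i) 0 with h | h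
      · rw [max_eq_right h, abs_of_nonpos h]; ring
      · rw [max_eq_left h, abs_of_nonneg h]; ring
    linarith
  have hsum : A ≤ ∑ i ∈ Finset.range (n + 1), (1 / 4096 * (sc n / sc i) +
      2 * ε * Λ / c * ((1 / 4) ^ i / sc i)) := by
    rw [hA]
    refine Finset.sum_le_sum fun i hi => ?_
    have h1 := key i hi
    have h2 := sc_pos i
    have h3 : 1 / 4096 * (sc n / sc i) + 2 * ε * Λ / c * ((1 / 4) ^ i / sc i) =
        (c / 4096 * sc n + 2 * (ε * (1 / 4) ^ i) * Λ) / (c * sc i) := by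
      field_simp
    rw [h3, le_div_iff₀ (by positivity)]
    exact h1
  rw [Finset.sum_add_distrib, ← Finset.mul_sum, ← Finset.mul_sum] at hsum
  have h1 := sum_inv_sc' n
  have h2 := sum_eta_sc n
  have h3 : 2 * ε * Λ / c ≤ A / 16 := by
    rw [div_le_iff₀ hc]
    have : 2 * ε * Λ ≤ 2 * (c / 64) * (2 * A) := by gcongr
    nlinarith
  have h4 : 2 * ε * Λ / c * ∑ i ∈ Finset.range (n + 1), (1 / 4 : ℝ) ^ i / sc i ≤ A / 16 * 2 := by
    refine mul_le_mul h3 h2 ?_ (by positivity)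
    refine Finset.sum_nonneg fun i _ => ?_
    have := sc_pos i
    positivity
  nlinarith

theorem r_lower (he : Eng c ε ζ P u μ G Φ h r) (n : ℕ) : 1 + c / 4096 * sc n ≤ ‖r n‖ := by
  have h1 := he.rmem n
  obtain ⟨cc, hcc⟩ := (Submodule.mem_span_image_finset_iff_exists_fun ℝ).1 h1
  set dd : ℕ → ℝ := fun i => if h : i ∈ Finset.range (n + 1) then cc ⟨i, h⟩ else 0 with hdd
  have h2 : ∑ i ∈ Finset.range (n + 1), dd i • (vv P u h i - vv P u h 0) = r n - vv P u h 0 := by
    rw [← hcc, ← Finset.sum_coe_sort (Finset.range (n + 1))]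
    refine Finset.sum_congr rfl fun i _ => ?_
    rw [hdd]
    simp only
    rw [dif_pos i.2]
  set l : ℕ → ℝ := fun i => dd i + (if i = 0 then 1 - ∑ j ∈ Finset.range (n + 1), dd j else 0)
    with hl
  have h3 : ∑ i ∈ Finset.range (n + 1), l i = 1 := by
    rw [hl, Finset.sum_add_distrib, Finset.sum_ite_eq' (Finset.range (n + 1)) 0, if_pos (by simp)]
    ring
  have h4 : ∑ i ∈ Finset.range (n + 1), l i • vv P u h i = r n := by
    have e1 : ∑ i ∈ Finset.range (n + 1), l i • vv P u h i =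
        ∑ i ∈ Finset.range (n + 1), dd i • vv P u h i +
        (1 - ∑ j ∈ Finset.range (n + 1), dd j) • vv P u h 0 := by
      rw [hl]
      simp only [add_smul, ite_smul, zero_smul]
      rw [Finset.sum_add_distrib, Finset.sum_ite_eq' (Finset.range (n + 1)) 0, if_pos (by simp)]
    rw [e1]
    have e2 : r n = vv P u h 0 + ∑ i ∈ Finset.range (n + 1), dd i • (vv P u h i - vv P u h 0) := by
      rw [h2]; abel
    rw [e2]
    simp only [smul_sub, Finset.sum_sub_distrib]
    rw [← Finset.sum_smul, sub_smul, one_smul]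
    abel
  rw [← h4]
  exact he.lower n l h3

end Eng

end Pool.Agent.Helper983.WC
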