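import Pool.Agent.Helper983.WC.Ekeland

namespace Pool.Agent.Helper983.WC

open Filter Topology

variable {X : Type*} [NormedAddCommGroup X] [NormedSpace ℝ X]

/-- Ultrafilter cluster functionals of the sequence `g ∘ φ`. -/
def Cl (g : ℕ → X →L[ℝ] ℝ) (φ : ℕ → ℕ) : Set (X →L[ℝ] ℝ) :=
  {G | ∃ W : Ultrafilter ℕ, (W : Filter ℕ) ≤ atTop ∧
    ∀ x, Tendsto (fun n => g (φ n) x) W (𝓝 (G x))}

theorem hyper_le : ((hyperfilter ℕ : Ultrafilter ℕ) : Filter ℕ) ≤ atTop := by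
  rw [← Nat.cofinite_eq_atTop]; exact hyperfilter_le_cofinite

theorem Cl_nonempty {g : ℕ → X →L[ℝ] ℝ} (hg : ∀ n, ‖g n‖ ≤ 1) (φ : ℕ → ℕ) :
    (Cl g φ).Nonempty := by
  obtain ⟨G, -, hG⟩ := exists_ulim (hyperfilter ℕ) (fun n => g (φ n)) (fun n => hg _)
  exact ⟨G, hyperfilter ℕ, hyper_le, hG⟩

theorem Cl_norm {g : ℕ → X →L[ℝ] ℝ} (hg : ∀ n, ‖g n‖ ≤ 1) {φ : ℕ → ℕ} {G : X →L[ℝ] ℝ}
    (hG : G ∈ Cl g φ) : ‖G‖ ≤ 1 := by
  obtain ⟨W, hW, hlim⟩ := hG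
  refine G.opNorm_le_bound zero_le_one ?_
  intro x
  refine le_of_tendsto' (hlim x).norm ?_
  intro n
  exact (g (φ n)).le_of_opNorm_le (hg _) x

theorem Cl_comp {g : ℕ → X →L[ℝ] ℝ} {φ ψ : ℕ → ℕ} (hψ : Tendsto ψ atTop atTop) :
    Cl g (φ ∘ ψ) ⊆ Cl g φ := by
  rintro G ⟨W, hW, hlim⟩
  refine ⟨W.map ψ, ?_, ?_⟩
  · exact (hψ.mono_left hW)
  · intro x
    exact tendsto_map'_iff.2 (hlim x)

/-- Extreme values of the cluster functionals at `x` are reached along a subsequence. -/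
theorem exists_extreme {g : ℕ → X →L[ℝ] ℝ} (hg : ∀ n, ‖g n‖ ≤ 1) (φ : ℕ → ℕ) (x : X) :
    ∃ ψ : ℕ → ℕ, StrictMono ψ ∧
      (∀ G ∈ Cl g (φ ∘ ψ), ∀ G' ∈ Cl g φ, G' x ≤ G x) := by
  set S : Set ℝ := (fun G : X →L[ℝ] ℝ => G x) '' Cl g φ with hS
  have hne : S.Nonempty := (Cl_nonempty hg φ).image _
  have hbdd : BddAbove S := ⟨‖x‖, by
    rintro _ ⟨G, hG, rfl⟩
    exact apply_le_norm (Cl_norm hg hG) x⟩
  set a := sSup S with ha
  have hcl : MapClusterPt a atTop (fun n => g (φ n) x) := by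
    rw [mapClusterPt_iff_frequently]
    intro s hs
    obtain ⟨ε, hε, hball⟩ := Metric.mem_nhds_iff.1 hs
    obtain ⟨_, ⟨G, hG, rfl⟩, hlt⟩ := exists_lt_of_lt_csSup hne
      (show a - ε / 2 < sSup S by linarith)
    have hle : G x ≤ a := le_csSup hbdd ⟨G, hG, rfl⟩
    obtain ⟨W, hW, hlim⟩ := hG
    have h1 : ∀ᶠ n in (W : Filter ℕ), g (φ n) x ∈ Metric.ball (G x) (ε / 2) :=
      (hlim x) (Metric.ball_mem_nhds _ (by positivity))
    have h2 : ∃ᶠ n in (W : Filter ℕ), g (φ n) x ∈ s := by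
      refine (h1.mono ?_).frequently
      intro n hn
      apply hball
      rw [Metric.mem_ball, Real.dist_eq] at hn ⊢
      simp only at hlt
      rw [abs_lt] at hn ⊢
      constructor <;> linarith [hn.1, hn.2]
    exact h2.filter_mono hW
  obtain ⟨ψ, hψ, hlim⟩ := hcl.tendsto_subseq
  refine ⟨ψ, hψ, ?_⟩
  rintro G ⟨W, hW, hG⟩ G' hG'
  have h1 : G x = a := tendsto_nhds_unique (hG x) (hlim.mono_left hW)
  rw [h1]
  exact le_csSup hbdd ⟨G', hG', rfl⟩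

theorem hs_step [CompleteSpace X] (hX : Smooth X) {g : ℕ → X →L[ℝ] ℝ} (hg : ∀ n, ‖g n‖ ≤ 1)
    (φ : ℕ → ℕ) {ε : ℝ} (hε : 0 < ε) :
    ∃ ψ : ℕ → ℕ, StrictMono ψ ∧ ∀ G ∈ Cl g (φ ∘ ψ), ∀ G' ∈ Cl g (φ ∘ ψ), ‖G - G'‖ ≤ ε := by
  set C := Cl g φ with hC
  set T : Set ℝ := {r | ∃ G ∈ C, ∃ G' ∈ C, r = ‖G - G'‖} with hT
  have hTne : T.Nonempty := by
    obtain ⟨G, hG⟩ := Cl_nonempty hg φ
    exact ⟨_, G, hG, G, hG, rfl⟩
  have hTb : BddAbove T := ⟨2, by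
    rintro _ ⟨G, hG, G', hG', rfl⟩
    calc ‖G - G'‖ ≤ ‖G‖ + ‖G'‖ := norm_sub_le _ _
      _ ≤ 1 + 1 := add_le_add (Cl_norm hg hG) (Cl_norm hg hG')
      _ = 2 := by norm_num⟩
  set w := sSup T with hw
  have hwle : ∀ G ∈ C, ∀ G' ∈ C, ‖G - G'‖ ≤ w := fun G hG G' hG' =>
    le_csSup hTb ⟨G, hG, G', hG', rfl⟩
  by_cases hwε : w ≤ ε
  · exact ⟨id, strictMono_id, fun G hG G' hG' => (hwle G hG G' hG').trans hwε⟩
  push Not at hwε
  have hw0 : 0 < w := hε.trans hwε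
  -- the oscillation
  set O : X → Set ℝ := fun x => {r | ∃ G ∈ C, ∃ G' ∈ C, r = (G - G') x} with hO
  have hOne : ∀ x, (O x).Nonempty := by
    intro x
    obtain ⟨G, hG⟩ := Cl_nonempty hg φ
    exact ⟨_, G, hG, G, hG, rfl⟩
  have hOle : ∀ x, ∀ r ∈ O x, r ≤ w * ‖x‖ := by
    rintro x _ ⟨G, hG, G', hG', rfl⟩
    have := (G - G').le_of_opNorm_le (hwle G hG G' hG') x
    exact (le_abs_self _).trans this
  have hOb : ∀ x, BddAbove (O x) := fun x => ⟨w * ‖x‖, fun r hr => hOle x r hr⟩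
  set osc : X → ℝ := fun x => sSup (O x) with hosc
  have hosc_le : ∀ x, osc x ≤ w * ‖x‖ := fun x => csSup_le (hOne x) (hOle x)
  have hosc_ge : ∀ x, ∀ G ∈ C, ∀ G' ∈ C, (G - G') x ≤ osc x := fun x G hG G' hG' =>
    le_csSup (hOb x) ⟨G, hG, G', hG', rfl⟩
  have hosc_lip : ∀ x y, osc x ≤ osc y + w * ‖x - y‖ := by
    intro x y
    refine csSup_le (hOne x) ?_
    rintro _ ⟨G, hG, G', hG', rfl⟩
    have h1 := hosc_ge y G hG G' hG'
    have h2 := hOle (x - y) _ ⟨G, hG, G', hG', rfl⟩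
    rw [map_sub] at h2
    linarith
  have hosc_cont : Continuous osc := by
    have : LipschitzWith (Real.toNNReal w) osc := by
      refine LipschitzWith.of_le_add_mul _ ?_
      intro x y
      rw [Real.coe_toNNReal _ hw0.le, dist_eq_norm]
      exact hosc_lip x y
    exact this.continuous
  set ψ : X → ℝ := fun x => w * ‖x‖ - osc x with hψ
  have hψc : Continuous ψ := by fun_prop
  have hψ0 : ∀ x, 0 ≤ ψ x := fun x => by simp only [hψ]; linarith [hosc_le x]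
  -- starting point
  set δ := ε / 2 with hδ
  have hδ0 : 0 < δ := by positivity
  set τ := min (w / 4) (δ / 8) with hτ
  have hτ0 : 0 < τ := by positivity
  obtain ⟨_, ⟨G1, hG1, G2, hG2, rfl⟩, hlt⟩ := exists_lt_of_lt_csSup hTne
    (show w - τ < sSup T by linarith)
  obtain ⟨x0, hx0, hx0'⟩ := (G1 - G2).exists_lt_apply_of_lt_opNorm hlt
  have hx0s : ∃ x0 : X, ‖x0‖ ≤ 1 ∧ w - τ < (G1 - G2) x0 := by
    rw [Real.norm_eq_abs] at hx0'
    rcases lt_abs.1 hx0' with h | h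
    · exact ⟨x0, hx0.le, h⟩
    · exact ⟨-x0, by simpa using hx0.le, by rw [map_neg]; exact h⟩
  obtain ⟨x0, hx0, hx0'⟩ := hx0s
  have hψx0 : ψ x0 ≤ τ := by
    have h1 := hosc_ge x0 G1 hG1 G2 hG2
    have h2 : w * ‖x0‖ ≤ w * 1 := by gcongr
    simp only [hψ]
    linarith
  have hx0n : 3 / 4 ≤ ‖x0‖ := by
    have h1 := hOle x0 _ ⟨G1, hG1, G2, hG2, rfl⟩
    have h2 : τ ≤ w / 4 := min_le_left _ _
    have h3 : w * (3 / 4) ≤ w * ‖x0‖ := by linarith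
    exact le_of_mul_le_mul_left h3 hw0
  obtain ⟨x, hx1, hx2⟩ := ekeland ψ hψc hψ0 x0 hδ0
  have hxne : x ≠ 0 := by
    intro h
    rw [h, zero_sub, norm_neg] at hx1
    have h2 : τ ≤ δ / 8 := min_le_right _ _
    nlinarith
  obtain ⟨F, hF1, hF2⟩ := exists_dual_vector'' ℝ x
  have hF : IsNorming F x := isNorming_of_le hxne hF1 (by simpa using hF2)
  obtain ⟨ψ1, hψ1, hext1⟩ := exists_extreme hg φ x
  obtain ⟨ψ2, hψ2, hext2⟩ := exists_extreme (g := fun n => - g n) (by simpa using hg) φ x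
  obtain ⟨Gm, hGm⟩ := Cl_nonempty (g := fun n => - g n) (by simpa using hg) (φ ∘ ψ2)
  have hneg : ∀ G (ρ : ℕ → ℕ), G ∈ Cl (fun n => - g n) ρ → -G ∈ Cl g ρ := by
    rintro G ρ ⟨W, hW, hlim⟩
    refine ⟨W, hW, fun x => ?_⟩
    have := (hlim x).neg
    simpa using this
  have hneg' : ∀ G (ρ : ℕ → ℕ), G ∈ Cl g ρ → -G ∈ Cl (fun n => - g n) ρ := by
    rintro G ρ ⟨W, hW, hlim⟩
    refine ⟨W, hW, fun x => ?_⟩
    have := (hlim x).neg
    simpa using this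
  have hGmC : -Gm ∈ C := Cl_comp hψ2.tendsto_atTop (hneg _ _ hGm)
  refine ⟨ψ1, hψ1, ?_⟩
  -- every G in the subsequence cluster set is close to Gm-shifted F
  have key : ∀ G ∈ Cl g (φ ∘ ψ1), ∀ z, (G + Gm) z ≤ w * F z + δ * ‖z‖ := by
    intro G hG z
    have hGC : G ∈ C := Cl_comp hψ1.tendsto_atTop hG
    refine dir_deriv hX hxne hF z hw0.le ?_
    intro l hl
    have hoscx : osc x = (G + Gm) x := by
      refine le_antisymm (csSup_le (hOne x) ?_) ?_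
      · rintro _ ⟨H, hH, H', hH', rfl⟩
        have h1 := hext1 G hG H hH
        have h2 := hext2 Gm hGm (-H') (hneg' _ _ hH')
        simp only [sub_apply, add_apply,
          neg_apply] at h2 ⊢
        linarith
      · have := hosc_ge x G hGC (-Gm) hGmC
        simpa using this
    have h1 := hosc_ge (x + l • z) G hGC (-Gm) hGmC
    have h2 := hx2 (x + l • z)
    have h3 : ‖x + l • z - x‖ = l * ‖z‖ := by
      rw [add_sub_cancel_left, norm_smul, Real.norm_of_nonneg hl.le]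
    rw [h3] at h2
    simp only [hψ] at h2
    rw [hoscx] at h2
    have h4 : (G - -Gm) (x + l • z) = (G + Gm) x + l * (G + Gm) z := by
      rw [sub_neg_eq_add, map_add, map_smul, smul_eq_mul]
    rw [h4] at h1
    nlinarith
  intro G hG G' hG'
  refine (G - G').opNorm_le_bound hε.le ?_
  have hhalf : ∀ z, (G - G') z ≤ ε * ‖z‖ := by
    intro z
    have h1 := key G hG z
    have h2 := key G' hG' (-z)
    simp only [sub_apply, add_apply, map_neg,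
      norm_neg] at h1 h2 ⊢
    rw [hδ] at h1 h2
    linarith
  intro z
  rw [Real.norm_eq_abs, abs_le]
  have h1 := hhalf z
  have h2 := hhalf (-z)
  rw [map_neg, norm_neg] at h2
  constructor <;> linarith

/-- In a smooth Banach space bounded sequences of functionals have weak-star convergent
subsequences. -/
theorem hs [CompleteSpace X] (hX : Smooth X) {g : ℕ → X →L[ℝ] ℝ} (hg : ∀ n, ‖g n‖ ≤ 1) :
    ∃ (Φ : ℕ → ℕ) (G : X →L[ℝ] ℝ), Tendsto Φ atTop atTop ∧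
      ∀ x, Tendsto (fun n => g (Φ n) x) atTop (𝓝 (G x)) := by
  have hstep : ∀ (k : ℕ) (φ : ℕ → ℕ), ∃ ψ : ℕ → ℕ, StrictMono ψ ∧
      ∀ G ∈ Cl g (φ ∘ ψ), ∀ G' ∈ Cl g (φ ∘ ψ), ‖G - G'‖ ≤ 1 / ((k : ℝ) + 1) :=
    fun k φ => hs_step hX hg φ (by positivity)
  choose T hT1 hT2 using hstep
  obtain ⟨φs, hφ0, hφs⟩ : ∃ φs : ℕ → (ℕ → ℕ), φs 0 = id ∧
      ∀ k, φs (k + 1) = φs k ∘ T k (φs k) :=
    ⟨fun n => Nat.rec id (fun k φ => φ ∘ T k φ) n, rfl, fun k => rfl⟩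
  have hfac : ∀ k j, ∃ χ : ℕ → ℕ, StrictMono χ ∧ φs (k + j) = φs k ∘ χ := by
    intro k j
    induction j with
    | zero => exact ⟨id, strictMono_id, rfl⟩
    | succ j ih =>
      obtain ⟨χ, h1, h2⟩ := ih
      refine ⟨χ ∘ T (k + j) (φs (k + j)), h1.comp (hT1 _ _), ?_⟩
      rw [← add_assoc, hφs, ← Function.comp_assoc, ← h2]
  have htail : ∀ k n, ∃ m, n ≤ m ∧ (k ≤ n → φs n n = φs k m) := by
    intro k n
    by_cases hkn : k ≤ n
    · obtain ⟨χ, h1, h2⟩ := hfac k (n - k)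
      rw [Nat.add_sub_cancel' hkn] at h2
      exact ⟨χ n, h1.le_apply, fun _ => by rw [h2]; rfl⟩
    · exact ⟨n, le_rfl, fun h => absurd h hkn⟩
  choose m hm1 hm2 using htail
  have hΦ : Tendsto (fun n => φs n n) atTop atTop := by
    refine tendsto_atTop_mono (fun n => ?_) tendsto_id
    have := hm2 0 n (Nat.zero_le _)
    rw [this, hφ0]
    exact hm1 0 n
  have hmem : ∀ k, ∀ G ∈ Cl g (fun n => φs n n), G ∈ Cl g (φs k) := by
    rintro k G ⟨W, hW, hlim⟩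
    have hmt : Tendsto (m k) atTop atTop := tendsto_atTop_mono (hm1 k) tendsto_id
    refine ⟨W.map (m k), hmt.mono_left hW, fun x => ?_⟩
    refine tendsto_map'_iff.2 ?_
    refine (hlim x).congr' ?_
    filter_upwards [hW (Ici_mem_atTop k)] with n hn
    simp only [Function.comp]
    rw [hm2 k n hn]
  have huniq : ∀ G ∈ Cl g (fun n => φs n n), ∀ G' ∈ Cl g (fun n => φs n n), G = G' := by
    intro G hG G' hG'
    have h1 : ∀ k : ℕ, ‖G - G'‖ ≤ 1 / ((k : ℝ) + 1) := by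
      intro k
      have e1 := hmem (k + 1) G hG
      have e2 := hmem (k + 1) G' hG'
      rw [hφs] at e1 e2
      exact hT2 k (φs k) G e1 G' e2
    have h2 : ‖G - G'‖ ≤ 0 := ge_of_tendsto' tendsto_one_div_add_atTop_nhds_zero_nat h1
    exact sub_eq_zero.1 (norm_le_zero_iff.1 h2)
  obtain ⟨G, hG⟩ := Cl_nonempty hg (fun n => φs n n)
  refine ⟨fun n => φs n n, G, hΦ, fun x => ?_⟩
  rw [tendsto_iff_ultrafilter]
  intro W hW
  obtain ⟨G', -, hG'⟩ := exists_ulim W (fun n => g (φs n n)) (fun n => hg _)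
  have : G' = G := huniq G' ⟨W, hW, hG'⟩ G hG
  rw [← this]
  exact hG' x

end Pool.Agent.Helper983.WC
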