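import Pool.Agent.Helper983.WC.HS

namespace Pool.Agent.Helper983.WC

open Filter Topology

variable {X : Type*} [NormedAddCommGroup X] [NormedSpace ℝ X]

theorem Iio_succ' (m : ℕ) : Set.Iio (m + 1) = Set.Iic m := by
  ext x; simp [Nat.lt_succ_iff]

theorem suff [CompleteSpace X] (hX : Smooth X) (hK : DualKK X) {t : ℝ} (ht : 0 < t)
    {D : Set X} (hD : IsDictionary D) {f : X} {r : ℕ → X} {F : ℕ → X →L[ℝ] ℝ} {φ : ℕ → X}
    (h : IsRun t D f r F φ) : Tendsto (fun m => ‖r m‖) atTop (𝓝 0) := by
  by_cases hz : ∃ m, r m = 0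
  · obtain ⟨m, hm⟩ := hz
    have hall : ∀ n, m ≤ n → r n = 0 := by
      intro n hn
      induction n, hn using Nat.le_induction with
      | base => exact hm
      | succ n hn ih => exact h.stop n ih
    refine tendsto_const_nhds.congr' ?_
    filter_upwards [eventually_ge_atTop m] with n hn
    rw [hall n hn, norm_zero]
  push Not at hz
  -- basic facts
  have hmem : ∀ m, f - r m ∈ Submodule.span ℝ (φ '' Set.Iio m) := by
    intro m
    rcases m with _ | m
    · rw [h.start, sub_self]; exact Submodule.zero_mem _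
    · obtain ⟨G, hG, hr⟩ := h.cheb m (hz m)
      rw [hr, sub_sub_cancel, Iio_succ']
      exact hG.1
  have hmin : ∀ m, ∀ e ∈ Submodule.span ℝ (φ '' Set.Iio m), ‖r m‖ ≤ ‖r m + e‖ := by
    intro m
    rcases m with _ | m
    · intro e he
      have : Set.Iio (0 : ℕ) = ∅ := by ext x; simp
      rw [this, Set.image_empty, Submodule.span_empty, Submodule.mem_bot] at he
      rw [he, add_zero]
    · intro e he
      obtain ⟨G, hG, hr⟩ := h.cheb m (hz m)
      rw [Iio_succ'] at he
      have := hG.2 (G - e) (Submodule.sub_mem _ hG.1 he)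
      rw [hr]
      have e1 : f - G + e = f - (G - e) := by abel
      rw [e1]
      exact this
  have hkill : ∀ m, ∀ e ∈ Submodule.span ℝ (φ '' Set.Iio m), F m e = 0 := by
    intro m e he
    obtain ⟨Ψ, h1, h2, h3⟩ := exists_functional _ _ (hmin m)
    have := hX (r m) (hz m) Ψ (F m) (isNorming_of_le (hz m) h1 h3) (h.norming m (hz m))
    rw [← this]
    exact h2 e he
  have hmono : ∀ m n, m ≤ n →
      Submodule.span ℝ (φ '' Set.Iio m) ≤ Submodule.span ℝ (φ '' Set.Iio n) := by
    intro m n hmn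
    exact Submodule.span_mono (Set.image_mono (Set.Iio_subset_Iio hmn))
  have hanti : Antitone (fun m => ‖r m‖) := by
    refine antitone_nat_of_succ_le ?_
    intro m
    have h1 : r m - r (m + 1) ∈ Submodule.span ℝ (φ '' Set.Iio (m + 1)) := by
      have := Submodule.sub_mem _ (hmem (m + 1)) (hmono m (m + 1) (Nat.le_succ m) (hmem m))
      convert this using 1
      abel
    have h2 := hmin (m + 1) _ h1
    rwa [add_sub_cancel] at h2
  have hbdd : BddBelow (Set.range fun m => ‖r m‖) := ⟨0, by rintro _ ⟨n, rfl⟩; positivity⟩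
  have hlim := tendsto_atTop_ciInf hanti hbdd
  set α := ⨅ m, ‖r m‖ with hα
  have hαle : ∀ m, α ≤ ‖r m‖ := fun m => ciInf_le hbdd m
  have hα0 : 0 ≤ α := le_ciInf (fun m => norm_nonneg _)
  rcases hα0.eq_or_lt with h0 | hpos
  · rw [← h0] at hlim; exact hlim
  exfalso
  have hFn : ∀ m, ‖F m‖ = 1 := fun m => (h.norming m (hz m)).1
  have hFr : ∀ m, F m (r m) = ‖r m‖ := fun m => (h.norming m (hz m)).2
  obtain ⟨Φ, G, hΦ, hG⟩ := hs hX (g := F) (fun n => (hFn n).le)
  have hFf : ∀ m, F m f = ‖r m‖ := by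
    intro m
    have h1 := hkill m _ (hmem m)
    rw [map_sub, sub_eq_zero] at h1
    rw [h1, hFr]
  have hGf : G f = α := by
    refine tendsto_nhds_unique (hG f) ?_
    refine (hlim.comp hΦ).congr ?_
    intro n
    simp only [Function.comp]
    rw [hFf]
  have hGk : ∀ m, ∀ e ∈ Submodule.span ℝ (φ '' Set.Iio m), G e = 0 := by
    intro m e he
    refine tendsto_nhds_unique (hG e) ?_
    refine tendsto_const_nhds.congr' ?_
    filter_upwards [hΦ.eventually_ge_atTop m] with n hn
    exact (hkill (Φ n) e (hmono m _ hn he)).symm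
  have hGr : ∀ m, G (r m) = α := by
    intro m
    have h1 := hGk m _ (hmem m)
    rw [map_sub, sub_eq_zero] at h1
    rw [← h1, hGf]
  have hGle : ‖G‖ ≤ 1 := by
    refine G.opNorm_le_bound zero_le_one ?_
    intro x
    refine le_of_tendsto' (hG x).norm ?_
    intro n
    exact (F (Φ n)).le_of_opNorm_le (hFn _).le x
  have hGge : 1 ≤ ‖G‖ := by
    have h1 : ∀ m, α ≤ ‖G‖ * ‖r m‖ := by
      intro m
      have := G.le_opNorm (r m)
      rw [hGr] at this
      exact (le_abs_self _).trans this
    have h2 : α ≤ ‖G‖ * α := ge_of_tendsto' (hlim.const_mul ‖G‖) h1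
    exact (le_mul_iff_one_le_left hpos).1 h2
  have hGn : ‖G‖ = 1 := le_antisymm hGle hGge
  have hconv := hK G (fun n => F (Φ n)) hGn (fun n => hFn _) hG
  have hzero : ∀ g ∈ D, G g = 0 := by
    intro g hg
    have h1 : ∀ n, t * |F (Φ n) g| ≤ ‖F (Φ n) - G‖ := by
      intro n
      have h2 := h.greedy (Φ n) (hz _) g hg
      have h3 : G (φ (Φ n)) = 0 := hGk (Φ n + 1) _
        (Submodule.subset_span ⟨Φ n, by simp, rfl⟩)
      have h4 : ‖φ (Φ n)‖ = 1 := hD.1 _ (h.mem _ (hz _))
      have h5 := (F (Φ n) - G).le_opNorm (φ (Φ n))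
      rw [sub_apply, h3, sub_zero, h4, mul_one] at h5
      exact h2.trans h5
    have h2 : Tendsto (fun n => t * |F (Φ n) g|) atTop (𝓝 (t * |G g|)) :=
      ((hG g).abs).const_mul t
    have h3 : t * |G g| ≤ 0 := le_of_tendsto_of_tendsto' h2 hconv h1
    have h4 : |G g| ≤ 0 := by
      by_contra hcon
      push Not at hcon
      have : 0 < t * |G g| := mul_pos ht hcon
      linarith
    exact abs_eq_zero.1 (le_antisymm h4 (abs_nonneg _))
  have hspan : ∀ x ∈ Submodule.span ℝ D, G x = 0 := by
    intro x hx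
    have : Submodule.span ℝ D ≤ LinearMap.ker (G : X →ₗ[ℝ] ℝ) := by
      rw [Submodule.span_le]
      intro g hg
      exact hzero g hg
    exact this hx
  have hG0 : G = 0 := by
    ext x
    have hcl : IsClosed {x : X | G x = 0} := isClosed_eq G.continuous continuous_const
    have : x ∈ {x : X | G x = 0} := by
      have h1 : (Submodule.span ℝ D : Set X) ⊆ {x : X | G x = 0} := fun y hy => hspan y hy
      have h2 := hcl.closure_subset_iff.2 h1
      exact h2 (hD.2 x)
    exact this
  rw [hG0, norm_zero] at hGn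
  exact zero_ne_one hGn

end Pool.Agent.Helper983.WC
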