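import Pool.Agent.Helper983.WC.CaseA
import Pool.Agent.Helper983.WC.CaseB
import Pool.Agent.Helper983.WC.Suff

namespace Pool.Agent.Helper983.WC

open Filter Topology

variable {X : Type*} [NormedAddCommGroup X] [NormedSpace ℝ X]

theorem fails_of_not_dualKK [CompleteSpace X] (hX : Smooth X) (h : ¬ DualKK X) : Fails X := by
  obtain ⟨F, c, G, h, y, hraw⟩ := exists_raw h
  obtain ⟨L, hL, hall⟩ := exists_sel hraw
  have hc := hraw.cpos
  rcases hL.lt_or_eq with hlt | heq
  · set γ := min (1 - L) 1 with hγ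
    have hγ0 : 0 < γ := lt_min (by linarith) one_pos
    have hγ1 : γ ≤ 1 := min_le_right _ _
    have hγL : L ≤ 1 - γ := by
      have := min_le_left (1 - L) 1
      rw [← hγ] at this
      linarith
    set ε := γ ^ 2 / (36 * γ + 512) with hε
    have hden : 0 < 36 * γ + 512 := by positivity
    have hε0 : 0 < ε := by positivity
    have hε2 : ε * (9 * γ + 128) ≤ γ ^ 2 / 4 := by
      have : ε * (36 * γ + 512) = γ ^ 2 := by rw [hε, div_mul_cancel₀ _ hden.ne']
      linarith
    obtain ⟨G', h', y', l, hs⟩ := hall (fun n => ε * (1 / 4) ^ n) (fun n => γ / 16 * (1 / 2) ^ n)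
      (fun n => by positivity) (fun n => by positivity)
    exact (dataB_of_sel hγ0 hγ1 hγL hε0 hε2 hs).fails hX
  · subst heq
    exact caseA hX hc hall

/-- If the space is not smooth or its dual norm fails the Kadec-Klee property, then some
realization of the algorithm fails to converge. -/
theorem fails_of_not [CompleteSpace X] (h : ¬ (Smooth X ∧ DualKK X)) : Fails X := by
  by_cases hX : Smooth X
  · exact fails_of_not_dualKK hX fun hK => h ⟨hX, hK⟩
  · exact fails_of_not_smooth hX

theorem main [CompleteSpace X] (t : ℝ) (ht0 : 0 < t) (ht1 : t ≤ 1) :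
    (∀ D : Set X, IsDictionary D → ∀ (f : X) (r : ℕ → X) (F : ℕ → X →L[ℝ] ℝ) (φ : ℕ → X),
      IsRun t D f r F φ → Tendsto (fun m => ‖r m‖) atTop (𝓝 0)) ↔ (Smooth X ∧ DualKK X) := by
  constructor
  · intro hconv
    by_contra hcon
    obtain ⟨D, f, r, F, φ, hD, hrun, hnot⟩ := fails_of_not hcon
    exact hnot (hconv D hD f r F φ (hrun.weaken ht1))
  · rintro ⟨hX, hK⟩ D hD f r F φ hrun
    exact suff hX hK ht0 hD hrun

end Pool.Agent.Helper983.WC
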