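import Pool.Agent.Helper983.WC.Basic

namespace Pool.Agent.Helper983.WC

open Filter Topology

variable {X : Type*} [NormedAddCommGroup X] [NormedSpace ℝ X]

/-- A slow path through the points `y b`. -/
structure PathData (ζ : ℝ) (y : ℕ → X) (P u : ℕ → X) (μ : ℕ → ℝ) : Prop where
  step : ∀ q, P (q + 1) = P q - (1024 : ℝ) • u q
  μ0 : ∀ q, 0 ≤ μ q
  μ4 : ∀ q, μ q ≤ 4
  u0 : ‖u 0‖ ≤ ζ
  prop : ∀ q, ‖u (q + 1) - μ q • u q‖ ≤ ζ * (1 / 2) ^ (q + 1)
  room : ∀ q (t s : ℝ), 0 ≤ t → t ≤ 1024 → |s| ≤ 64 →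
    ‖P q - t • u q + s • u q‖ ≤ 1 + ζ * (1 / 2) ^ q
  room' : ∀ q (t s : ℝ), 0 ≤ t → t ≤ 1024 → |s| ≤ 64 →
    ‖P q - t • u q + s • u (q + 1)‖ ≤ 1 + ζ * (1 / 2) ^ q
  conv : ∀ (G : X →L[ℝ] ℝ) (η : ℝ), (∀ b, |G (y b) - 1| ≤ η) →
    ∀ q (t : ℝ), 0 ≤ t → t ≤ 1024 → |G (P q - t • u q) - 1| ≤ η

/-- block thresholds -/
def bM (N b : ℕ) : ℕ := N * 4 ^ b

/-- position inside a block -/
noncomputable def Th (N b q : ℕ) : ℝ := 4 ^ q / (16 ^ (bM N b) + 4 ^ q)

/-- index of the block -/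
def bl (N q : ℕ) : ℕ := Nat.log 4 ((q + N) / N)

theorem bM_succ (N b : ℕ) : bM N (b + 1) = 4 * bM N b := by
  simp only [bM, pow_succ]; ring

theorem bM_pos {N : ℕ} (hN : 0 < N) (b : ℕ) : 0 < bM N b := by
  unfold bM; positivity

theorem bl_spec {N : ℕ} (hN : 0 < N) (q : ℕ) :
    bM N (bl N q) ≤ q + N ∧ q + N < 4 * bM N (bl N q) := by
  have h1 : (q + N) / N ≠ 0 := by
    have : 1 ≤ (q + N) / N := (Nat.le_div_iff_mul_le hN).2 (by omega)
    omega
  have h2 := Nat.pow_log_le_self 4 h1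
  have h3 := Nat.lt_pow_succ_log_self (b := 4) (by norm_num) ((q + N) / N)
  constructor
  · have := (Nat.le_div_iff_mul_le hN).1 h2
    unfold bM bl
    rw [mul_comm]; exact this
  · rw [← bM_succ]
    have := (Nat.div_lt_iff_lt_mul hN).1 h3
    unfold bM bl
    rw [mul_comm]; exact this

theorem bl_eq {N : ℕ} (hN : 0 < N) {q b : ℕ} (h1 : bM N b ≤ q + N) (h2 : q + N < 4 * bM N b) :
    bl N q = b := by
  unfold bl
  refine Nat.log_eq_of_pow_le_of_lt_pow ?_ ?_
  · rw [Nat.le_div_iff_mul_le hN, mul_comm]; exact h1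
  · rw [Nat.div_lt_iff_lt_mul hN, mul_comm]
    rw [← bM_succ] at h2
    exact h2

theorem Th_nonneg (N b q : ℕ) : 0 ≤ Th N b q := by unfold Th; positivity

theorem Th_le_one (N b q : ℕ) : Th N b q ≤ 1 := by
  unfold Th
  rw [div_le_one (by positivity)]
  have : (0 : ℝ) < 16 ^ bM N b := by positivity
  linarith

/-- the step within a block -/
noncomputable def De (N b q : ℕ) : ℝ := Th N b (q + 1) - Th N b q

theorem De_eq (N b q : ℕ) : De N b q =
    3 * 16 ^ (bM N b) * 4 ^ q / ((16 ^ (bM N b) + 4 ^ q) * (16 ^ (bM N b) + 4 * 4 ^ q)) := by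
  unfold De Th
  have h1 : (0 : ℝ) < 16 ^ bM N b := by positivity
  have h2 : (0 : ℝ) < 4 ^ q := by positivity
  rw [pow_succ (4 : ℝ) q]
  have h3 : (16 : ℝ) ^ bM N b + 4 ^ q ≠ 0 := by positivity
  have h4 : (16 : ℝ) ^ bM N b + 4 ^ q * 4 ≠ 0 := by positivity
  have h5 : (16 : ℝ) ^ bM N b + 4 * 4 ^ q ≠ 0 := by positivity
  field_simp
  ring

theorem De_pos (N b q : ℕ) : 0 < De N b q := by
  rw [De_eq]; positivity

theorem De_succ_le (N b q : ℕ) : De N b (q + 1) ≤ 4 * De N b q := by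
  rw [De_eq, De_eq]
  have h1 : (0 : ℝ) < 16 ^ bM N b := by positivity
  have h2 : (0 : ℝ) < 4 ^ q := by positivity
  rw [pow_succ (4 : ℝ) q, ← mul_div_assoc, div_le_div_iff₀ (by positivity) (by positivity)]
  generalize (16 : ℝ) ^ bM N b = A at *
  generalize (4 : ℝ) ^ q = B at *
  have h3 : 0 ≤ A * B * (A + 4 * B) * B := by positivity
  nlinarith

theorem De_le_Th (N b q : ℕ) : De N b q ≤ 4 * Th N b q := by
  rw [De_eq]
  unfold Th
  have h1 : (0 : ℝ) < 16 ^ bM N b := by positivity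
  have h2 : (0 : ℝ) < 4 ^ q := by positivity
  rw [← mul_div_assoc, div_le_div_iff₀ (by positivity) (by positivity)]
  generalize (16 : ℝ) ^ bM N b = A at *
  generalize (4 : ℝ) ^ q = B at *
  have h3 : 0 ≤ B * (A + B) * A := by positivity
  have h4 : 0 ≤ B * (A + B) * B := by positivity
  nlinarith

theorem De_le_Th' (N b q : ℕ) : De N b q ≤ 4 * (1 - Th N b (q + 1)) := by
  rw [De_eq]
  unfold Th
  have h1 : (0 : ℝ) < 16 ^ bM N b := by positivity
  have h2 : (0 : ℝ) < 4 ^ q := by positivity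
  rw [pow_succ (4 : ℝ) q]
  generalize (16 : ℝ) ^ bM N b = A at *
  generalize (4 : ℝ) ^ q = B at *
  have e1 : 4 * (1 - B * 4 / (A + B * 4)) = 4 * A / (A + 4 * B) := by
    have : A + B * 4 ≠ 0 := by positivity
    have : A + 4 * B ≠ 0 := by positivity
    field_simp
    ring
  rw [e1, div_le_div_iff₀ (by positivity) (by positivity)]
  have h3 : 0 ≤ A * (A + 4 * B) * A := by positivity
  have h4 : 0 ≤ A * (A + 4 * B) * B := by positivity
  nlinarith

/-- at the end of a block -/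
theorem Th_end {N b q : ℕ} (h : q + 1 = 4 * bM N b) : 1 - Th N b q ≤ 2 * (1 / 2) ^ q := by
  unfold Th
  have h1 : (0 : ℝ) < 16 ^ bM N b := by positivity
  have h2 : (0 : ℝ) < 4 ^ q := by positivity
  have e1 : (4 : ℝ) ^ (q + 1) = 16 ^ bM N b * 16 ^ bM N b := by
    rw [h, pow_mul, ← mul_pow]; norm_num
  have e2 : (1 / 2 : ℝ) ^ (q + 1) = 1 / 16 ^ bM N b := by
    rw [h, pow_mul, ← one_div_pow]; norm_num
  rw [pow_succ] at e1 e2
  have e3 : (1 / 2 : ℝ) ^ q = 2 / 16 ^ bM N b := by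
    have : (1 / 2 : ℝ) ^ q = (1 / 2 : ℝ) ^ q * (1 / 2) * 2 := by ring
    rw [this, e2]; ring
  rw [e3]
  generalize (16 : ℝ) ^ bM N b = A at *
  generalize (4 : ℝ) ^ q = B at *
  have e4 : 1 - B / (A + B) = A / (A + B) := by
    have : A + B ≠ 0 := by positivity
    field_simp
    ring
  rw [e4, ← mul_div_assoc, div_le_div_iff₀ (by positivity) (by positivity)]
  nlinarith

/-- at the start of a block -/
theorem Th_start {N b q : ℕ} (h : q = bM N b) : Th N b q ≤ (1 / 2) ^ q := by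
  unfold Th
  rw [← h]
  have h2 : (0 : ℝ) < 4 ^ q := by positivity
  have e1 : (16 : ℝ) ^ q = 4 ^ q * 4 ^ q := by rw [← mul_pow]; norm_num
  have e2 : (4 : ℝ) ^ q = 2 ^ q * 2 ^ q := by rw [← mul_pow]; norm_num
  have h3 : (1 : ℝ) ≤ 2 ^ q := one_le_pow₀ (by norm_num)
  rw [e1, one_div_pow, div_le_div_iff₀ (by positivity) (by positivity), e2]
  generalize (2 : ℝ) ^ q = A at *
  have h4 : A * A * A ≤ A * A * A * A := by
    have : 0 ≤ A * A * A := by positivity
    nlinarith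
  nlinarith [sq_nonneg A]

theorem De_start {N b q : ℕ} (h : q = bM N b) : De N b q ≤ 4 * (1 / 2) ^ q := by
  have h1 := De_le_Th N b q
  have h2 := Th_start h
  linarith

/-- the path -/
noncomputable def Pa (N : ℕ) (y : ℕ → X) (q : ℕ) : X :=
  y (bl N q) + Th N (bl N q) (q + N) • (y (bl N q + 1) - y (bl N q))

/-- the steps of the path -/
noncomputable def Ua (N : ℕ) (y : ℕ → X) (q : ℕ) : X :=
  (1 / 1024 : ℝ) • (Pa N y q - Pa N y (q + 1))

theorem Pa_eq {N : ℕ} (hN : 0 < N) (y : ℕ → X) {q b : ℕ} (h1 : bM N b ≤ q + N)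
    (h2 : q + N < 4 * bM N b) : Pa N y q = y b + Th N b (q + N) • (y (b + 1) - y b) := by
  unfold Pa
  rw [bl_eq hN h1 h2]

theorem Ua_eq {N : ℕ} (hN : 0 < N) (y : ℕ → X) {q b : ℕ} (h1 : bM N b ≤ q + N)
    (h2 : q + N + 1 < 4 * bM N b) :
    Ua N y q = (-(De N b (q + N) / 1024)) • (y (b + 1) - y b) := by
  unfold Ua
  rw [Pa_eq hN y h1 (by omega), Pa_eq hN y (q := q + 1) (b := b) (by omega) (by omega)]
  unfold De
  have : q + 1 + N = q + N + 1 := by omega
  rw [this]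
  module

theorem seg_le {y : ℕ → X} {a : ℕ → ℝ} (hy : ∀ b, ‖y b‖ ≤ 1 + a b)
    (ha : ∀ b, a (b + 1) ≤ a b) (b : ℕ) {θ : ℝ} (h0 : 0 ≤ θ) (h1 : θ ≤ 1) :
    ‖y b + θ • (y (b + 1) - y b)‖ ≤ 1 + a b := by
  have e : y b + θ • (y (b + 1) - y b) = (1 - θ) • y b + θ • y (b + 1) := by module
  rw [e]
  refine (norm_add_le _ _).trans ?_
  rw [norm_smul, norm_smul, Real.norm_of_nonneg (by linarith), Real.norm_of_nonneg h0]
  have h2 := hy b
  have h3 := (hy (b + 1)).trans (by linarith [ha b] : 1 + a (b + 1) ≤ 1 + a b)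
  nlinarith

theorem exists_path {ζ : ℝ} (hζ : 0 < ζ) (hζ1 : ζ ≤ 1) :
    ∃ a : ℕ → ℝ, (∀ b, 0 < a b) ∧ ∀ y : ℕ → X, (∀ b, ‖y b‖ ≤ 1 + a b) →
      ∃ P u μ, PathData ζ y P u μ := by
  obtain ⟨N0, hN0⟩ := exists_pow_lt_of_lt_one (show (0 : ℝ) < ζ / 2 by positivity)
    (show (1 / 2 : ℝ) < 1 by norm_num)
  set N := N0 + 1 with hN
  have hNpos : 0 < N := Nat.succ_pos _
  have hNζ : (1 / 2 : ℝ) ^ N ≤ ζ / 2 := by
    rw [hN, pow_succ]
    have : (0 : ℝ) < (1 / 2) ^ N0 := by positivity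
    linarith
  set a : ℕ → ℝ := fun b => ζ / 2 * (1 / 2) ^ (4 * bM N b) with ha
  have hapos : ∀ b, 0 < a b := fun b => by simp only [ha]; positivity
  have hanti : ∀ b, a (b + 1) ≤ a b := by
    intro b
    simp only [ha]
    have : (1 / 2 : ℝ) ^ (4 * bM N (b + 1)) ≤ (1 / 2) ^ (4 * bM N b) := by
      refine pow_le_pow_of_le_one (by norm_num) (by norm_num) ?_
      rw [bM_succ]; omega
    gcongr
  have ha1 : ∀ b, a b ≤ 1 := by
    intro b
    simp only [ha]
    have : (1 / 2 : ℝ) ^ (4 * bM N b) ≤ 1 := pow_le_one₀ (by norm_num) (by norm_num)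
    have h2 : (0 : ℝ) < (1 / 2 : ℝ) ^ (4 * bM N b) := by positivity
    nlinarith
  have haq : ∀ b q, q + N < 4 * bM N b → a b ≤ ζ / 2 * (1 / 2) ^ q := by
    intro b q h
    simp only [ha]
    have : (1 / 2 : ℝ) ^ (4 * bM N b) ≤ (1 / 2) ^ q :=
      pow_le_pow_of_le_one (by norm_num) (by norm_num) (by omega)
    gcongr
  refine ⟨a, hapos, ?_⟩
  intro y hy
  have he : ∀ b, ‖y (b + 1) - y b‖ ≤ 4 := by
    intro b
    have h1 := norm_sub_le (y (b + 1)) (y b)
    have h2 := hy b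
    have h3 := hy (b + 1)
    linarith [ha1 b, ha1 (b + 1)]
  have hPn : ∀ q, ‖Pa N y q‖ ≤ 1 + ζ / 2 * (1 / 2) ^ q := by
    intro q
    obtain ⟨h1, h2⟩ := bl_spec hNpos q
    have h3 := seg_le hy hanti (bl N q) (Th_nonneg N (bl N q) (q + N)) (Th_le_one _ _ _)
    have h4 := haq _ _ h2
    unfold Pa
    linarith
  have hstep : ∀ q, Pa N y (q + 1) = Pa N y q - (1024 : ℝ) • Ua N y q := by
    intro q
    unfold Ua
    module
  have hDq : ∀ q : ℕ, (1 / 2 : ℝ) ^ (q + N) ≤ ζ / 2 * (1 / 2) ^ q := by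
    intro q
    rw [pow_add, mul_comm]
    gcongr
  -- tiny steps
  have htiny1 : ∀ q b, q + N + 1 = 4 * bM N b → 64 * ‖Ua N y q‖ ≤ ζ / 2 * (1 / 2) ^ q := by
    intro q b h
    have hb := bM_pos hNpos b
    have h1 : bM N b ≤ q + N := by omega
    have e1 := Pa_eq hNpos y (q := q) (b := b) h1 (by omega)
    have e2 := Pa_eq hNpos y (q := q + 1) (b := b + 1) (by rw [bM_succ]; omega)
      (by rw [bM_succ]; omega)
    have e3 : Pa N y q - Pa N y (q + 1) = (-(1 - Th N b (q + N))) • (y (b + 1) - y b) +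
        (-(Th N (b + 1) (q + 1 + N))) • (y (b + 1 + 1) - y (b + 1)) := by
      rw [e1, e2]; module
    have h2 := Th_end h
    have h3 := Th_start (N := N) (b := b + 1) (q := q + 1 + N) (by rw [bM_succ]; omega)
    have h4 := Th_le_one N b (q + N)
    have h5 := Th_nonneg N (b + 1) (q + 1 + N)
    have h6 : ‖Pa N y q - Pa N y (q + 1)‖ ≤ 2 * (1 / 2) ^ (q + N) * 4 +
        (1 / 2) ^ (q + 1 + N) * 4 := by
      rw [e3]
      refine (norm_add_le _ _).trans ?_
      rw [norm_smul, norm_smul, norm_neg, norm_neg, Real.norm_of_nonneg (by linarith),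
        Real.norm_of_nonneg h5]
      have h7 := he b
      have h8 := he (b + 1)
      have h9 := norm_nonneg (y (b + 1) - y b)
      have h10 := norm_nonneg (y (b + 1 + 1) - y (b + 1))
      refine add_le_add ?_ ?_
      · exact mul_le_mul h2 h7 h9 (by positivity)
      · exact mul_le_mul h3 h8 h10 (by positivity)
    have h7 : (1 / 2 : ℝ) ^ (q + 1 + N) ≤ (1 / 2) ^ (q + N) :=
      pow_le_pow_of_le_one (by norm_num) (by norm_num) (by omega)
    have h8 := hDq q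
    unfold Ua
    rw [norm_smul]
    norm_num
    norm_num at h6 h7 h8
    linarith [norm_nonneg (Pa N y q - Pa N y (q + 1))]
  have htiny2 : ∀ q b, q + N = bM N b → 64 * ‖Ua N y q‖ ≤ ζ / 2 * (1 / 2) ^ q := by
    intro q b h
    have hb := bM_pos hNpos b
    rw [Ua_eq hNpos y (b := b) (by omega) (by omega), norm_smul, norm_neg,
      Real.norm_of_nonneg (by have := De_pos N b (q + N); positivity)]
    have h1 := De_start h
    have h2 := De_pos N b (q + N)
    have h3 := he b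
    have h4 := norm_nonneg (y (b + 1) - y b)
    have h5 := hDq q
    have h6 : De N b (q + N) * ‖y (b + 1) - y b‖ ≤ 4 * (1 / 2) ^ (q + N) * 4 :=
      mul_le_mul h1 h3 h4 (by positivity)
    linarith
  -- points on the path
  have hseg : ∀ q (t : ℝ), 0 ≤ t → t ≤ 1024 →
      Pa N y q - t • Ua N y q = (1 - t / 1024) • Pa N y q + (t / 1024) • Pa N y (q + 1) := by
    intro q t _ _
    unfold Ua
    module
  have hptn : ∀ q (t : ℝ), 0 ≤ t → t ≤ 1024 →
      ‖Pa N y q - t • Ua N y q‖ ≤ 1 + ζ / 2 * (1 / 2) ^ q := by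
    intro q t h0 h1
    rw [hseg q t h0 h1]
    refine (norm_add_le _ _).trans ?_
    have h2 : 0 ≤ t / 1024 := by positivity
    have h3 : t / 1024 ≤ 1 := by rw [div_le_one (by norm_num)]; exact h1
    rw [norm_smul, norm_smul, Real.norm_of_nonneg (by linarith), Real.norm_of_nonneg h2]
    have h4 := hPn q
    have h5 := hPn (q + 1)
    have h6 : (1 / 2 : ℝ) ^ (q + 1) ≤ (1 / 2) ^ q :=
      pow_le_pow_of_le_one (by norm_num) (by norm_num) (by omega)
    have h7 : ‖Pa N y (q + 1)‖ ≤ 1 + ζ / 2 * (1 / 2) ^ q := by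
      refine h5.trans ?_
      gcongr
    nlinarith
  have htinyroom : ∀ q (t s : ℝ) (w : X), 0 ≤ t → t ≤ 1024 → |s| ≤ 64 →
      64 * ‖w‖ ≤ ζ / 2 * (1 / 2) ^ q → ‖Pa N y q - t • Ua N y q + s • w‖ ≤ 1 + ζ * (1 / 2) ^ q := by
    intro q t s w h0 h1 hs hw
    refine (norm_add_le _ _).trans ?_
    have h2 := hptn q t h0 h1
    rw [norm_smul, Real.norm_eq_abs]
    have h3 : |s| * ‖w‖ ≤ 64 * ‖w‖ := by gcongr
    linarith
  have hinterior : ∀ q b (t s : ℝ), bM N b ≤ q + N → q + N + 1 < 4 * bM N b → 0 ≤ t → t ≤ 1024 →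
      |s| ≤ 256 → ‖Pa N y q - t • Ua N y q + s • Ua N y q‖ ≤ 1 + ζ * (1 / 2) ^ q := by
    intro q b t s h1 h2 h0 ht hs
    rw [Ua_eq hNpos y h1 h2, Pa_eq hNpos y h1 (by omega)]
    have hD := De_pos N b (q + N)
    have hD1 := De_le_Th N b (q + N)
    have hD2 := De_le_Th' N b (q + N)
    have hD3 : Th N b (q + N + 1) = Th N b (q + N) + De N b (q + N) := by unfold De; ring
    rw [hD3] at hD2
    have e1 : y b + Th N b (q + N) • (y (b + 1) - y b) -
        t • -(De N b (q + N) / 1024) • (y (b + 1) - y b) +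
        s • -(De N b (q + N) / 1024) • (y (b + 1) - y b) =
        y b + (Th N b (q + N) + (t - s) * (De N b (q + N) / 1024)) • (y (b + 1) - y b) := by
      module
    rw [e1]
    rw [abs_le] at hs
    have h3 := seg_le hy hanti b (θ := Th N b (q + N) + (t - s) * (De N b (q + N) / 1024))
      (by nlinarith) (by nlinarith)
    have h4 := haq b q (by omega)
    have h5 : (0 : ℝ) < ζ * (1 / 2) ^ q := by positivity
    linarith
  -- trichotomy
  have hcases : ∀ q, (∃ b, bM N b ≤ q + N ∧ q + N + 1 < 4 * bM N b) ∨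
      (∃ b, q + N + 1 = 4 * bM N b) := by
    intro q
    obtain ⟨h1, h2⟩ := bl_spec hNpos q
    by_cases h : q + N + 1 < 4 * bM N (bl N q)
    · exact Or.inl ⟨_, h1, h⟩
    · exact Or.inr ⟨bl N q, by omega⟩
  have hroom : ∀ q (t s : ℝ), 0 ≤ t → t ≤ 1024 → |s| ≤ 64 →
      ‖Pa N y q - t • Ua N y q + s • Ua N y q‖ ≤ 1 + ζ * (1 / 2) ^ q := by
    intro q t s h0 h1 hs
    rcases hcases q with ⟨b, hb1, hb2⟩ | ⟨b, hb⟩
    · exact hinterior q b t s hb1 hb2 h0 h1 (hs.trans (by norm_num))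
    · exact htinyroom q t s _ h0 h1 hs (htiny1 q b hb)
  -- multipliers
  have hmu : ∀ q, ∃ m : ℝ, 0 ≤ m ∧ m ≤ 4 ∧ ‖Ua N y (q + 1) - m • Ua N y q‖ ≤ ζ * (1 / 2) ^ (q + 1) ∧
      ∀ (t s : ℝ), 0 ≤ t → t ≤ 1024 → |s| ≤ 64 →
      ‖Pa N y q - t • Ua N y q + s • Ua N y (q + 1)‖ ≤ 1 + ζ * (1 / 2) ^ q := by
    intro q
    have hsmall : 64 * ‖Ua N y (q + 1)‖ ≤ ζ / 2 * (1 / 2) ^ (q + 1) →
        ∃ m : ℝ, 0 ≤ m ∧ m ≤ 4 ∧ ‖Ua N y (q + 1) - m • Ua N y q‖ ≤ ζ * (1 / 2) ^ (q + 1) ∧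
          ∀ (t s : ℝ), 0 ≤ t → t ≤ 1024 → |s| ≤ 64 →
          ‖Pa N y q - t • Ua N y q + s • Ua N y (q + 1)‖ ≤ 1 + ζ * (1 / 2) ^ q := by
      intro hsm
      refine ⟨0, le_rfl, by norm_num, ?_, ?_⟩
      · rw [zero_smul, sub_zero]
        have := norm_nonneg (Ua N y (q + 1))
        have h5 : (0 : ℝ) < ζ * (1 / 2) ^ (q + 1) := by positivity
        linarith
      · intro t s h0 h1 hs
        refine htinyroom q t s _ h0 h1 hs (hsm.trans ?_)
        have : (1 / 2 : ℝ) ^ (q + 1) ≤ (1 / 2) ^ q :=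
          pow_le_pow_of_le_one (by norm_num) (by norm_num) (by omega)
        gcongr
    rcases hcases (q + 1) with ⟨b, hb1, hb2⟩ | ⟨b, hb⟩
    · by_cases hfirst : q + 1 + N = bM N b
      · exact hsmall (htiny2 (q + 1) b hfirst)
      · have hq1 : bM N b ≤ q + N := by omega
        have hq2 : q + N + 1 < 4 * bM N b := by omega
        have hD := De_pos N b (q + N)
        have hD' := De_pos N b (q + 1 + N)
        have e0 : q + 1 + N = q + N + 1 := by omega
        have hD4 : De N b (q + 1 + N) ≤ 4 * De N b (q + N) := by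
          rw [e0]; exact De_succ_le N b (q + N)
        set m := De N b (q + 1 + N) / De N b (q + N) with hm
        have hm0 : 0 ≤ m := by positivity
        have hm4 : m ≤ 4 := by rw [hm, div_le_iff₀ hD]; exact hD4
        have hmul : m * De N b (q + N) = De N b (q + 1 + N) := by
          rw [hm, div_mul_cancel₀ _ hD.ne']
        have e1 : Ua N y (q + 1) = m • Ua N y q := by
          rw [Ua_eq hNpos y hq1 hq2, Ua_eq hNpos y (q := q + 1) (b := b) (by omega) (by omega),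
            smul_smul, ← hmul]
          congr 1
          ring
        refine ⟨m, hm0, hm4, ?_, ?_⟩
        · rw [e1, sub_self, norm_zero]; positivity
        · intro t s h0 h1 hs
          rw [e1, smul_smul]
          refine hinterior q b t (s * m) hq1 hq2 h0 h1 ?_
          rw [abs_mul, abs_of_nonneg hm0]
          nlinarith [abs_nonneg s]
    · exact hsmall (htiny1 (q + 1) b hb)
  choose μ hμ0 hμ4 hμp hμr using hmu
  refine ⟨Pa N y, Ua N y, μ, hstep, hμ0, hμ4, ?_, hμp, hroom, hμr, ?_⟩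
  · have := htiny2 0 0 (by simp [bM])
    have h2 := norm_nonneg (Ua N y 0)
    rw [pow_zero, mul_one] at this
    linarith
  · intro G η hG q t h0 h1
    have hP : ∀ q, |G (Pa N y q) - 1| ≤ η := by
      intro q
      unfold Pa
      have ht0 := Th_nonneg N (bl N q) (q + N)
      have ht1 := Th_le_one N (bl N q) (q + N)
      generalize Th N (bl N q) (q + N) = θ at *
      have h2 := hG (bl N q)
      have h3 := hG (bl N q + 1)
      rw [map_add, map_smul, map_sub, smul_eq_mul]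
      rw [abs_le] at h2 h3 ⊢
      constructor <;> nlinarith
    rw [hseg q t h0 h1, map_add, map_smul, map_smul, smul_eq_mul, smul_eq_mul]
    have h2 : 0 ≤ t / 1024 := by positivity
    have h3 : t / 1024 ≤ 1 := by rw [div_le_one (by norm_num)]; exact h1
    have h4 := hP q
    have h5 := hP (q + 1)
    generalize t / 1024 = θ at *
    rw [abs_le] at h4 h5 ⊢
    constructor <;> nlinarith

end Pool.Agent.Helper983.WC
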