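import Pool.Agent.Helper983.WC.HS

namespace Pool.Agent.Helper983.WC

open Filter Topology

variable {X : Type*} [NormedAddCommGroup X] [NormedSpace ℝ X]

/-- Sequences chosen one term at a time, each depending on the earlier ones. -/
theorem exists_seq {α : Type*} (P : ℕ → (ℕ → α) → α → Prop) (a0 : α)
    (hP : ∀ n a, ∃ x, P n a x)
    (hcongr : ∀ n a b x, (∀ i, i < n → a i = b i) → P n a x → P n b x) :
    ∃ a : ℕ → α, ∀ n, P n a (a n) := by
  classical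
  choose c hc using hP
  obtain ⟨A, hA0, hAs⟩ : ∃ A : ℕ → (ℕ → α), A 0 = (fun _ => a0) ∧
      ∀ n, A (n + 1) = Function.update (A n) n (c n (A n)) :=
    ⟨fun n => Nat.rec (fun _ => a0) (fun n B => Function.update B n (c n B)) n, rfl,
      fun n => rfl⟩
  set a : ℕ → α := fun n => A (n + 1) n with ha
  have hst : ∀ m i, i < m → A m i = a i := by
    intro m
    induction m with
    | zero => intro i hi; omega
    | succ m ih =>
      intro i hi
      rcases Nat.lt_succ_iff_lt_or_eq.1 hi with h | h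
      · rw [hAs, Function.update_of_ne h.ne, ih i h]
      · rw [h]
  refine ⟨a, fun n => ?_⟩
  refine hcongr n (A n) a (a n) (fun i hi => hst n i hi) ?_
  have : a n = c n (A n) := by
    simp only [ha]
    rw [hAs, Function.update_self]
  rw [this]
  exact hc n (A n)

/-- Functionals converging weak-star but not in norm. -/
structure Base (F : X →L[ℝ] ℝ) (c : ℝ) (G : ℕ → X →L[ℝ] ℝ) (h : ℕ → X) : Prop where
  cpos : 0 < c
  Gn : ∀ k, ‖G k‖ ≤ 1
  hn : ∀ k, ‖h k‖ ≤ 1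
  Fh : ∀ k, F (h k) = 0
  Gh : ∀ k, c ≤ G k (h k)
  lim : ∀ x, Tendsto (fun k => G k x) atTop (𝓝 (F x))

/-- Raw data coming from the failure of the dual Kadec-Klee property. -/
structure Raw (F : X →L[ℝ] ℝ) (c : ℝ) (G : ℕ → X →L[ℝ] ℝ) (h y : ℕ → X) : Prop
    extends Base F c G h where
  Fy : ∀ i, F (y i) = 1
  yn : Tendsto (fun i => ‖y i‖) atTop (𝓝 1)

theorem exists_near_min {F : X →L[ℝ] ℝ} (hF : ‖F‖ = 1) {ε : ℝ} (hε : 0 < ε) :
    ∃ y, F y = 1 ∧ ‖y‖ ≤ 1 + ε := by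
  have h1 : 1 / (1 + ε) < ‖F‖ := by
    rw [hF, div_lt_one (by positivity)]
    linarith
  obtain ⟨x, hx, hx'⟩ := F.exists_lt_apply_of_lt_opNorm h1
  have hFx : F x ≠ 0 := by
    intro h
    rw [h, norm_zero] at hx'
    have : 0 < 1 / (1 + ε) := by positivity
    linarith
  have habs : 0 < |F x| := abs_pos.2 hFx
  refine ⟨(F x)⁻¹ • x, ?_, ?_⟩
  · rw [map_smul, smul_eq_mul, inv_mul_cancel₀ hFx]
  · rw [norm_smul, norm_inv, Real.norm_eq_abs, inv_mul_le_iff₀ habs]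
    rw [Real.norm_eq_abs, div_lt_iff₀ (by positivity)] at hx'
    linarith

theorem exists_raw (h : ¬ DualKK X) : ∃ (F : X →L[ℝ] ℝ) (c : ℝ) (G : ℕ → X →L[ℝ] ℝ)
    (h y : ℕ → X), Raw F c G h y := by
  unfold DualKK at h
  push Not at h
  obtain ⟨F, G, hF, hG, hlim, hnot⟩ := h
  -- near minimal points
  have hy : ∀ i : ℕ, ∃ y, F y = 1 ∧ ‖y‖ ≤ 1 + 1 / ((i : ℝ) + 1) := fun i =>
    exists_near_min hF (by positivity)
  choose y hy1 hy2 using hy
  have hyn : Tendsto (fun i => ‖y i‖) atTop (𝓝 1) := by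
    have h1 : Tendsto (fun i : ℕ => 1 + 1 / ((i : ℝ) + 1)) atTop (𝓝 (1 + 0)) :=
      tendsto_one_div_add_atTop_nhds_zero_nat.const_add 1
    rw [add_zero] at h1
    refine tendsto_of_tendsto_of_tendsto_of_le_of_le tendsto_const_nhds h1 ?_ hy2
    intro i
    have := apply_le_norm hF.le (y i)
    rwa [hy1] at this
  -- epsilon
  have hex : ∃ ε > 0, ∃ᶠ k in atTop, ε ≤ ‖G k - F‖ := by
    by_contra hcon
    push Not at hcon
    apply hnot
    rw [Metric.tendsto_atTop']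
    intro ε hε
    have h1 := hcon ε hε
    obtain ⟨N, hN⟩ := eventually_atTop.1 h1
    refine ⟨N, fun n hn => ?_⟩
    have := hN n hn.le
    rw [dist_zero_right, norm_norm]
    exact this
  obtain ⟨ε, hε, hfreq⟩ := hex
  obtain ⟨z, hz1, hz2⟩ := exists_near_min hF (ε := 1) one_pos
  have hzlim : ∀ᶠ k in atTop, |G k z - 1| < ε / 4 := by
    have := hlim z
    rw [hz1] at this
    have h2 := this (Metric.ball_mem_nhds _ (show (0 : ℝ) < ε / 4 by positivity))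
    filter_upwards [h2] with k hk
    rwa [Set.mem_preimage, Metric.mem_ball, Real.dist_eq] at hk
  have hfreq2 : ∃ᶠ k in atTop, ε ≤ ‖G k - F‖ ∧ |G k z - 1| < ε / 4 := hfreq.and_eventually hzlim
  obtain ⟨σ, hσ, hσ'⟩ := extraction_of_frequently_atTop hfreq2
  have hh : ∀ k, ∃ h : X, ‖h‖ ≤ 1 ∧ F h = 0 ∧ ε / 12 ≤ G (σ k) h := by
    intro k
    obtain ⟨h1, h2⟩ := hσ' k
    have h3 : ε / 2 < ‖G (σ k) - F‖ := by linarith
    obtain ⟨x, hx, hx'⟩ := (G (σ k) - F).exists_lt_apply_of_lt_opNorm h3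
    have : ∃ x : X, ‖x‖ ≤ 1 ∧ ε / 2 < (G (σ k) - F) x := by
      rw [Real.norm_eq_abs] at hx'
      rcases lt_abs.1 hx' with h | h
      · exact ⟨x, hx.le, h⟩
      · exact ⟨-x, by simpa using hx.le, by rw [map_neg]; exact h⟩
    obtain ⟨x, hx, hx'⟩ := this
    rw [sub_apply] at hx'
    have hFx : |F x| ≤ 1 := (abs_le_norm hF.le x).trans hx
    refine ⟨(1 / 3 : ℝ) • (x - F x • z), ?_, ?_, ?_⟩
    · have h4 : ‖F x • z‖ ≤ 2 := by
        rw [norm_smul, Real.norm_eq_abs]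
        have := norm_nonneg z
        nlinarith [abs_nonneg (F x)]
      have h5 := norm_sub_le x (F x • z)
      rw [norm_smul]
      norm_num
      linarith
    · rw [map_smul, map_sub, map_smul, hz1]
      simp
    · rw [map_smul, map_sub, map_smul, smul_eq_mul, smul_eq_mul]
      have h6 : F x * (G (σ k) z - 1) ≤ ε / 4 := by
        have h7 : |F x * (G (σ k) z - 1)| ≤ 1 * (ε / 4) := by
          rw [abs_mul]
          exact mul_le_mul hFx h2.le (abs_nonneg _) zero_le_one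
        rw [one_mul] at h7
        exact (le_abs_self _).trans h7
      nlinarith
  choose h hh1 hh2 hh3 using hh
  exact ⟨F, ε / 12, fun k => G (σ k), h, y, ⟨by positivity, fun k => (hG _).le, hh1, hh2, hh3,
    fun x => (hlim x).comp hσ.tendsto_atTop⟩, hy1, hyn⟩

/-- Selected data. -/
structure Sel (F : X →L[ℝ] ℝ) (c L : ℝ) (η a : ℕ → ℝ) (G : ℕ → X →L[ℝ] ℝ) (h y : ℕ → X)
    (l : ℕ → ℝ) : Prop where
  base : Base F c G h
  Fy : ∀ i, F (y i) = 1
  near : ∀ n, ‖y n‖ ≤ 1 + a n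
  past : ∀ n m, m ≤ n → |G n (y m) - 1| ≤ η n
  fut : ∀ n m, n < m → |G n (y m) - l n| ≤ η m
  lL : ∀ n, |l n - L| ≤ η n

theorem exists_sel {F : X →L[ℝ] ℝ} {c : ℝ} {G : ℕ → X →L[ℝ] ℝ} {h y : ℕ → X}
    (hraw : Raw F c G h y) : ∃ L : ℝ, L ≤ 1 ∧ ∀ η a : ℕ → ℝ, (∀ n, 0 < η n) → (∀ n, 0 < a n) →
      ∃ (G' : ℕ → X →L[ℝ] ℝ) (h' y' : ℕ → X) (l : ℕ → ℝ), Sel F c L η a G' h' y' l := by
  set U : Ultrafilter ℕ := hyperfilter ℕ with hU
  have hUle : (U : Filter ℕ) ≤ atTop := hyper_le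
  -- limits along the ultrafilter
  have hylim := hraw.yn.mono_left hUle
  have hbdd : ∃ B : ℝ, ∀ i, ‖y i‖ ≤ B := by
    obtain ⟨B, hB⟩ := hraw.yn.bddAbove_range
    exact ⟨B, fun i => hB ⟨i, rfl⟩⟩
  obtain ⟨B, hB⟩ := hbdd
  have hl : ∀ k, ∃ l : ℝ, Tendsto (fun i => G k (y i)) U (𝓝 l) ∧ |l| ≤ B ∧ l ≤ 1 := by
    intro k
    have hmem : ∀ i, G k (y i) ∈ Set.Icc (-B) B := by
      intro i
      have := (abs_le_norm (hraw.Gn k) (y i)).trans (hB i)
      exact abs_le.1 this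
    have hle : (U.map (fun i => G k (y i)) : Filter ℝ) ≤ 𝓟 (Set.Icc (-B) B) := by
      rw [Filter.le_principal_iff, Ultrafilter.coe_map]
      exact Filter.mem_map.2 (Filter.univ_mem' hmem)
    obtain ⟨l, hl, hlim⟩ := isCompact_Icc.ultrafilter_le_nhds _ hle
    refine ⟨l, hlim, abs_le.2 hl, ?_⟩
    refine le_of_tendsto_of_tendsto' hlim hylim ?_
    intro i
    exact apply_le_norm (hraw.Gn k) (y i)
  choose l hl1 hl2 hl3 using hl
  obtain ⟨L, hL1, hL2⟩ : ∃ L : ℝ, Tendsto l U (𝓝 L) ∧ L ≤ 1 := by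
    have hle : (U.map l : Filter ℝ) ≤ 𝓟 (Set.Icc (-B) B) := by
      rw [Filter.le_principal_iff, Ultrafilter.coe_map]
      exact Filter.mem_map.2 (Filter.univ_mem' (fun k => abs_le.1 (hl2 k)))
    obtain ⟨L, -, hlim⟩ := isCompact_Icc.ultrafilter_le_nhds _ hle
    exact ⟨L, hlim, le_of_tendsto' hlim hl3⟩
  refine ⟨L, hL2, ?_⟩
  intro η a hη ha
  have habs : ∀ {u : ℕ → ℝ} {b e : ℝ}, Tendsto u U (𝓝 b) → 0 < e → ∀ᶠ i in (U : Filter ℕ),
      |u i - b| ≤ e := by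
    intro u b e hu he
    filter_upwards [hu (Metric.ball_mem_nhds _ he)] with i hi
    rw [Set.mem_preimage, Metric.mem_ball, Real.dist_eq] at hi
    exact hi.le
  obtain ⟨s, hs⟩ := exists_seq (α := ℕ × ℕ) (fun n b x =>
      n ≤ x.1 ∧ ‖y x.2‖ ≤ 1 + a n ∧ (∀ j, j < n → |G (b j).1 (y x.2) - l (b j).1| ≤ η n) ∧
      (∀ j, j < n → |G x.1 (y (b j).2) - 1| ≤ η n) ∧ |G x.1 (y x.2) - 1| ≤ η n ∧
      |l x.1 - L| ≤ η n) (0, 0) (by
    intro n b
    have e1 : ∀ᶠ i in (U : Filter ℕ), ‖y i‖ ≤ 1 + a n :=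
      (hylim.eventually_le_const (show (1 : ℝ) < 1 + a n by linarith [ha n]))
    have e2 : ∀ᶠ i in (U : Filter ℕ), ∀ j, j < n → |G (b j).1 (y i) - l (b j).1| ≤ η n := by
      have : ∀ᶠ i in (U : Filter ℕ), ∀ j ∈ Set.Iio n, |G (b j).1 (y i) - l (b j).1| ≤ η n :=
        (eventually_all_finite (Set.finite_Iio n)).2 (fun j hj => habs (hl1 _) (hη n))
      exact this
    obtain ⟨i, hi1, hi2⟩ := (e1.and e2).exists
    have hGy : ∀ m, Tendsto (fun k => G k (y m)) U (𝓝 1) := by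
      intro m
      have := (hraw.lim (y m)).mono_left hUle
      rwa [hraw.Fy] at this
    have e3 : ∀ᶠ k in (U : Filter ℕ), ∀ j, j < n → |G k (y (b j).2) - 1| ≤ η n := by
      have : ∀ᶠ k in (U : Filter ℕ), ∀ j ∈ Set.Iio n, |G k (y (b j).2) - 1| ≤ η n :=
        (eventually_all_finite (Set.finite_Iio n)).2 (fun j hj => habs (hGy _) (hη n))
      exact this
    have e4 : ∀ᶠ k in (U : Filter ℕ), n ≤ k := hUle (Ici_mem_atTop n)
    obtain ⟨k, h1, h2, h3, h4⟩ := (e4.and (e3.and ((habs (hGy i) (hη n)).and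
      (habs hL1 (hη n))))).exists
    exact ⟨(k, i), h1, hi1, hi2, h2, h3, h4⟩)
    (by
      rintro n b b' x hb ⟨h1, h2, h3, h4, h5, h6⟩
      refine ⟨h1, h2, ?_, ?_, h5, h6⟩
      · intro j hj; rw [← hb j hj]; exact h3 j hj
      · intro j hj; rw [← hb j hj]; exact h4 j hj)
  refine ⟨fun n => G (s n).1, fun n => h (s n).1, fun n => y (s n).2, fun n => l (s n).1, ?_,
    fun k => hraw.Fy _, ?_, ?_, ?_, ?_⟩
  · have ht1 : Tendsto (fun n => (s n).1) atTop atTop := tendsto_atTop_mono (fun n => (hs n).1)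
      tendsto_id
    exact ⟨hraw.cpos, fun k => hraw.Gn _, fun k => hraw.hn _, fun k => hraw.Fh _,
      fun k => hraw.Gh _, fun x => (hraw.lim x).comp ht1⟩
  · intro n; exact (hs n).2.1
  · intro n m hmn
    rcases hmn.lt_or_eq with hlt | heq
    · exact (hs n).2.2.2.1 m hlt
    · rw [heq]; exact (hs n).2.2.2.2.1
  · intro n m hnm
    exact (hs m).2.2.1 n hnm
  · intro n; exact (hs n).2.2.2.2.2

end Pool.Agent.Helper983.WC
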